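import Mathlib

set_option autoImplicit false

open Matrix Polynomial

namespace Pool.Agent.Helper877.LocSpec

/-- square complex matrices of size `n` -/
abbrev Mat (n : ℕ) := Matrix (Fin n) (Fin n) ℂ

/-- The local spectrum of `T` at `x`: write `x` as a (finite) sum of vectors `y μ` with
`(T - μ)^n (y μ) = 0`; it is the set of `μ` with `y μ ≠ 0` (see `localSpectrum_eq_support`). -/
def localSpectrum {n : ℕ} (T : Mat n) (x : Fin n → ℂ) : Set ℂ :=
  {l | ∃ y : ℂ →₀ (Fin n → ℂ), (∀ m, ((T - m • (1 : Mat n)) ^ n) *ᵥ y m = 0) ∧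
    (y.sum fun _ v => v) = x ∧ y l ≠ 0}

/-- The exceptional set: matrices `T` with `T x0` a multiple of `x0` and
`(T - r)^2 = s` for some scalars `r` and `s ≠ 0`. -/
def excSet {n : ℕ} (x0 : Fin n → ℂ) : Set (Mat n) :=
  {T | (∃ a : ℂ, T *ᵥ x0 = a • x0) ∧
    ∃ r s : ℂ, s ≠ 0 ∧ (T - r • (1 : Mat n)) ^ 2 = s • (1 : Mat n)}

/-- Standard form: `φ T = ξ(T) A T A⁻¹ + η(T) 1` with `A` invertible, `A x0 = x0`, `η` an
arbitrary function and `ξ` a function with values `1` and `-1` that is constant off the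
exceptional set. -/
def IsStandard {n : ℕ} (x0 : Fin n → ℂ) (φ : Mat n → Mat n) : Prop :=
  ∃ (A : Mat n) (η : Mat n → ℂ) (ξ : Mat n → ℂ), IsUnit A ∧ A *ᵥ x0 = x0 ∧
    (∀ T, ξ T = 1 ∨ ξ T = -1) ∧ (∀ T S, T ∉ excSet x0 → S ∉ excSet x0 → ξ T = ξ S) ∧
    ∀ T, φ T = ξ T • (A * T * A⁻¹) + η T • (1 : Mat n)

end Pool.Agent.Helper877.LocSpec
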