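import Mathlib
import Pool.Agent.Helper877.LocSpec.Defs

set_option autoImplicit false

open Matrix Polynomial

namespace Pool.Agent.Helper877.LocSpec

variable {n : ℕ}

/-- polynomial along lines -/
def PL {E : Type*} [AddCommGroup E] [Module ℂ E] (F : E → ℂ) : Prop :=
  ∀ p v : E, ∃ P : ℂ[X], ∀ t : ℂ, F (p + t • v) = P.eval t

section PLs
variable {E E' : Type*} [AddCommGroup E] [Module ℂ E] [AddCommGroup E'] [Module ℂ E']

theorem PL.const (c : ℂ) : PL (fun _ : E => c) := fun _ _ => ⟨C c, fun t => by simp⟩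

theorem PL.add {F G : E → ℂ} (hF : PL F) (hG : PL G) : PL (fun p => F p + G p) := by
  intro p v
  obtain ⟨P, hP⟩ := hF p v
  obtain ⟨Q, hQ⟩ := hG p v
  exact ⟨P + Q, fun t => by simp [hP, hQ]⟩

theorem PL.sub {F G : E → ℂ} (hF : PL F) (hG : PL G) : PL (fun p => F p - G p) := by
  intro p v
  obtain ⟨P, hP⟩ := hF p v
  obtain ⟨Q, hQ⟩ := hG p v
  exact ⟨P - Q, fun t => by simp [hP, hQ]⟩

theorem PL.neg {F : E → ℂ} (hF : PL F) : PL (fun p => - F p) := by
  intro p v
  obtain ⟨P, hP⟩ := hF p v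
  exact ⟨-P, fun t => by simp [hP]⟩

theorem PL.mul {F G : E → ℂ} (hF : PL F) (hG : PL G) : PL (fun p => F p * G p) := by
  intro p v
  obtain ⟨P, hP⟩ := hF p v
  obtain ⟨Q, hQ⟩ := hG p v
  exact ⟨P * Q, fun t => by simp [hP, hQ]⟩

theorem PL.pow {F : E → ℂ} (hF : PL F) (k : ℕ) : PL (fun p => F p ^ k) := by
  intro p v
  obtain ⟨P, hP⟩ := hF p v
  exact ⟨P ^ k, fun t => by simp [hP]⟩

theorem PL.sum {ι : Type*} (s : Finset ι) {F : ι → E → ℂ} (hF : ∀ i ∈ s, PL (F i)) :
    PL (fun p => ∑ i ∈ s, F i p) := by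
  classical
  induction s using Finset.induction_on with
  | empty => simpa using PL.const (E := E) 0
  | insert a s ha ih =>
    simp only [Finset.sum_insert ha]
    exact (hF a (Finset.mem_insert_self a s)).add (ih fun i hi => hF i (Finset.mem_insert_of_mem hi))

theorem PL.prod {ι : Type*} (s : Finset ι) {F : ι → E → ℂ} (hF : ∀ i ∈ s, PL (F i)) :
    PL (fun p => ∏ i ∈ s, F i p) := by
  classical
  induction s using Finset.induction_on with
  | empty => simpa using PL.const (E := E) 1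
  | insert a s ha ih =>
    simp only [Finset.prod_insert ha]
    exact (hF a (Finset.mem_insert_self a s)).mul (ih fun i hi => hF i (Finset.mem_insert_of_mem hi))

theorem PL.comp {F : E → ℂ} (hF : PL F) (L : E' →ₗ[ℂ] E) : PL (fun p => F (L p)) := by
  intro p v
  obtain ⟨P, hP⟩ := hF (L p) (L v)
  exact ⟨P, fun t => by rw [← hP]; simp only [map_add, map_smul]⟩

theorem PL.compAff {F : E → ℂ} (hF : PL F) (L : E' →ₗ[ℂ] E) (c : E) : PL (fun p => F (L p + c)) := by
  intro p v
  obtain ⟨P, hP⟩ := hF (L p + c) (L v)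
  refine ⟨P, fun t => ?_⟩
  rw [← hP]
  simp only [map_add, map_smul]
  congr 1
  abel

theorem PL.lin (L : E →ₗ[ℂ] ℂ) : PL (fun p => L p) := by
  intro p v
  exact ⟨C (L p) + X * C (L v), fun t => by simp; ring⟩

/-- Two nonzero polynomial-along-lines functions have a common nonzero. -/
theorem PL.two {F G : E → ℂ} (hF : PL F) (hG : PL G) (hF0 : ∃ p, F p ≠ 0) (hG0 : ∃ p, G p ≠ 0) :
    ∃ p, F p ≠ 0 ∧ G p ≠ 0 := by
  obtain ⟨p, hp⟩ := hF0
  obtain ⟨q, hq⟩ := hG0
  obtain ⟨P, hP⟩ := hF p (q - p)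
  obtain ⟨Q, hQ⟩ := hG p (q - p)
  have hP0 : P ≠ 0 := by
    rintro rfl
    have := hP 0
    simp at this
    exact hp this
  have hQ0 : Q ≠ 0 := by
    rintro rfl
    have := hQ 1
    simp at this
    exact hq this
  have hPQ : P * Q ≠ 0 := mul_ne_zero hP0 hQ0
  obtain ⟨t, ht⟩ := Polynomial.exists_eval_ne_zero_of_natDegree_lt_card (P * Q) hPQ (by
    simpa using Cardinal.natCast_lt_aleph0.trans_le (Cardinal.aleph0_le_mk ℂ))
  rw [Polynomial.eval_mul] at ht
  refine ⟨p + t • (q - p), ?_, ?_⟩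
  · rw [hP]; exact left_ne_zero_of_mul ht
  · rw [hQ]; exact right_ne_zero_of_mul ht

theorem PL.many {ι : Type*} (s : Finset ι) {F : ι → E → ℂ} (hF : ∀ i ∈ s, PL (F i))
    (h0 : ∀ i ∈ s, ∃ p, F i p ≠ 0) : ∃ p, ∀ i ∈ s, F i p ≠ 0 := by
  classical
  suffices h : ∃ p, ∏ i ∈ s, F i p ≠ 0 by
    obtain ⟨p, hp⟩ := h
    exact ⟨p, fun i hi => Finset.prod_ne_zero_iff.mp hp i hi⟩
  induction s using Finset.induction_on with
  | empty => exact ⟨0, by simp⟩
  | insert a s ha ih =>
    obtain ⟨p, hp, hq⟩ := PL.two (hF a (Finset.mem_insert_self a s))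
      (PL.prod s fun i hi => hF i (Finset.mem_insert_of_mem hi)) (h0 a (Finset.mem_insert_self a s))
      (ih (fun i hi => hF i (Finset.mem_insert_of_mem hi)) fun i hi => h0 i (Finset.mem_insert_of_mem hi))
    exact ⟨p, by rw [Finset.prod_insert ha]; exact mul_ne_zero hp hq⟩

/-- Identity theorem. -/
theorem PL.eq_zero {F G : E → ℂ} (hF : PL F) (hG : PL G) (hG0 : ∃ p, G p ≠ 0)
    (h : ∀ p, G p ≠ 0 → F p = 0) (p : E) : F p = 0 := by
  by_contra hp
  obtain ⟨q, hq1, hq2⟩ := PL.two hF hG ⟨p, hp⟩ hG0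
  exact hq1 (h q hq2)

/-- Matrix valued functions, entrywise polynomial along lines. -/
def PLM {m k : Type*} (F : E → Matrix m k ℂ) : Prop := ∀ i j, PL (fun p => F p i j)

theorem PLM.const {m k : Type*} (M : Matrix m k ℂ) : PLM (fun _ : E => M) := fun _ _ => PL.const _

theorem PLM.mul {m k l : Type*} [Fintype k] {F : E → Matrix m k ℂ} {G : E → Matrix k l ℂ}
    (hF : PLM F) (hG : PLM G) : PLM (fun p => F p * G p) := by
  intro i j
  simp only [Matrix.mul_apply]
  exact PL.sum _ fun a _ => (hF i a).mul (hG a j)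

theorem PLM.add {m k : Type*} {F G : E → Matrix m k ℂ}
    (hF : PLM F) (hG : PLM G) : PLM (fun p => F p + G p) := fun i j => (hF i j).add (hG i j)

theorem PLM.sub {m k : Type*} {F G : E → Matrix m k ℂ}
    (hF : PLM F) (hG : PLM G) : PLM (fun p => F p - G p) := fun i j => (hF i j).sub (hG i j)

theorem PLM.smul {m k : Type*} {c : E → ℂ} {F : E → Matrix m k ℂ}
    (hc : PL c) (hF : PLM F) : PLM (fun p => c p • F p) := fun i j => hc.mul (hF i j)

theorem PLM.pow {m : Type*} [Fintype m] [DecidableEq m] {F : E → Matrix m m ℂ} (hF : PLM F) (k : ℕ) :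
    PLM (fun p => F p ^ k) := by
  induction k with
  | zero => simpa using PLM.const (E := E) (1 : Matrix m m ℂ)
  | succ k ih => simpa only [pow_succ] using ih.mul hF

theorem PLM.lin {m k : Type*} (L : E →ₗ[ℂ] Matrix m k ℂ) : PLM (fun p => L p) := by
  intro i j
  exact PL.lin ((Matrix.entryLinearMap ℂ ℂ i j) ∘ₗ L)

theorem PLM.trace {m : Type*} [Fintype m] {F : E → Matrix m m ℂ} (hF : PLM F) :
    PL (fun p => (F p).trace) := PL.sum _ fun a _ => hF a a

theorem PLM.det {m : Type*} [Fintype m] [DecidableEq m] {F : E → Matrix m m ℂ} (hF : PLM F) :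
    PL (fun p => (F p).det) := by
  simp only [Matrix.det_apply']
  exact PL.sum _ fun σ _ => (PL.const _).mul (PL.prod _ fun i _ => hF _ _)

theorem PLM.comp {m k : Type*} {F : E → Matrix m k ℂ} (hF : PLM F) (L : E' →ₗ[ℂ] E) :
    PLM (fun p => F (L p)) := fun i j => (hF i j).comp L

end PLs

/-- test function for n distinct local eigenvalues -/
noncomputable def dlt {n : ℕ} (x : Fin n → ℂ) (C : Mat n) : ℂ :=
  (Matrix.of fun i j : Fin n => trace (C ^ ((i : ℕ) + (j : ℕ)))).det *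
    (Matrix.of fun i j : Fin n => ((C ^ (j : ℕ)) *ᵥ x) i).det

theorem exists_decomp (T : Mat n) (x : Fin n → ℂ) :
    ∃ y : ℂ →₀ (Fin n → ℂ), (∀ m, ((T - m • (1 : Mat n)) ^ n) *ᵥ y m = 0) ∧
      (y.sum fun _ v => v) = x := by
  have h1 := Module.End.iSup_maxGenEigenspace_eq_top (K := ℂ) (Matrix.toLin' T)
  have hx : x ∈ ⨆ m : ℂ, Module.End.maxGenEigenspace (Matrix.toLin' T) m := by
    rw [h1]; trivial
  rw [Submodule.mem_iSup_iff_exists_finsupp] at hx
  obtain ⟨y, hy, hs⟩ := hx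
  refine ⟨y, fun m => ?_, hs⟩
  have := hy m
  rw [Module.End.maxGenEigenspace_eq_genEigenspace_finrank] at this
  rw [Module.End.mem_genEigenspace_nat] at this
  have h2 : Module.finrank ℂ (Fin n → ℂ) = n := by simp
  rw [h2] at this
  have h3 : (Matrix.toLin' T - m • (1 : Module.End ℂ (Fin n → ℂ))) = Matrix.toLin' (T - m • (1 : Mat n)) := by
    rw [map_sub, map_smul, Matrix.toLin'_one]; rfl
  rw [LinearMap.mem_ker, h3, ← Matrix.toLin'_pow, Matrix.toLin'_apply] at this
  exact this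

theorem aeval_X_sub_pow (T : Mat n) (m : ℂ) (k : ℕ) :
    aeval T ((X - C m) ^ k) = (T - m • (1 : Mat n)) ^ k := by
  rw [map_pow, map_sub, aeval_X, aeval_C, Algebra.algebraMap_eq_smul_one]

theorem aeval_mul_mulVec (T : Mat n) (p q : ℂ[X]) (x : Fin n → ℂ) :
    (aeval T (p * q)) *ᵥ x = (aeval T p) *ᵥ ((aeval T q) *ᵥ x) := by
  rw [map_mul, Matrix.mulVec_mulVec]

theorem kill_prod (T : Mat n) (s : Finset ℂ) (m : ℂ) (hm : m ∈ s) (v : Fin n → ℂ)
    (hv : ((T - m • (1 : Mat n)) ^ n) *ᵥ v = 0) :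
    (aeval T (∏ m ∈ s, (X - C m) ^ n)) *ᵥ v = 0 := by
  rw [← Finset.prod_erase_mul _ _ hm, aeval_mul_mulVec, aeval_X_sub_pow, hv, Matrix.mulVec_zero]

theorem mulVec_finsupp_sum (M : Mat n) (y : ℂ →₀ (Fin n → ℂ)) :
    M *ᵥ (y.sum fun _ v => v) = ∑ m ∈ y.support, M *ᵥ y m := by
  rw [Finsupp.sum]
  exact map_sum (Matrix.mulVecLin M) _ _

theorem eq_zero_of_coprime (T : Mat n) (p q : ℂ[X]) (h : IsCoprime p q) (v : Fin n → ℂ)
    (hp : (aeval T p) *ᵥ v = 0) (hq : (aeval T q) *ᵥ v = 0) : v = 0 := by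
  obtain ⟨a, b, hab⟩ := h
  have : (aeval T (a * p + b * q)) *ᵥ v = 0 := by
    rw [map_add, Matrix.add_mulVec, aeval_mul_mulVec, aeval_mul_mulVec, hp, hq]
    simp
  rw [hab, map_one, Matrix.one_mulVec] at this
  exact this

theorem eval_prod_ne (s : Finset ℂ) (l : ℂ) (hl : l ∉ s) (k : ℕ) :
    (∏ m ∈ s, (X - C m) ^ k : ℂ[X]).eval l ≠ 0 := by
  rw [Polynomial.eval_prod]
  refine Finset.prod_ne_zero_iff.mpr fun m hm => ?_
  simp only [eval_pow, eval_sub, eval_X, eval_C]
  refine pow_ne_zero _ (sub_ne_zero.mpr ?_)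
  rintro rfl
  exact hl hm

theorem decomp_eval (T : Mat n) (x : Fin n → ℂ) (y : ℂ →₀ (Fin n → ℂ))
    (hy : ∀ m, ((T - m • (1 : Mat n)) ^ n) *ᵥ y m = 0) (hs : (y.sum fun _ v => v) = x)
    (l : ℂ) (hl : y l ≠ 0) (p : ℂ[X]) (hp : (aeval T p) *ᵥ x = 0) : p.eval l = 0 := by
  classical
  by_contra hpl
  set q : ℂ[X] := ∏ m ∈ y.support.erase l, (X - C m) ^ n with hq
  have h1 : (aeval T (p * q)) *ᵥ x = 0 := by
    rw [mul_comm, aeval_mul_mulVec, hp, Matrix.mulVec_zero]
  have h2 : (aeval T (p * q)) *ᵥ y l = 0 := by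
    rw [← hs, mulVec_finsupp_sum, ← Finset.add_sum_erase _ _ (Finsupp.mem_support_iff.mpr hl)] at h1
    rw [Finset.sum_eq_zero, add_zero] at h1
    · exact h1
    · intro m hm
      rw [aeval_mul_mulVec, kill_prod T _ m hm _ (hy m), Matrix.mulVec_zero]
  have h3 : (p * q).eval l ≠ 0 := by
    rw [eval_mul]
    exact mul_ne_zero hpl (eval_prod_ne _ l (by simp) n)
  have h4 : IsCoprime ((X - C l) ^ n) (p * q) := by
    apply IsCoprime.pow_left
    rw [(Polynomial.irreducible_X_sub_C l).coprime_iff_not_dvd, Polynomial.dvd_iff_isRoot]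
    exact h3
  exact hl (eq_zero_of_coprime T _ _ h4 (y l) (by rw [aeval_X_sub_pow]; exact hy l) h2)

theorem decomp_ann (T : Mat n) (x : Fin n → ℂ) (y : ℂ →₀ (Fin n → ℂ))
    (hy : ∀ m, ((T - m • (1 : Mat n)) ^ n) *ᵥ y m = 0) (hs : (y.sum fun _ v => v) = x) :
    (aeval T (∏ m ∈ y.support, (X - C m) ^ n)) *ᵥ x = 0 := by
  rw [← hs, mulVec_finsupp_sum]
  exact Finset.sum_eq_zero fun m hm => kill_prod T _ m hm _ (hy m)

theorem mem_localSpectrum_iff (T : Mat n) (x : Fin n → ℂ) (l : ℂ) :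
    l ∈ localSpectrum T x ↔ ∀ p : ℂ[X], (aeval T p) *ᵥ x = 0 → p.eval l = 0 := by
  constructor
  · rintro ⟨y, hy, hs, hl⟩ p hp
    exact decomp_eval T x y hy hs l hl p hp
  · intro h
    obtain ⟨y, hy, hs⟩ := exists_decomp T x
    refine ⟨y, hy, hs, fun hl => ?_⟩
    exact eval_prod_ne y.support l (by simpa using hl) n (h _ (decomp_ann T x y hy hs))

theorem exists_ann (T : Mat n) (x : Fin n → ℂ) :
    ∃ s : Finset ℂ, (s : Set ℂ) = localSpectrum T x ∧
      (aeval T (∏ m ∈ s, (X - C m) ^ n)) *ᵥ x = 0 := by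
  obtain ⟨y, hy, hs⟩ := exists_decomp T x
  refine ⟨y.support, ?_, decomp_ann T x y hy hs⟩
  ext l
  constructor
  · intro hl
    exact ⟨y, hy, hs, by simpa using hl⟩
  · intro hl
    by_contra hc
    exact eval_prod_ne y.support l (by simpa using hc) n
      ((mem_localSpectrum_iff T x l).mp hl _ (decomp_ann T x y hy hs))

theorem exists_eigvec (T : Mat n) (x : Fin n → ℂ) (l : ℂ) (hl : l ∈ localSpectrum T x) :
    ∃ v : Fin n → ℂ, v ≠ 0 ∧ T *ᵥ v = l • v := by
  obtain ⟨y, hy, -, hne⟩ := hl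
  have h1 : ((T - l • (1 : Mat n)) ^ n).det = 0 :=
    Matrix.exists_mulVec_eq_zero_iff.1 ⟨y l, hne, hy l⟩
  rw [det_pow] at h1
  have h2 : (T - l • (1 : Mat n)).det = 0 := by
    by_contra hcon
    exact (pow_ne_zero n hcon) h1
  obtain ⟨v, hv, hTv⟩ := Matrix.exists_mulVec_eq_zero_iff.2 h2
  refine ⟨v, hv, ?_⟩
  rw [Matrix.sub_mulVec, Matrix.smul_mulVec, Matrix.one_mulVec, sub_eq_zero] at hTv
  exact hTv

theorem trace_pow_aux (T : Mat n) (s : Finset ℂ) (hs : s.card = n)
    (h : ∀ l ∈ s, ∃ v : Fin n → ℂ, v ≠ 0 ∧ T *ᵥ v = l • v) (k : ℕ) :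
    trace (T ^ k) = ∑ l ∈ s, l ^ k := by
  let e : s ≃ Fin n := Finset.equivFinOfCardEq hs
  have h' : ∀ i : Fin n, ∃ v : Fin n → ℂ, v ≠ 0 ∧ T *ᵥ v = ((e.symm i : s) : ℂ) • v :=
    fun i => h _ (e.symm i).2
  choose v hv hTv using h'
  have hli : LinearIndependent ℂ v := by
    apply Module.End.eigenvectors_linearIndependent' (Matrix.toLin' T)
      (fun i => ((e.symm i : s) : ℂ))
    · intro i j hij
      exact e.symm.injective (Subtype.ext hij)
    · intro i
      rw [Module.End.hasEigenvector_iff, Module.End.mem_eigenspace_iff]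
      exact ⟨by rw [Matrix.toLin'_apply]; exact hTv i, hv i⟩
  let P : Mat n := (Matrix.of v)ᵀ
  have hP : IsUnit P := by
    rw [← Matrix.linearIndependent_cols_iff_isUnit]
    exact hli
  have hsemi : SemiconjBy P (Matrix.diagonal fun i => ((e.symm i : s) : ℂ)) T := by
    unfold SemiconjBy
    ext i j
    rw [Matrix.mul_diagonal]
    have := congrFun (hTv j) i
    simp only [Matrix.mulVec, dotProduct, Pi.smul_apply, smul_eq_mul] at this
    rw [Matrix.mul_apply]
    simp only [P, Matrix.transpose_apply, Matrix.of_apply]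
    rw [this, mul_comm]
  have hpow := hsemi.pow_right k
  have hdet : IsUnit P.det := (Matrix.isUnit_iff_isUnit_det P).1 hP
  have h3 : T ^ k = P * (Matrix.diagonal fun i => ((e.symm i : s) : ℂ)) ^ k * P⁻¹ := by
    rw [hpow.eq, Matrix.mul_assoc, Matrix.mul_nonsing_inv P hdet, Matrix.mul_one]
  rw [h3, Matrix.trace_mul_comm, ← Matrix.mul_assoc, Matrix.nonsing_inv_mul P hdet,
    Matrix.one_mul, Matrix.diagonal_pow, Matrix.trace_diagonal]
  simp only [Pi.pow_apply]
  rw [Equiv.sum_comp e.symm (fun l : s => ((l : ℂ)) ^ k)]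
  exact Finset.sum_coe_sort s (fun l => l ^ k)

/-- TARGET -/
theorem trace_pow_eq (T T' : Mat n) (x x' : Fin n → ℂ)
    (h : localSpectrum T x = localSpectrum T' x') (hc : (localSpectrum T x).ncard = n) (k : ℕ) :
    trace (T ^ k) = trace (T' ^ k) := by
  obtain ⟨s, hs, -⟩ := exists_ann T x
  have hcard : s.card = n := by
    rw [← hc, ← hs, Set.ncard_coe_finset]
  rw [trace_pow_aux T s hcard (fun l hl => exists_eigvec T x l (by rw [← hs]; exact hl)) k,
    trace_pow_aux T' s hcard (fun l hl => exists_eigvec T' x' l (by rw [← h, ← hs]; exact hl)) k]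

/-- TARGET 1 -/
theorem ncard_of_dlt (C : Mat n) (x : Fin n → ℂ) (h : dlt x C ≠ 0) :
    (localSpectrum C x).ncard = n := by
  classical
  have hH := left_ne_zero_of_mul h
  have hK := right_ne_zero_of_mul h
  obtain ⟨s, hs, hann⟩ := exists_ann C x
  rw [← hs, Set.ncard_coe_finset]
  -- upper bound
  have hup : s.card ≤ n := by
    have hsub : s ⊆ C.charpoly.roots.toFinset := by
      intro m hm
      rw [Multiset.mem_toFinset, Polynomial.mem_roots (Matrix.charpoly_monic C).ne_zero]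
      have hm' : m ∈ localSpectrum C x := by rw [← hs]; exact hm
      exact (mem_localSpectrum_iff C x m).mp hm' C.charpoly
        (by rw [Matrix.aeval_self_charpoly, Matrix.zero_mulVec])
    calc s.card ≤ C.charpoly.roots.toFinset.card := Finset.card_le_card hsub
      _ ≤ Multiset.card C.charpoly.roots := Multiset.toFinset_card_le _
      _ ≤ C.charpoly.natDegree := Polynomial.card_roots' _
      _ = n := by rw [Matrix.charpoly_natDegree_eq_dim, Fintype.card_fin]
  refine le_antisymm hup ?_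
  by_contra hlt
  push Not at hlt
  set g : ℂ[X] := ∏ m ∈ s, (X - Polynomial.C m) with hg
  have hgn : ∏ m ∈ s, (X - Polynomial.C m) ^ n = g ^ n := by rw [hg, Finset.prod_pow]
  rw [hgn] at hann
  have hgmonic : g.Monic := monic_prod_of_monic _ _ (fun m _ => monic_X_sub_C m)
  have hgdeg : g.natDegree = s.card := by
    rw [hg, natDegree_prod_of_monic _ _ (fun m _ => monic_X_sub_C m)]
    simp
  -- g(C)^n = 0
  set K : Mat n := Matrix.of fun i j : Fin n => ((C ^ (j : ℕ)) *ᵥ x) i with hKdef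
  have hz : aeval C (g ^ n) * K = 0 := by
    ext i j
    have : (aeval C (g ^ n) * K) i j = ((aeval C (g ^ n)) *ᵥ ((C ^ (j : ℕ)) *ᵥ x)) i := by
      rw [Matrix.mul_apply, Matrix.mulVec, dotProduct]
      rfl
    rw [this, Matrix.mulVec_mulVec]
    have hcomm : aeval C (g ^ n) * C ^ (j : ℕ) = C ^ (j : ℕ) * aeval C (g ^ n) := by
      have e : C ^ (j : ℕ) = aeval C ((X : ℂ[X]) ^ (j : ℕ)) := by simp
      rw [e, ← map_mul, ← map_mul, mul_comm]
    rw [hcomm, ← Matrix.mulVec_mulVec, hann, Matrix.mulVec_zero]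
    rfl
  have hnil : aeval C (g ^ n) = 0 := by
    have hu : IsUnit K.det := isUnit_iff_ne_zero.mpr hK
    have := congrArg (fun M => M * K⁻¹) hz
    simp only [Matrix.zero_mul] at this
    rwa [Matrix.mul_assoc, Matrix.mul_nonsing_inv _ hu, Matrix.mul_one] at this
  rw [map_pow] at hnil
  have htr : ∀ i : ℕ, trace (C ^ i * aeval C g) = 0 := by
    intro i
    have hN : IsNilpotent (C ^ i * aeval C g) := by
      have hc : Commute (C ^ i) (aeval C g) := by
        have e : C ^ i = aeval C ((X : ℂ[X]) ^ i) := by simp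
        rw [e]
        unfold Commute SemiconjBy
        rw [← map_mul, ← map_mul, mul_comm]
      exact hc.isNilpotent_mul_left ⟨n, hnil⟩
    exact (Matrix.isNilpotent_trace_of_isNilpotent hN).eq_zero
  have hvec : (Matrix.of fun i j : Fin n => trace (C ^ ((i : ℕ) + (j : ℕ)))) *ᵥ
      (fun j : Fin n => g.coeff j) = 0 := by
    funext i
    rw [Matrix.mulVec, dotProduct]
    simp only [Matrix.of_apply, Pi.zero_apply]
    have e := htr i
    rw [aeval_eq_sum_range' (n := n) (by rw [hgdeg]; exact hlt), Finset.mul_sum, trace_sum,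
      Finset.sum_range] at e
    rw [← e]
    apply Finset.sum_congr rfl
    intro j _
    rw [mul_smul_comm, ← pow_add, trace_smul, smul_eq_mul, mul_comm]
  have hv0 := Matrix.eq_zero_of_mulVec_eq_zero hH hvec
  have := congrFun hv0 ⟨s.card, hlt⟩
  simp only [Pi.zero_apply] at this
  rw [← hgdeg, hgmonic.coeff_natDegree] at this
  exact one_ne_zero this

section Shift

open Fin.CommRing Fin.NatCast

/-- cyclic shift -/
noncomputable def shf (m : ℕ) : Mat (m + 2) := Matrix.of fun i j => if i = j + 1 then 1 else 0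

theorem shf_pow (m k : ℕ) : shf m ^ k = Matrix.of fun i j : Fin (m + 2) =>
    if i = j + (k : Fin (m + 2)) then (1 : ℂ) else 0 := by
  induction k with
  | zero =>
    ext i j
    simp [Matrix.one_apply]
  | succ k ih =>
    rw [pow_succ, ih]
    ext i j
    rw [Matrix.mul_apply]
    simp only [shf, Matrix.of_apply]
    rw [Finset.sum_eq_single (j + 1)]
    · simp only [if_true, mul_one]
      congr 1
      rw [Nat.cast_succ, add_assoc, add_comm (1 : Fin (m + 2))]
    · intro b _ hb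
      rw [if_neg hb, mul_zero]
    · intro hb; exact absurd (Finset.mem_univ _) hb

theorem exists_dlt_aux (m : ℕ) (x : Fin (m + 2) → ℂ) (hx : x ≠ 0) :
    ∃ T S : Mat (m + 2), dlt x (T * S - S * T) ≠ 0 := by
  classical
  obtain ⟨A, hA⟩ := SeparatingDual.exists_continuousLinearEquiv_apply_eq (R := ℂ)
    (V := Fin (m + 2) → ℂ) (x := Pi.single 0 1) (y := x)
    (fun h => by have := congrFun h 0; simp at this) hx
  set P : Mat (m + 2) := LinearMap.toMatrix' (A.toLinearEquiv : (Fin (m + 2) → ℂ) →ₗ[ℂ] _) with hP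
  set Q : Mat (m + 2) := LinearMap.toMatrix' (A.symm.toLinearEquiv : (Fin (m + 2) → ℂ) →ₗ[ℂ] _)
    with hQ
  have hPQ : P * Q = 1 := by
    rw [hP, hQ, ← LinearMap.toMatrix'_comp]
    have : ((A.toLinearEquiv : (Fin (m + 2) → ℂ) →ₗ[ℂ] _) ∘ₗ
        (A.symm.toLinearEquiv : (Fin (m + 2) → ℂ) →ₗ[ℂ] _)) = LinearMap.id := by
      ext v; simp
    rw [this, LinearMap.toMatrix'_id]
  have hQP : Q * P = 1 := mul_eq_one_comm.mp hPQ
  have hPe : P *ᵥ (Pi.single 0 1) = x := by
    rw [hP, LinearMap.toMatrix'_mulVec]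
    exact hA
  have hQx : Q *ᵥ x = Pi.single 0 1 := by
    rw [← hPe, Matrix.mulVec_mulVec, hQP, Matrix.one_mulVec]
  set Z := shf m with hZ
  set D : Mat (m + 2) := Matrix.diagonal fun i => ((i : ℕ) : ℂ) with hD
  set S : Mat (m + 2) := Matrix.of fun i j => Z i j / (((i : ℕ) : ℂ) - ((j : ℕ) : ℂ)) with hS
  have hZd : ∀ i, Z i i = 0 := by
    intro i
    rw [hZ]
    simp only [shf, Matrix.of_apply]
    rw [if_neg]
    intro h
    have : (1 : Fin (m + 2)) = 0 := by
      have h2 : i + 0 = i + 1 := by rw [add_zero]; exact h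
      exact (add_left_cancel h2).symm
    exact one_ne_zero this
  have hDS : D * S - S * D = Z := by
    ext i j
    rw [Matrix.sub_apply, hD, Matrix.diagonal_mul, Matrix.mul_diagonal]
    simp only [hS, Matrix.of_apply]
    by_cases hij : i = j
    · subst hij
      rw [hZd]; simp
    · have h0 : ((i : ℕ) : ℂ) - ((j : ℕ) : ℂ) ≠ 0 := by
        rw [sub_ne_zero]
        intro h
        exact hij (Fin.ext (by exact_mod_cast h))
      field_simp
  refine ⟨P * D * Q, P * S * Q, ?_⟩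
  have hC : P * D * Q * (P * S * Q) - P * S * Q * (P * D * Q) = P * Z * Q := by
    have e1 : P * D * Q * (P * S * Q) = P * (D * (Q * P) * S) * Q := by
      simp only [Matrix.mul_assoc]
    have e2 : P * S * Q * (P * D * Q) = P * (S * (Q * P) * D) * Q := by
      simp only [Matrix.mul_assoc]
    rw [e1, e2, hQP, Matrix.mul_one, Matrix.mul_one, ← Matrix.sub_mul, ← Matrix.mul_sub, hDS]
  rw [hC]
  have hpow : ∀ k : ℕ, (P * Z * Q) ^ k = P * Z ^ k * Q := by
    intro k
    induction k with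
    | zero => rw [pow_zero, pow_zero, Matrix.mul_one, hPQ]
    | succ k ih =>
      rw [pow_succ, ih, pow_succ]
      have : P * Z ^ k * Q * (P * Z * Q) = P * Z ^ k * (Q * P) * Z * Q := by
        simp only [Matrix.mul_assoc]
      rw [this, hQP, Matrix.mul_one]
      simp only [Matrix.mul_assoc]
  unfold dlt
  apply mul_ne_zero
  · -- Hankel determinant
    set H : Mat (m + 2) := Matrix.of fun i j : Fin (m + 2) =>
      trace ((P * Z * Q) ^ ((i : ℕ) + (j : ℕ))) with hH
    have hHij : ∀ i j, H i j = if i + j = 0 then ((m + 2 : ℕ) : ℂ) else 0 := by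
      intro i j
      rw [hH]
      simp only [Matrix.of_apply]
      rw [hpow, Matrix.trace_mul_comm, ← Matrix.mul_assoc, hQP, Matrix.one_mul, hZ, shf_pow,
        Matrix.trace]
      simp only [Matrix.diag_apply, Matrix.of_apply]
      have : ∀ l : Fin (m + 2), (l = l + (((i : ℕ) + (j : ℕ) : ℕ) : Fin (m + 2))) ↔ i + j = 0 := by
        intro l
        have e : (((i : ℕ) + (j : ℕ) : ℕ) : Fin (m + 2)) = i + j := by
          rw [Nat.cast_add, Fin.cast_val_eq_self, Fin.cast_val_eq_self]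
        rw [e]
        constructor
        · intro h
          have h2 : l + 0 = l + (i + j) := by rw [add_zero]; exact h
          exact (add_left_cancel h2).symm
        · intro h; rw [h, add_zero]
      simp only [this]
      split_ifs with hh
      · simp
      · simp
    have hHH : H * H = ((m + 2 : ℕ) : ℂ) ^ 2 • (1 : Mat (m + 2)) := by
      ext i k
      rw [Matrix.mul_apply, Finset.sum_eq_single (-i)]
      · rw [hHij, hHij, if_pos (add_neg_cancel i), Matrix.smul_apply, Matrix.one_apply,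
          smul_eq_mul]
        by_cases hik : i = k
        · subst hik
          rw [if_pos (neg_add_cancel i), if_pos rfl]; ring
        · rw [if_neg, if_neg hik, mul_zero, mul_zero]
          intro h
          exact hik (neg_add_eq_zero.mp h)
      · intro b _ hb
        rw [hHij, if_neg, zero_mul]
        intro h
        exact hb (neg_eq_of_add_eq_zero_right h).symm
      · intro hb; exact absurd (Finset.mem_univ _) hb
    intro h0
    have := congrArg Matrix.det hHH
    rw [Matrix.det_mul, h0, mul_zero, Matrix.det_smul, Matrix.det_one, mul_one] at this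
    have hne : ((m + 2 : ℕ) : ℂ) ≠ 0 := by exact_mod_cast (Nat.succ_ne_zero (m + 1))
    exact pow_ne_zero _ (pow_ne_zero _ hne) this.symm
  · -- Krylov determinant
    have : (Matrix.of fun i j : Fin (m + 2) => (((P * Z * Q) ^ (j : ℕ)) *ᵥ x) i) = P := by
      ext i j
      simp only [Matrix.of_apply]
      rw [hpow, ← Matrix.mulVec_mulVec, hQx, ← Matrix.mulVec_mulVec, hZ, shf_pow]
      have e : (Matrix.of fun i j' : Fin (m + 2) =>
          if i = j' + (((j : ℕ) : Fin (m + 2))) then (1 : ℂ) else 0) *ᵥ (Pi.single 0 1)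
          = Pi.single j 1 := by
        funext l
        rw [Matrix.mulVec_single_one]
        simp only [Matrix.col_apply, Matrix.of_apply, zero_add, Fin.cast_val_eq_self,
          Pi.single_apply]
      rw [e, Matrix.mulVec_single_one]
      rfl
    rw [this]
    intro h0
    have := congrArg Matrix.det hPQ
    rw [Matrix.det_mul, h0, zero_mul, Matrix.det_one] at this
    exact zero_ne_one this

end Shift

/-- TARGET 2 -/
theorem exists_dlt (x : Fin n → ℂ) (hx : x ≠ 0) :
    ∃ T S : Mat n, dlt x (T * S - S * T) ≠ 0 := by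
  match n, x, hx with
  | 0, x, hx => exact absurd (Subsingleton.elim x 0) hx
  | 1, x, hx =>
    refine ⟨0, 0, ?_⟩
    have hx0 : x 0 ≠ 0 := by
      intro h
      apply hx
      funext i
      rw [Subsingleton.elim i 0, h]; rfl
    unfold dlt
    rw [Matrix.det_fin_one, Matrix.det_fin_one]
    simpa using hx0
  | m + 2, x, hx => exact exists_dlt_aux m x hx

theorem cl_single_mul (M : Mat n) (i j a b : Fin n) :
    (Matrix.single i j (1 : ℂ) * M) a b = if a = i then M j b else 0 := by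
  by_cases h : a = i
  · subst h
    simp
  · rw [if_neg h]
    rw [Matrix.single_mul_apply_of_ne]
    exact h

theorem cl_mul_single (M : Mat n) (i j a b : Fin n) :
    (M * Matrix.single i j (1 : ℂ)) a b = if b = j then M a i else 0 := by
  by_cases h : b = j
  · subst h
    simp
  · rw [if_neg h]
    rw [Matrix.mul_single_apply_of_ne]
    exact h

theorem cl_H (F : Mat n →ₗ[ℂ] Mat n) (h : ∀ Y, Y * F Y = F Y * Y) (i j k l a b : Fin n) :
    (if a = i then F (Matrix.single k l 1) j b else 0) -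
      (if b = j then F (Matrix.single k l 1) a i else 0) +
      (if a = k then F (Matrix.single i j 1) l b else 0) -
      (if b = l then F (Matrix.single i j 1) a k else 0) = 0 := by
  have h1 := h (Matrix.single i j 1 + Matrix.single k l 1)
  have h2 := h (Matrix.single i j 1)
  have h3 := h (Matrix.single k l 1)
  rw [map_add] at h1
  have h4 : Matrix.single i j 1 * F (Matrix.single k l 1) - F (Matrix.single k l 1) * Matrix.single i j 1
      + Matrix.single k l 1 * F (Matrix.single i j 1) - F (Matrix.single i j 1) * Matrix.single k l 1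
      = (0 : Mat n) := by
    have h5 : (Matrix.single i j 1 + Matrix.single k l 1) *
        (F (Matrix.single i j 1) + F (Matrix.single k l 1)) -
        (F (Matrix.single i j 1) + F (Matrix.single k l 1)) *
        (Matrix.single i j 1 + Matrix.single k l 1) = (0 : Mat n) := sub_eq_zero.2 h1
    rw [add_mul, mul_add, mul_add, add_mul, mul_add, mul_add, h2, h3] at h5
    rw [← h5]
    abel
  have h6 := congrFun (congrFun h4 a) b
  simp only [Matrix.sub_apply, Matrix.add_apply, cl_single_mul, cl_mul_single,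
    Matrix.zero_apply] at h6
  exact h6

/-- entries version -/
theorem cl_entries (x : Fin n → Fin n → Fin n → Fin n → ℂ)
    (H : ∀ i j k l a b, (if a = i then x k l j b else 0) - (if b = j then x k l a i else 0) +
      (if a = k then x i j l b else 0) - (if b = l then x i j a k else 0) = 0) :
    ∃ c : ℂ, ∀ k l, ∃ s : ℂ, ∀ a b, x k l a b = c * (if a = k ∧ b = l then 1 else 0) +
      s * (if a = b then 1 else 0) := by
  -- diagonal
  have F0 : ∀ k b, b ≠ k → x k k k b = 0 := by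
    intro k b hb
    have := H k k k k k b
    simp only [if_true, if_neg hb, sub_zero] at this
    linear_combination this / 2
  have F1 : ∀ k a b, a ≠ b → x k k a b = 0 := by
    intro k a b hab
    have h1 := H a a k k a b
    simp only [if_true, if_neg (Ne.symm hab), sub_zero] at h1
    by_cases hak : a = k
    · subst hak; exact F0 a b (Ne.symm hab)
    · rw [if_neg hak, add_zero] at h1
      by_cases hbk : b = k
      · subst hbk
        rw [if_pos rfl, F0 a b (Ne.symm hab), sub_zero] at h1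
        exact h1
      · rw [if_neg hbk, sub_zero] at h1
        exact h1
  have F2 : ∀ k i j, i ≠ k → j ≠ k → x k k i i = x k k j j := by
    intro k i j hi hj
    by_cases hij : i = j
    · rw [hij]
    have h1 := H i j k k i j
    simp only [if_true, if_neg hi, if_neg hj] at h1
    linear_combination -h1
  have F3 : ∀ i j a b, i ≠ j → a ≠ b → ¬ (a = i ∧ b = j) → x i j a b = 0 := by
    intro i j a b hij hab hn
    have h1 := H a a i j a b
    simp only [if_true, if_neg (Ne.symm hab), sub_zero] at h1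
    by_cases hai : a = i
    · subst hai
      have hbj : b ≠ j := fun h => hn ⟨rfl, h⟩
      rw [if_pos rfl, if_neg hbj, F1 a j b (Ne.symm hbj)] at h1
      linear_combination h1
    · rw [if_neg hai] at h1
      by_cases hbj : b = j
      · subst hbj
        rw [if_pos rfl, F1 a a i hai] at h1
        linear_combination h1
      · rw [if_neg hbj] at h1
        linear_combination h1
  have F3a : ∀ i j, i ≠ j → x i j i j = x i i i i - x i i j j := by
    intro i j hij
    have h1 := H i i i j i j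
    simp only [if_true, if_neg (Ne.symm hij)] at h1
    linear_combination h1
  have F3b : ∀ i j, i ≠ j → x i j i j = x j j j j - x j j i i := by
    intro i j hij
    have h1 := H j j i j i j
    simp only [if_true, if_neg hij] at h1
    linear_combination -h1
  have F4' : ∀ k l i j, k ≠ l → i ≠ j → ¬ (i = k ∧ j = l) → x k l j j = x k l i i := by
    intro k l i j hkl hij hn
    have h1 := H i j k l i j
    simp only [if_true] at h1
    have e1 : (if i = k then x i j l j else 0) = 0 := by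
      split_ifs with h
      · subst h
        refine F3 i j l j hij (fun h2 => hn ⟨rfl, h2.symm⟩) (fun h2 => hkl h2.1.symm)
      · rfl
    have e2 : (if j = l then x i j i k else 0) = 0 := by
      split_ifs with h
      · subst h
        exact F3 i j i k hij (fun h2 => hn ⟨h2, rfl⟩) (fun h2 => hkl h2.2)
      · rfl
    rw [e1, e2] at h1
    linear_combination h1
  have F4 : ∀ k l i j, k ≠ l → x k l j j = x k l i i := by
    intro k l i j hkl
    by_cases hij : i = j
    · rw [hij]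
    by_cases hn : i = k ∧ j = l
    · refine (F4' k l j i hkl (Ne.symm hij) ?_).symm
      rintro ⟨h1, h2⟩
      exact hij (hn.1.trans h1.symm)
    · exact F4' k l i j hkl hij hn
  by_cases hn : ∃ i0 i1 : Fin n, i0 ≠ i1
  · obtain ⟨i0, i1, h01⟩ := hn
    set c := x i0 i0 i0 i0 - x i0 i0 i1 i1 with hc
    have G : ∀ i j, i ≠ j → x i i i i - x i i j j = c := by
      intro i j hij
      by_cases hi : i = i0
      · subst hi
        rw [F2 i j i1 (Ne.symm hij) (Ne.symm h01)]
      · rw [F2 i j i0 (Ne.symm hij) (fun h => hi h.symm), ← F3a i i0 hi, F3b i i0 hi, hc,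
          F2 i0 i i1 hi (Ne.symm h01)]
    refine ⟨c, fun k l => ?_⟩
    by_cases hkl : k = l
    · subst hkl
      obtain ⟨j, hj⟩ : ∃ j, j ≠ k := by
        by_cases h : i0 = k
        · exact ⟨i1, fun h2 => h01 (h.trans h2.symm)⟩
        · exact ⟨i0, h⟩
      refine ⟨x k k j j, fun a b => ?_⟩
      by_cases hab : a = b
      · subst hab
        by_cases hak : a = k
        · subst hak
          simp only [and_self, if_true]
          linear_combination G a j (Ne.symm hj)
        · simp only [hak, false_and, if_false, if_true]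
          rw [F2 k a j hak hj]; ring
      · have : ¬ (a = k ∧ b = k) := fun h => hab (h.1.trans h.2.symm)
        rw [if_neg this, if_neg hab, F1 k a b hab]; ring
    · refine ⟨x k l k k, fun a b => ?_⟩
      by_cases hab : a = b
      · subst hab
        have : ¬ (a = k ∧ a = l) := fun h => hkl (h.1.symm.trans h.2)
        rw [if_neg this, if_pos rfl, F4 k l k a hkl]; ring
      · rw [if_neg hab]
        by_cases h : a = k ∧ b = l
        · rw [if_pos h, h.1, h.2, F3a k l hkl, G k l hkl]; ring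
        · rw [if_neg h, F3 k l a b hkl hab h]; ring
  · push Not at hn
    refine ⟨0, fun k l => ⟨x k l k k, fun a b => ?_⟩⟩
    rw [if_pos (hn a b), hn a k, hn b k]; ring

/-- TARGET 1 -/
theorem commuting_linear (F : Mat n →ₗ[ℂ] Mat n) (h : ∀ Y, Y * F Y = F Y * Y) :
    ∃ c : ℂ, ∀ Y, ∃ s : ℂ, F Y = c • Y + s • (1 : Mat n) := by
  obtain ⟨c, hc⟩ := cl_entries (fun k l a b => F (Matrix.single k l 1) a b) (cl_H F h)
  choose s hs using hc
  refine ⟨c, fun Y => ⟨∑ k, ∑ l, Y k l * s k l, ?_⟩⟩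
  have h1 : ∀ k l, F (Matrix.single k l 1) = c • Matrix.single k l 1 + s k l • (1 : Mat n) := by
    intro k l
    ext a b
    have : F (Matrix.single k l 1) a b = c * (if a = k ∧ b = l then 1 else 0) +
      s k l * (if a = b then 1 else 0) := hs k l a b
    rw [this, Matrix.add_apply, Matrix.smul_apply, Matrix.smul_apply, smul_eq_mul, smul_eq_mul,
      Matrix.one_apply, Matrix.single_apply]
    congr 2
    by_cases h2 : a = k ∧ b = l
    · rw [if_pos h2, if_pos ⟨h2.1.symm, h2.2.symm⟩]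
    · rw [if_neg h2, if_neg (fun h3 => h2 ⟨h3.1.symm, h3.2.symm⟩)]
  have h2 : Y = ∑ k, ∑ l, Y k l • Matrix.single k l (1 : ℂ) := by
    conv_lhs => rw [Matrix.matrix_eq_sum_single Y]
    refine Finset.sum_congr rfl fun k _ => Finset.sum_congr rfl fun l _ => ?_
    rw [Matrix.smul_single, smul_eq_mul, mul_one]
  conv_lhs => rw [h2]
  simp only [map_sum, map_smul, h1, smul_add, Finset.sum_add_distrib]
  congr 1
  · conv_rhs => rw [h2]
    rw [Finset.smul_sum]
    refine Finset.sum_congr rfl fun k _ => ?_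
    rw [Finset.smul_sum]
    refine Finset.sum_congr rfl fun l _ => ?_
    rw [smul_comm]
  · rw [Finset.sum_smul]
    refine Finset.sum_congr rfl fun k _ => ?_
    rw [Finset.sum_smul]
    refine Finset.sum_congr rfl fun l _ => ?_
    rw [smul_smul]

/-- curvature tensors are determined by sectional curvatures -/
theorem curv_abstract {M : Type} [AddCommGroup M] (Z : M → M → M → M → ℂ)
    (hadd : ∀ a a' b c d, Z (a + a') b c d = Z a b c d + Z a' b c d)
    (hanti : ∀ a b c d, Z a b c d = - Z b a c d)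
    (hsym : ∀ a b c d, Z a b c d = Z c d a b)
    (hb : ∀ a b c d, Z a b c d + Z b c a d + Z c a b d = 0)
    (hz : ∀ a b, Z a b a b = 0) (a b c d : M) : Z a b c d = 0 := by
  have hadd2 : ∀ a b b' c d, Z a (b + b') c d = Z a b c d + Z a b' c d := by
    intro a b b' c d
    rw [hanti, hadd, hanti a b, hanti a b']; ring
  have hadd3 : ∀ a b c c' d, Z a b (c + c') d = Z a b c d + Z a b c' d := by
    intro a b c c' d
    rw [hsym, hadd, hsym c, hsym c']
  have hadd4 : ∀ a b c d d', Z a b c (d + d') = Z a b c d + Z a b c d' := by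
    intro a b c d d'
    rw [hsym, hadd2, hsym c d, hsym c d']
  have h1 : ∀ a b d, Z a b a d = 0 := by
    intro a b d
    have h := hz a (b + d)
    rw [hadd2, hadd4, hadd4, hz, hz, hsym a d a b] at h
    linear_combination h / 2
  have h2 : ∀ a b c d, Z a b c d = Z b c a d := by
    intro a b c d
    have h := h1 (a + c) b d
    rw [hadd, hadd3, hadd3, h1, h1, hanti c b a d] at h
    linear_combination h
  have h3 := hb a b c d
  have h4 := h2 a b c d
  have h5 := h2 b c a d
  linear_combination (h3 + 2 * h4 + h5) / 3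

theorem curv_bianchi (a b c d : Mat n) :
    trace ((a * b - b * a) * (c * d - d * c)) + trace ((b * c - c * b) * (a * d - d * a)) +
      trace ((c * a - a * c) * (b * d - d * b)) = 0 := by
  have key : ∀ m c : Mat n, trace (m * (c * d - d * c)) = trace ((m * c - c * m) * d) := by
    intro m c
    rw [mul_sub, trace_sub, sub_mul, trace_sub, ← mul_assoc, ← mul_assoc, trace_mul_comm (m * d) c,
      ← mul_assoc]
  rw [key, key, key, ← trace_add, ← trace_add]
  have : (a * b - b * a) * c - c * (a * b - b * a) + ((b * c - c * b) * a - a * (b * c - c * b)) +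
      ((c * a - a * c) * b - b * (c * a - a * c)) = 0 := by noncomm_ring
  rw [← add_mul, ← add_mul, this, zero_mul, trace_zero]

/-- TARGET 2 -/
theorem curv (L : Mat n →ₗ[ℂ] Mat n)
    (h : ∀ T S, trace ((L T * L S - L S * L T) ^ 2) = trace ((T * S - S * T) ^ 2))
    (a b c d : Mat n) :
    trace ((L a * L b - L b * L a) * (L c * L d - L d * L c)) =
      trace ((a * b - b * a) * (c * d - d * c)) := by
  rw [← sub_eq_zero]
  refine curv_abstract (fun a b c d : Mat n =>
    trace ((L a * L b - L b * L a) * (L c * L d - L d * L c)) -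
      trace ((a * b - b * a) * (c * d - d * c))) ?_ ?_ ?_ ?_ ?_ a b c d
  · intro a a' b c d
    simp only [map_add]
    have e1 : ∀ u v w : Mat n, (u + v) * w - w * (u + v) = (u * w - w * u) + (v * w - w * v) := by
      intro u v w; noncomm_ring
    rw [e1, e1, add_mul, add_mul, trace_add, trace_add]
    ring
  · intro a b c d
    have e1 : ∀ u v : Mat n, u * v - v * u = - (v * u - u * v) := by
      intro u v; noncomm_ring
    rw [e1 (L a) (L b), e1 a b, neg_mul, neg_mul, trace_neg, trace_neg]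
    ring
  · intro a b c d
    rw [trace_mul_comm, trace_mul_comm (a * b - b * a)]
  · intro a b c d
    have h1 := curv_bianchi a b c d
    have h2 := curv_bianchi (L a) (L b) (L c) (L d)
    linear_combination h2 - h1
  · intro a b
    have := h a b
    rw [← pow_two, ← pow_two, this, sub_self]

theorem stepE1_polar (A B C : Mat n) :
    trace ((A + B + C) ^ 3) - trace ((A + B) ^ 3) - trace ((A + C) ^ 3) - trace ((B + C) ^ 3) +
      trace (A ^ 3) + trace (B ^ 3) + trace (C ^ 3) =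
      3 * (trace (A * B * C) + trace (A * C * B)) := by
  have key : (A + B + C) ^ 3 - (A + B) ^ 3 - (A + C) ^ 3 - (B + C) ^ 3 + A ^ 3 + B ^ 3 + C ^ 3 =
      A * B * C + A * C * B + B * A * C + B * C * A + C * A * B + C * B * A := by
    noncomm_ring
  have h := congrArg trace key
  simp only [trace_add, trace_sub] at h
  rw [h]
  have h1 : trace (A * B * C) = trace (C * A * B) := trace_mul_cycle A B C
  have h2 : trace (C * A * B) = trace (B * C * A) := trace_mul_cycle C A B
  have h3 : trace (A * C * B) = trace (B * A * C) := trace_mul_cycle A C B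
  have h4 : trace (B * A * C) = trace (C * B * A) := trace_mul_cycle B A C
  rw [← h4, ← h3, ← h2, ← h1]
  ring

/-- a zero-diagonal matrix is a commutator -/
theorem stepE1_comm (C : Mat n) (h : ∀ i, C i i = 0) :
    ∃ D S : Mat n, C = D * S - S * D := by
  refine ⟨Matrix.diagonal (fun i : Fin n => ((i : ℕ) : ℂ)),
    Matrix.of (fun i j => if i = j then 0 else C i j / (((i : ℕ) : ℂ) - ((j : ℕ) : ℂ))), ?_⟩
  ext i j
  rw [Matrix.sub_apply, Matrix.diagonal_mul, Matrix.mul_diagonal, Matrix.of_apply]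
  by_cases hij : i = j
  · subst hij
    simp [h]
  · rw [if_neg hij]
    have hne : ((i : ℕ) : ℂ) - ((j : ℕ) : ℂ) ≠ 0 := by
      rw [sub_ne_zero]
      intro h'
      exact hij (Fin.ext (Nat.cast_injective h'))
    field_simp

/-- the Krylov matrix -/
noncomputable def stepE1_K (hn : 2 ≤ n) (X : Mat n) : Mat n :=
  Matrix.of (fun i j => (X ^ (j : ℕ)) i ⟨0, by omega⟩)

theorem stepE1_isComm (hn : 2 ≤ n) (X : Mat n) (h0 : trace X = 0)
    (hK : (stepE1_K hn X).det ≠ 0) : ∃ T S : Mat n, X = T * S - S * T := by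
  set R := stepE1_K hn X with hR
  have hu : IsUnit R.det := isUnit_iff_ne_zero.2 hK
  set C := R⁻¹ * X * R with hC
  have hRR : R * R⁻¹ = 1 := Matrix.mul_nonsing_inv R hu
  have hRR' : R⁻¹ * R = 1 := Matrix.nonsing_inv_mul R hu
  have hcol : ∀ j : Fin n, (hj : (j : ℕ) + 1 < n) → ∀ i, (X * R) i j = R i ⟨(j : ℕ) + 1, hj⟩ := by
    intro j hj i
    rw [Matrix.mul_apply]
    simp only [hR, stepE1_K, Matrix.of_apply]
    rw [pow_succ', Matrix.mul_apply]
  have hdiag : ∀ j : Fin n, (j : ℕ) + 1 < n → C j j = 0 := by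
    intro j hj
    rw [hC, Matrix.mul_assoc, Matrix.mul_apply]
    simp only [hcol j hj]
    rw [← Matrix.mul_apply, hRR', Matrix.one_apply_ne]
    intro h
    have := congrArg Fin.val h
    simp at this
  have htr : trace C = 0 := by
    rw [hC, Matrix.trace_mul_cycle, hRR, one_mul, h0]
  have hdiag' : ∀ j : Fin n, C j j = 0 := by
    intro j
    by_cases hj : (j : ℕ) + 1 < n
    · exact hdiag j hj
    · have hs : trace C = C j j := by
        unfold Matrix.trace
        apply Finset.sum_eq_single j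
        · intro b _ hb
          apply hdiag b
          have := j.2
          have := b.2
          have : (b : ℕ) ≠ (j : ℕ) := fun h => hb (Fin.ext h)
          omega
        · intro h
          exact absurd (Finset.mem_univ j) h
      rw [← hs, htr]
  obtain ⟨D, S, hDS⟩ := stepE1_comm C hdiag'
  refine ⟨R * D * R⁻¹, R * S * R⁻¹, ?_⟩
  have hX : X = R * C * R⁻¹ := by
    rw [hC]
    calc X = (R * R⁻¹) * X * (R * R⁻¹) := by rw [hRR]; simp
      _ = R * (R⁻¹ * X * R) * R⁻¹ := by simp only [Matrix.mul_assoc]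
  rw [hX, hDS]
  have e1 : R * D * R⁻¹ * (R * S * R⁻¹) = R * (D * S) * R⁻¹ := by
    calc R * D * R⁻¹ * (R * S * R⁻¹) = R * D * (R⁻¹ * R) * S * R⁻¹ := by
          simp only [Matrix.mul_assoc]
      _ = R * (D * S) * R⁻¹ := by rw [hRR']; simp only [Matrix.mul_assoc, Matrix.mul_one]
  have e2 : R * S * R⁻¹ * (R * D * R⁻¹) = R * (S * D) * R⁻¹ := by
    calc R * S * R⁻¹ * (R * D * R⁻¹) = R * S * (R⁻¹ * R) * D * R⁻¹ := by
          simp only [Matrix.mul_assoc]
      _ = R * (S * D) * R⁻¹ := by rw [hRR']; simp only [Matrix.mul_assoc, Matrix.mul_one]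
  rw [e1, e2, Matrix.mul_sub, Matrix.sub_mul]

/-- shift matrix -/
noncomputable def stepE1_shift (n : ℕ) : Mat n :=
  Matrix.of (fun i j => if (i : ℕ) = (j : ℕ) + 1 then (1 : ℂ) else 0)

theorem stepE1_shift_pow (hn : 2 ≤ n) (k : ℕ) (hk : k < n) (i : Fin n) :
    ((stepE1_shift n) ^ k) i ⟨0, by omega⟩ = if (i : ℕ) = k then 1 else 0 := by
  induction k generalizing i with
  | zero =>
    rw [pow_zero, Matrix.one_apply]
    simp [Fin.ext_iff]
  | succ k ih =>
    rw [pow_succ', Matrix.mul_apply]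
    rw [Finset.sum_congr rfl (fun l _ => by rw [ih (by omega) l])]
    rw [Finset.sum_eq_single (⟨k, by omega⟩ : Fin n)]
    · simp [stepE1_shift]
    · intro b _ hb
      have : (b : ℕ) ≠ k := fun h => hb (Fin.ext h)
      simp [this]
    · intro h
      exact absurd (Finset.mem_univ _) h

theorem stepE1_shift_K (hn : 2 ≤ n) : stepE1_K hn (stepE1_shift n) = 1 := by
  ext i j
  rw [stepE1_K, Matrix.of_apply, stepE1_shift_pow hn j j.2 i, Matrix.one_apply]
  simp [Fin.ext_iff]

theorem stepE1_shift_trace (n : ℕ) : trace (stepE1_shift n) = 0 := by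
  unfold Matrix.trace
  apply Finset.sum_eq_zero
  intro i _
  simp [stepE1_shift]

/-- projection onto the traceless matrices -/
noncomputable def stepE1_N (n : ℕ) : Mat n →ₗ[ℂ] Mat n :=
  LinearMap.id - (LinearMap.toSpanSingleton ℂ (Mat n) ((1 / (n : ℂ)) • (1 : Mat n))).comp
    (Matrix.traceLinearMap (Fin n) ℂ ℂ)

theorem stepE1_N_apply (X : Mat n) :
    stepE1_N n X = X - (trace X) • ((1 / (n : ℂ)) • (1 : Mat n)) := by
  simp [stepE1_N]

theorem stepE1_N_of_trace (X : Mat n) (h : trace X = 0) : stepE1_N n X = X := by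
  rw [stepE1_N_apply, h, zero_smul, sub_zero]

theorem stepE1_trace_N (hn : 2 ≤ n) (X : Mat n) : trace (stepE1_N n X) = 0 := by
  have h0 : (n : ℂ) ≠ 0 := by
    have : n ≠ 0 := by omega
    exact_mod_cast this
  rw [stepE1_N_apply, trace_sub, trace_smul, trace_smul, trace_one, Fintype.card_fin]
  simp only [smul_eq_mul]
  field_simp
  ring

/-- TARGET -/
theorem stepE1 (hn : 2 ≤ n) (M : Mat n →ₗ[ℂ] Mat n) (hM1 : M 1 = 0)
    (h3 : ∀ T S : Mat n, (trace ((M (T * S - S * T)) ^ 3)) ^ 2 = (trace ((T * S - S * T) ^ 3)) ^ 2) :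
    ∃ ε : ℂ, (ε = 1 ∨ ε = -1) ∧ ∀ X Y Z : Mat n, trace X = 0 → trace Y = 0 → trace Z = 0 →
      trace (M X * M Y * M Z) + trace (M X * M Z * M Y) =
        ε * (trace (X * Y * Z) + trace (X * Z * Y)) := by
  have hP : PL (fun X : Mat n => trace ((M (stepE1_N n X)) ^ 3)) :=
    ((PLM.lin (M ∘ₗ stepE1_N n)).pow 3).trace
  have hQ : PL (fun X : Mat n => trace ((stepE1_N n X) ^ 3)) :=
    ((PLM.lin (stepE1_N n)).pow 3).trace
  have hKr : PL (fun X : Mat n => (stepE1_K hn (stepE1_N n X)).det) := by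
    apply PLM.det
    intro i j
    exact ((PLM.lin (stepE1_N n)).pow (j : ℕ)) i ⟨0, by omega⟩
  have hsq : ∀ X : Mat n, (trace ((M (stepE1_N n X)) ^ 3)) ^ 2 - (trace ((stepE1_N n X) ^ 3)) ^ 2
      = 0 := by
    intro X
    refine PL.eq_zero ((hP.pow 2).sub (hQ.pow 2)) hKr ⟨stepE1_shift n, ?_⟩ ?_ X
    · rw [stepE1_N_of_trace _ (stepE1_shift_trace n), stepE1_shift_K, Matrix.det_one]
      exact one_ne_zero
    · intro Y hY
      obtain ⟨T, S, hTS⟩ := stepE1_isComm hn _ (stepE1_trace_N hn Y) hY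
      rw [hTS, h3 T S, sub_self]
  have hpm : (∀ X : Mat n, trace ((M (stepE1_N n X)) ^ 3) - trace ((stepE1_N n X) ^ 3) = 0) ∨
      (∀ X : Mat n, trace ((M (stepE1_N n X)) ^ 3) + trace ((stepE1_N n X) ^ 3) = 0) := by
    by_contra hcon
    push Not at hcon
    obtain ⟨⟨p, hp⟩, ⟨q, hq⟩⟩ := hcon
    obtain ⟨x, hx1, hx2⟩ := PL.two (hP.sub hQ) (hP.add hQ) ⟨p, hp⟩ ⟨q, hq⟩
    have := hsq x
    apply mul_ne_zero hx1 hx2
    rw [← this]
    ring
  have hfin : ∀ ε : ℂ, (∀ X : Mat n, trace X = 0 → trace ((M X) ^ 3) = ε * trace (X ^ 3)) →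
      ∀ X Y Z : Mat n, trace X = 0 → trace Y = 0 → trace Z = 0 →
      trace (M X * M Y * M Z) + trace (M X * M Z * M Y) =
        ε * (trace (X * Y * Z) + trace (X * Z * Y)) := by
    intro ε h X Y Z hX hY hZ
    have p1 := stepE1_polar (M X) (M Y) (M Z)
    have p2 := stepE1_polar X Y Z
    simp only [← map_add] at p1
    rw [h (X + Y + Z) (by simp [hX, hY, hZ]), h (X + Y) (by simp [hX, hY]),
      h (X + Z) (by simp [hX, hZ]), h (Y + Z) (by simp [hY, hZ]), h X hX, h Y hY, h Z hZ] at p1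
    have h3' : (3 : ℂ) ≠ 0 := by norm_num
    apply mul_left_cancel₀ h3'
    rw [← p1, mul_left_comm, ← p2]
    ring
  rcases hpm with h | h
  · refine ⟨1, Or.inl rfl, hfin 1 ?_⟩
    intro X hX
    have := h X
    rw [stepE1_N_of_trace X hX] at this
    rw [one_mul]
    exact sub_eq_zero.1 this
  · refine ⟨-1, Or.inr rfl, hfin (-1) ?_⟩
    intro X hX
    have := h X
    rw [stepE1_N_of_trace X hX] at this
    rw [neg_one_mul]
    exact eq_neg_of_add_eq_zero_left this

theorem skolem (hn : 1 ≤ n) (Ψ : Mat n →ₐ[ℂ] Mat n) :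
    ∃ A : Mat n, IsUnit A ∧ ∀ X, Ψ X = A * X * A⁻¹ := by
  have : Nonempty (Fin n) := ⟨⟨0, hn⟩⟩
  have hinj : Function.Injective Ψ := RingHom.injective Ψ.toRingHom
  have hsur : Function.Surjective Ψ :=
    (LinearMap.injective_iff_surjective (f := Ψ.toLinearMap)).1 hinj
  let Ψe : Mat n ≃ₐ[ℂ] Mat n := AlgEquiv.ofBijective Ψ ⟨hinj, hsur⟩
  let E : Mat n ≃ₐ[ℂ] Module.End ℂ (Fin n → ℂ) := Matrix.toLinAlgEquiv'
  obtain ⟨T, hT⟩ := AlgEquiv.eq_linearEquivConjAlgEquiv (E.symm.trans (Ψe.trans E))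
  have h1 : ∀ X : Mat n, E (Ψ X) = T.toLinearMap ∘ₗ (E X) ∘ₗ T.symm.toLinearMap := by
    intro X
    have := congrArg (fun f => f (E X)) hT
    simp only [AlgEquiv.trans_apply, AlgEquiv.symm_apply_apply] at this
    rw [show Ψe X = Ψ X from rfl] at this
    rw [this]
    rfl
  let A : Mat n := E.symm T.toLinearMap
  let B : Mat n := E.symm T.symm.toLinearMap
  have hAB : A * B = 1 := by
    apply E.injective
    rw [map_mul, map_one]
    change E (E.symm T.toLinearMap) * E (E.symm T.symm.toLinearMap) = 1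
    rw [AlgEquiv.apply_symm_apply, AlgEquiv.apply_symm_apply]
    apply LinearMap.ext
    intro x
    simp
  have hinv : A⁻¹ = B := Matrix.inv_eq_right_inv hAB
  refine ⟨A, ?_, ?_⟩
  · rw [Matrix.isUnit_iff_isUnit_det]
    exact Matrix.isUnit_det_of_right_inverse hAB
  · intro X
    apply E.injective
    rw [h1, hinv, map_mul, map_mul]
    change _ = E (E.symm T.toLinearMap) * E X * E (E.symm T.symm.toLinearMap)
    rw [AlgEquiv.apply_symm_apply, AlgEquiv.apply_symm_apply]
    rfl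

theorem skolem_anti (hn : 1 ≤ n) (Ψ : Mat n →ₗ[ℂ] Mat n) (h1 : Ψ 1 = 1)
    (hm : ∀ X Y, Ψ (X * Y) = Ψ Y * Ψ X) :
    ∃ A : Mat n, IsUnit A ∧ ∀ X, Ψ X = A * Xᵀ * A⁻¹ := by
  let Φl : Mat n →ₗ[ℂ] Mat n := (Matrix.transposeLinearEquiv (Fin n) (Fin n) ℂ ℂ).toLinearMap ∘ₗ Ψ
  have hΦ : ∀ X, Φl X = (Ψ X)ᵀ := fun X => rfl
  let Φ : Mat n →ₐ[ℂ] Mat n := AlgHom.ofLinearMap Φl (by rw [hΦ, h1, Matrix.transpose_one])
    (by intro X Y; rw [hΦ, hΦ, hΦ, hm, Matrix.transpose_mul])
  obtain ⟨A, hA, hAX⟩ := skolem hn Φ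
  have hdet : IsUnit A.det := (Matrix.isUnit_iff_isUnit_det A).1 hA
  refine ⟨(A⁻¹)ᵀ, ?_, ?_⟩
  · rw [Matrix.isUnit_iff_isUnit_det, Matrix.det_transpose]
    exact Matrix.isUnit_nonsing_inv_det A hdet
  · intro X
    have h2 : (Ψ X)ᵀ = A * X * A⁻¹ := hAX X
    have h3 : Ψ X = (A⁻¹)ᵀ * Xᵀ * Aᵀ := by
      rw [← Matrix.transpose_transpose (Ψ X), h2, Matrix.transpose_mul, Matrix.transpose_mul,
        Matrix.mul_assoc]
    rw [h3]
    congr 1
    rw [← Matrix.transpose_nonsing_inv, Matrix.nonsing_inv_nonsing_inv A hdet]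

/-- traceless Jordan product -/
noncomputable def JJ (X Y : Mat n) : Mat n :=
  X * Y + Y * X - ((2 / n : ℂ) * trace (X * Y)) • (1 : Mat n)

theorem trace_one_n : trace (1 : Mat n) = (n : ℂ) := by
  simp [Matrix.trace_one]

theorem trace_JJ (hn : 2 ≤ n) (X Y : Mat n) : trace (JJ X Y) = 0 := by
  have hn0 : (n : ℂ) ≠ 0 := by
    have : n ≠ 0 := by omega
    exact_mod_cast this
  unfold JJ
  rw [trace_sub, trace_add, trace_smul, trace_one_n, trace_mul_comm Y X, smul_eq_mul]
  field_simp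
  ring

theorem JJ_expand (a b c : Mat n) :
    JJ a (JJ b c) = a * b * c + a * c * b + b * c * a + c * b * a
      - ((4 / n : ℂ) * trace (b * c)) • a - ((2 / n : ℂ) * trace (a * JJ b c)) • (1 : Mat n) := by
  have h : JJ a (JJ b c) = a * JJ b c + JJ b c * a
      - ((2 / n : ℂ) * trace (a * JJ b c)) • (1 : Mat n) := rfl
  rw [h]
  congr 1
  unfold JJ
  simp only [Matrix.mul_sub, Matrix.mul_add, Matrix.sub_mul, Matrix.add_mul, Matrix.mul_smul,
    Matrix.smul_mul, Matrix.mul_one, Matrix.one_mul, ← Matrix.mul_assoc]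
  module

theorem JJ_identity (a b c : Mat n) (ha : trace a = 0) (hb : trace b = 0) :
    (a * b - b * a) * c - c * (a * b - b * a) = JJ a (JJ b c) - JJ b (JJ a c)
      + (4 / n : ℂ) • (trace (b * c) • a - trace (a * c) • b) := by
  have e : trace (a * JJ b c) = trace (b * JJ a c) := by
    unfold JJ
    simp only [mul_sub, mul_add, trace_sub, trace_add, Matrix.mul_smul, trace_smul, mul_one,
      smul_eq_mul, ha, hb]
    have h1 : trace (a * (b * c)) = trace (b * (c * a)) := by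
      rw [trace_mul_comm, Matrix.mul_assoc]
    have h2 : trace (a * (c * b)) = trace (b * (a * c)) := by
      rw [← Matrix.mul_assoc, trace_mul_comm]
    rw [h1, h2]
    ring
  rw [JJ_expand, JJ_expand, e]
  simp only [Matrix.mul_sub, Matrix.sub_mul, ← Matrix.mul_assoc]
  module

/-- TARGET -/
theorem stepE2 (hn : 2 ≤ n) (M : Mat n →ₗ[ℂ] Mat n) (hM1 : M 1 = 0) (htr : ∀ T, trace (M T) = 0)
    (g : ℂ) (hlie : ∀ T S, M T * M S - M S * M T = g • M (T * S - S * T))
    (horth : ∀ X Z, trace X = 0 → trace Z = 0 → trace (M X * M Z) = trace (X * Z))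
    (hsurj : ∀ Z, trace Z = 0 → ∃ X, M X = Z) (ε : ℂ) (hε : ε = 1 ∨ ε = -1)
    (h3 : ∀ X Y Z : Mat n, trace X = 0 → trace Y = 0 → trace Z = 0 →
      trace (M X * M Y * M Z) + trace (M X * M Z * M Y) =
        ε * (trace (X * Y * Z) + trace (X * Z * Y))) :
    ∃ A : Mat n, IsUnit A ∧ g ^ 2 = 1 ∧
      ((∀ T, trace T = 0 → M T = ε • (A * T * A⁻¹)) ∨
       (∀ T, trace T = 0 → M T = ε • (A * Tᵀ * A⁻¹))) := by
  have hn0 : (n : ℂ) ≠ 0 := by
    have : n ≠ 0 := by omega
    exact_mod_cast this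
  have hεε : ε * ε = 1 := by rcases hε with rfl | rfl <;> norm_num
  have hsurj' : ∀ Z, trace Z = 0 → ∃ X, trace X = 0 ∧ M X = Z := by
    intro Z hZ
    obtain ⟨X, hX⟩ := hsurj Z hZ
    refine ⟨X - (trace X / n) • 1, ?_, ?_⟩
    · rw [trace_sub, trace_smul, trace_one_n, smul_eq_mul]
      field_simp
      ring
    · rw [map_sub, map_smul, hM1, smul_zero, sub_zero, hX]
  -- step 1
  have hJ : ∀ X Y, trace X = 0 → trace Y = 0 → JJ (M X) (M Y) = ε • M (JJ X Y) := by
    intro X Y hX hY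
    rw [← sub_eq_zero]
    set D := JJ (M X) (M Y) - ε • M (JJ X Y) with hD
    have hDtr : trace D = 0 := by
      rw [hD, trace_sub, trace_smul, trace_JJ hn, htr, smul_zero, sub_zero]
    have hDZ : ∀ Z, trace Z = 0 → trace (D * M Z) = 0 := by
      intro Z hZ
      have h4 := h3 X Y Z hX hY hZ
      have h5 := horth (JJ X Y) Z (trace_JJ hn X Y) hZ
      rw [hD, Matrix.sub_mul, trace_sub, Matrix.smul_mul, trace_smul, h5]
      unfold JJ
      rw [Matrix.sub_mul, Matrix.sub_mul, Matrix.add_mul, Matrix.add_mul, trace_sub, trace_sub,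
        trace_add, trace_add, Matrix.smul_mul, Matrix.smul_mul, trace_smul, trace_smul,
        Matrix.one_mul, Matrix.one_mul, htr, hZ]
      have e1 : trace (M Y * M X * M Z) = trace (M X * M Z * M Y) := by
        rw [Matrix.mul_assoc, trace_mul_comm]
      have e2 : trace (Y * X * Z) = trace (X * Z * Y) := by
        rw [Matrix.mul_assoc, trace_mul_comm]
      rw [e1, e2, h4]
      simp
    have hDall : ∀ Z, trace (D * Z) = 0 := by
      intro Z
      have hZ0 : trace (Z - (trace Z / n) • (1 : Mat n)) = 0 := by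
        rw [trace_sub, trace_smul, trace_one_n, smul_eq_mul]
        field_simp
        ring
      obtain ⟨W, hW, hMW⟩ := hsurj' _ hZ0
      have h4 := hDZ W hW
      rw [hMW, Matrix.mul_sub, trace_sub, Matrix.mul_smul, trace_smul, Matrix.mul_one, hDtr,
        smul_zero, sub_zero] at h4
      exact h4
    apply Matrix.ext_iff_trace_mul_right.2
    intro Z
    rw [hDall, Matrix.zero_mul, trace_zero]
  have hMJ : ∀ X Y, trace X = 0 → trace Y = 0 → M (JJ X Y) = ε • JJ (M X) (M Y) := by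
    intro X Y hX hY
    rw [hJ X Y hX hY, smul_smul, hεε, one_smul]
  have hdouble : ∀ a b c, trace a = 0 → trace b = 0 → trace c = 0 →
      M ((a * b - b * a) * c - c * (a * b - b * a)) =
        (M a * M b - M b * M a) * M c - M c * (M a * M b - M b * M a) := by
    intro a b c ha hb hc
    have k1 : M (JJ a (JJ b c)) = JJ (M a) (JJ (M b) (M c)) := by
      rw [hMJ a _ ha (trace_JJ hn b c), hMJ b c hb hc]
      unfold JJ
      simp only [Matrix.mul_smul, Matrix.smul_mul, trace_smul, smul_eq_mul]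
      rcases hε with rfl | rfl
      · simp
      · simp only [neg_smul, one_smul, neg_mul, one_mul, mul_neg, neg_sub]
        module
    have k2 : M (JJ b (JJ a c)) = JJ (M b) (JJ (M a) (M c)) := by
      rw [hMJ b _ hb (trace_JJ hn a c), hMJ a c ha hc]
      unfold JJ
      simp only [Matrix.mul_smul, Matrix.smul_mul, trace_smul, smul_eq_mul]
      rcases hε with rfl | rfl
      · simp
      · simp only [neg_smul, one_smul, neg_mul, one_mul, mul_neg, neg_sub]
        module
    rw [JJ_identity a b c ha hb, JJ_identity (M a) (M b) (M c) (htr a) (htr b), map_add, map_sub,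
      k1, k2, map_smul, map_sub, map_smul, map_smul, horth b c hb hc, horth a c ha hc]
  have hg : g ^ 2 = 1 := by
    let i0 : Fin n := ⟨0, by omega⟩
    let i1 : Fin n := ⟨1, by omega⟩
    have h01 : i0 ≠ i1 := by simp [i0, i1]
    have h10 : i1 ≠ i0 := h01.symm
    have ta : trace (Matrix.single i0 i1 (1 : ℂ)) = 0 := by
      rw [Matrix.trace_single_eq_of_ne _ _ _ h01]
    have tb : trace (Matrix.single i1 i0 (1 : ℂ)) = 0 := by
      rw [Matrix.trace_single_eq_of_ne _ _ _ h10]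
    have key := hdouble (Matrix.single i0 i1 1) (Matrix.single i1 i0 1) (Matrix.single i0 i1 1)
      ta tb ta
    have hl : (Matrix.single i0 i1 (1 : ℂ) * Matrix.single i1 i0 1
        - Matrix.single i1 i0 1 * Matrix.single i0 i1 1) * Matrix.single i0 i1 1
        - Matrix.single i0 i1 1 * (Matrix.single i0 i1 1 * Matrix.single i1 i0 1
        - Matrix.single i1 i0 1 * Matrix.single i0 i1 1) =
        (2 : ℂ) • Matrix.single i0 i1 (1 : ℂ) := by
      simp only [Matrix.sub_mul, Matrix.mul_sub, Matrix.single_mul_single_same, mul_one]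
      rw [Matrix.single_mul_single_of_ne _ _ _ _ h10, Matrix.single_mul_single_of_ne _ _ _ _ h10]
      module
    rw [hl] at key
    rw [hlie, Matrix.smul_mul, Matrix.mul_smul, ← smul_sub, hlie, hl, smul_smul, map_smul] at key
    have h5 := horth _ _ ta tb
    rw [Matrix.single_mul_single_same, Matrix.trace_single_eq_same] at h5
    have h6 := congrArg (fun Z => trace (Z * M (Matrix.single i1 i0 1))) key
    simp only [Matrix.smul_mul, trace_smul, h5, smul_eq_mul, mul_one] at h6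
    have h7 : (2 : ℂ) ≠ 0 := two_ne_zero
    have h8 : (2 : ℂ) * (g ^ 2 - 1) = 0 := by linear_combination -h6
    rcases mul_eq_zero.1 h8 with h9 | h9
    · exact absurd h9 h7
    · exact sub_eq_zero.1 h9
  have hM0 : ∀ X : Mat n, M (X - (trace X / n) • 1) = M X := by
    intro X
    rw [map_sub, map_smul, hM1, smul_zero, sub_zero]
  have hX0 : ∀ X : Mat n, trace (X - (trace X / n) • (1 : Mat n)) = 0 := by
    intro X
    rw [trace_sub, trace_smul, trace_one_n, smul_eq_mul]
    field_simp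
    ring
  have hsym : ∀ X Y : Mat n, M (X * Y + Y * X) = ε • (M X * M Y + M Y * M X)
      - (ε * ((2 / n : ℂ) * trace (X * Y) - 2 * (trace X / n) * (trace Y / n))) • (1 : Mat n)
      + (2 * (trace X / n)) • M Y + (2 * (trace Y / n)) • M X := by
    intro X Y
    have h4 := hMJ _ _ (hX0 X) (hX0 Y)
    rw [hM0, hM0] at h4
    have t0 : trace ((X - (trace X / n) • (1 : Mat n)) * (Y - (trace Y / n) • (1 : Mat n))) =
        trace (X * Y) - n * (trace X / n) * (trace Y / n) := by
      simp only [Matrix.mul_sub, Matrix.sub_mul, Matrix.mul_smul, Matrix.smul_mul, Matrix.mul_one,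
        Matrix.one_mul, trace_sub, trace_smul, trace_one_n, smul_eq_mul]
      field_simp
      ring
    have t1 : trace (M X * M Y) = trace (X * Y) - n * (trace X / n) * (trace Y / n) := by
      rw [← t0, ← horth _ _ (hX0 X) (hX0 Y), hM0, hM0]
    have t2 : M (JJ (X - (trace X / n) • (1 : Mat n)) (Y - (trace Y / n) • (1 : Mat n))) =
        M (X * Y + Y * X) - (2 * (trace Y / n)) • M X - (2 * (trace X / n)) • M Y := by
      have : JJ (X - (trace X / n) • (1 : Mat n)) (Y - (trace Y / n) • (1 : Mat n)) =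
        (X * Y + Y * X) - (2 * (trace Y / n)) • X - (2 * (trace X / n)) • Y
          + (2 * (trace X / n) * (trace Y / n) - (2 / n : ℂ) *
            trace ((X - (trace X / n) • (1 : Mat n)) * (Y - (trace Y / n) • (1 : Mat n)))) •
            (1 : Mat n) := by
        unfold JJ
        generalize trace ((X - (trace X / n) • (1 : Mat n)) * (Y - (trace Y / n) • (1 : Mat n)))
          = t
        simp only [Matrix.mul_sub, Matrix.sub_mul, Matrix.mul_smul, Matrix.smul_mul,
          Matrix.mul_one, Matrix.one_mul]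
        module
      rw [this, map_add, map_sub, map_sub, map_smul, map_smul, map_smul, hM1, smul_zero, add_zero]
    have t3 : JJ (M X) (M Y) = M X * M Y + M Y * M X
        - ((2 / n : ℂ) * (trace (X * Y) - n * (trace X / n) * (trace Y / n))) • (1 : Mat n) := by
      unfold JJ
      rw [t1]
    rw [t2, t3] at h4
    have h5 : M (X * Y + Y * X) = ε • (M X * M Y + M Y * M X
        - ((2 / n : ℂ) * (trace (X * Y) - n * (trace X / n) * (trace Y / n))) • (1 : Mat n))
        + (2 * (trace Y / n)) • M X + (2 * (trace X / n)) • M Y := by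
      rw [← h4]; abel
    rw [h5]
    have h6 : (2 / n : ℂ) * (trace (X * Y) - n * (trace X / n) * (trace Y / n)) =
        (2 / n : ℂ) * trace (X * Y) - 2 * (trace X / n) * (trace Y / n) := by
      field_simp
    rw [h6]
    module
  have hskew : ∀ X Y : Mat n, M (X * Y - Y * X) = g • (M X * M Y - M Y * M X) := by
    intro X Y
    rw [hlie, smul_smul, ← pow_two, hg, one_smul]
  have hprod : ∀ X Y : Mat n, M (X * Y) = (1 / 2 : ℂ) • (ε • (M X * M Y + M Y * M X)
      - (ε * ((2 / n : ℂ) * trace (X * Y) - 2 * (trace X / n) * (trace Y / n))) • (1 : Mat n)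
      + (2 * (trace X / n)) • M Y + (2 * (trace Y / n)) • M X
      + g • (M X * M Y - M Y * M X)) := by
    intro X Y
    rw [← hsym, ← hskew, ← map_add, ← map_smul]
    congr 1
    module
  -- the map Psi
  let Ψ : Mat n →ₗ[ℂ] Mat n := ε • M +
    (LinearMap.toSpanSingleton ℂ (Mat n) 1) ∘ₗ ((1 / n : ℂ) • Matrix.traceLinearMap (Fin n) ℂ ℂ)
  have hΨ : ∀ X, Ψ X = ε • M X + (trace X / n) • (1 : Mat n) := by
    intro X
    simp only [Ψ, LinearMap.add_apply, LinearMap.smul_apply, LinearMap.comp_apply,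
      LinearMap.toSpanSingleton_apply, Matrix.traceLinearMap_apply, smul_eq_mul]
    rw [one_div, inv_mul_eq_div]
  have hΨ1 : Ψ 1 = 1 := by
    rw [hΨ, hM1, smul_zero, zero_add, trace_one_n, div_self hn0, one_smul]
  have hMΨ : ∀ T, trace T = 0 → M T = ε • Ψ T := by
    intro T hT
    rw [hΨ, hT, zero_div, zero_smul, add_zero, smul_smul, hεε, one_smul]
  have hgε : g = ε ∨ g = -ε := by
    have h : (g - 1) * (g + 1) = 0 := by linear_combination hg
    rcases mul_eq_zero.1 h with h | h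
    · have h' : g = 1 := sub_eq_zero.1 h
      rcases hε with rfl | rfl
      · exact Or.inl h'
      · right; rw [h']; norm_num
    · have h' : g = -1 := eq_neg_of_add_eq_zero_left h
      rcases hε with rfl | rfl
      · right; rw [h']
      · exact Or.inl h'
  rcases hgε with hgε | hgε
  · have hmul : ∀ X Y, Ψ (X * Y) = Ψ X * Ψ Y := by
      intro X Y
      rw [hΨ, hΨ, hΨ, hprod, hgε]
      simp only [Matrix.mul_add, Matrix.add_mul, Matrix.mul_smul, Matrix.smul_mul,
        Matrix.mul_one, Matrix.one_mul, smul_add, smul_sub, smul_smul]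
      rcases hε with rfl | rfl
      · module
      · module
    obtain ⟨A, hA, hAX⟩ := skolem (by omega) (AlgHom.ofLinearMap Ψ hΨ1 hmul)
    refine ⟨A, hA, hg, Or.inl ?_⟩
    intro T hT
    rw [hMΨ T hT]
    congr 1
    exact hAX T
  · have hmul : ∀ X Y, Ψ (X * Y) = Ψ Y * Ψ X := by
      intro X Y
      rw [hΨ, hΨ, hΨ, hprod, hgε]
      simp only [Matrix.mul_add, Matrix.add_mul, Matrix.mul_smul, Matrix.smul_mul,
        Matrix.mul_one, Matrix.one_mul, smul_add, smul_sub, smul_smul]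
      rcases hε with rfl | rfl
      · module
      · module
    obtain ⟨A, hA, hAX⟩ := skolem_anti (by omega) Ψ hΨ1 hmul
    refine ⟨A, hA, hg, Or.inr ?_⟩
    intro T hT
    rw [hMΨ T hT]
    congr 1
    exact hAX T

section PLPs
variable {E : Type*} [AddCommGroup E] [Module ℂ E]

/-- polynomial valued, coefficientwise polynomial along lines, bounded degree -/
def PLP (F : E → ℂ[X]) : Prop :=
  (∃ N : ℕ, ∀ e, (F e).natDegree ≤ N) ∧ ∀ k, PL (fun e => (F e).coeff k)

theorem PLP.const (P : ℂ[X]) : PLP (fun _ : E => P) :=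
  ⟨⟨P.natDegree, fun _ => le_rfl⟩, fun _ => PL.const _⟩

theorem PLP.ofPL {F : E → ℂ} (hF : PL F) : PLP (fun e => C (F e)) := by
  refine ⟨⟨0, fun e => by simp⟩, fun k => ?_⟩
  simp only [coeff_C]
  by_cases hk : k = 0
  · simpa [hk] using hF
  · simpa [hk] using PL.const (E := E) 0

theorem PLP.add {F G : E → ℂ[X]} (hF : PLP F) (hG : PLP G) : PLP (fun e => F e + G e) := by
  obtain ⟨⟨N, hN⟩, hF⟩ := hF
  obtain ⟨⟨M, hM⟩, hG⟩ := hG
  refine ⟨⟨max N M, fun e => (natDegree_add_le _ _).trans (max_le_max (hN e) (hM e))⟩, fun k => ?_⟩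
  simp only [coeff_add]
  exact (hF k).add (hG k)

theorem PLP.sub {F G : E → ℂ[X]} (hF : PLP F) (hG : PLP G) : PLP (fun e => F e - G e) := by
  obtain ⟨⟨N, hN⟩, hF⟩ := hF
  obtain ⟨⟨M, hM⟩, hG⟩ := hG
  refine ⟨⟨max N M, fun e => (natDegree_sub_le _ _).trans (max_le_max (hN e) (hM e))⟩, fun k => ?_⟩
  simp only [coeff_sub]
  exact (hF k).sub (hG k)

theorem PLP.mul {F G : E → ℂ[X]} (hF : PLP F) (hG : PLP G) : PLP (fun e => F e * G e) := by
  obtain ⟨⟨N, hN⟩, hF⟩ := hF
  obtain ⟨⟨M, hM⟩, hG⟩ := hG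
  refine ⟨⟨N + M, fun e => natDegree_mul_le.trans (add_le_add (hN e) (hM e))⟩, fun k => ?_⟩
  simp only [coeff_mul]
  exact PL.sum _ fun a _ => (hF _).mul (hG _)

theorem PLP.pow {F : E → ℂ[X]} (hF : PLP F) (k : ℕ) : PLP (fun e => F e ^ k) := by
  induction k with
  | zero => simpa using PLP.const (E := E) 1
  | succ k ih => simpa only [pow_succ] using ih.mul hF

theorem PLP.sum {ι : Type*} (s : Finset ι) {F : ι → E → ℂ[X]} (hF : ∀ i ∈ s, PLP (F i)) :
    PLP (fun p => ∑ i ∈ s, F i p) := by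
  classical
  induction s using Finset.induction_on with
  | empty => simpa using PLP.const (E := E) 0
  | insert a s ha ih =>
    simp only [Finset.sum_insert ha]
    exact (hF a (Finset.mem_insert_self a s)).add (ih fun i hi => hF i (Finset.mem_insert_of_mem hi))

theorem PLP.prod {ι : Type*} (s : Finset ι) {F : ι → E → ℂ[X]} (hF : ∀ i ∈ s, PLP (F i)) :
    PLP (fun p => ∏ i ∈ s, F i p) := by
  classical
  induction s using Finset.induction_on with
  | empty => simpa using PLP.const (E := E) 1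
  | insert a s ha ih =>
    simp only [Finset.prod_insert ha]
    exact (hF a (Finset.mem_insert_self a s)).mul (ih fun i hi => hF i (Finset.mem_insert_of_mem hi))

theorem PLP.charpoly {F : E → Mat n} (hF : PLM F) : PLP (fun e => (F e).charpoly) := by
  simp only [Matrix.charpoly, Matrix.det_apply']
  refine PLP.sum _ fun σ _ => (PLP.const _).mul (PLP.prod _ fun i _ => ?_)
  simp only [Matrix.charmatrix_apply]
  exact (PLP.const _).sub (PLP.ofPL (hF _ _))

theorem PLP.aevalM {F : E → Mat n} {P : E → ℂ[X]} (hF : PLM F) (hP : PLP P) :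
    PLM (fun e => Polynomial.aeval (F e) (P e)) := by
  obtain ⟨⟨N, hN⟩, hP⟩ := hP
  have h1 : (fun e => Polynomial.aeval (F e) (P e)) =
      fun e => ∑ i ∈ Finset.range (N + 1), (P e).coeff i • (F e) ^ i := by
    funext e
    rw [aeval_eq_sum_range' (Nat.lt_succ_of_le (hN e))]
  rw [h1]
  intro i j
  simp only [Matrix.sum_apply, Matrix.smul_apply, smul_eq_mul]
  exact PL.sum _ fun k _ => (hP k).mul ((hF.pow k) i j)

theorem PLM.mulVec {F : E → Mat n} (hF : PLM F) (x : Fin n → ℂ) (i : Fin n) :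
    PL (fun e => (F e *ᵥ x) i) := by
  simp only [Matrix.mulVec, dotProduct]
  exact PL.sum _ fun k _ => (hF i k).mul (PL.const _)

end PLPs

/-- if the local spectrum consists of roots of g then g^n kills x -/
theorem ann_of_roots (C' : Mat n) (x : Fin n → ℂ) (g : ℂ[X])
    (h : ∀ l ∈ localSpectrum C' x, g.eval l = 0) : (aeval C' (g ^ n)) *ᵥ x = 0 := by
  obtain ⟨s, hs, hann⟩ := exists_ann C' x
  have h1 : (∏ m ∈ s, (X - C m)) ∣ g := by
    refine Finset.prod_dvd_of_coprime ?_ ?_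
    · intro a _ b _ hab
      exact pairwise_coprime_X_sub_C (Function.injective_id) hab
    · intro m hm
      rw [dvd_iff_isRoot]
      exact h m (by rw [← hs]; exact hm)
  obtain ⟨q, hq⟩ := pow_dvd_pow_of_dvd h1 n
  rw [hq, mul_comm, map_mul, ← Matrix.mulVec_mulVec, ← Finset.prod_pow, hann, Matrix.mulVec_zero]

theorem root_of_mem (D : Mat n) (x : Fin n → ℂ) (l : ℂ) (h : l ∈ localSpectrum D x) :
    D.charpoly.eval l = 0 :=
  (mem_localSpectrum_iff D x l).1 h _ (by rw [Matrix.aeval_self_charpoly, Matrix.zero_mulVec])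

theorem neg_mem (D : Mat n) (x : Fin n → ℂ) (l : ℂ) (h : l ∈ localSpectrum D x) :
    -l ∈ localSpectrum (-D) x := by
  rw [mem_localSpectrum_iff] at h ⊢
  intro p hp
  have h2 := h (p.comp (-X)) (by
    rw [aeval_comp]
    simpa using hp)
  simpa [eval_comp] using h2

theorem charpoly_neg_eval (D : Mat n) (l : ℂ) (h : D.charpoly.eval (-l) = 0) :
    (-D).charpoly.eval l = 0 := by
  rw [Matrix.eval_charpoly] at h ⊢
  have h3 : (Matrix.scalar (Fin n)) l - -D = -((Matrix.scalar (Fin n)) (-l) - D) := by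
    rw [map_neg]; abel
  rw [h3, Matrix.det_neg, h, mul_zero]

theorem charpoly_conj' (A : Mat n) (hA : IsUnit A) (Y : Mat n) :
    (A * Y * A⁻¹).charpoly = Y.charpoly := by
  have hd : IsUnit A.det := (Matrix.isUnit_iff_isUnit_det A).1 hA
  rw [Matrix.mul_assoc, Matrix.charpoly_mul_comm, Matrix.mul_assoc, Matrix.nonsing_inv_mul _ hd,
    Matrix.mul_one]

theorem N_facts (A : Mat n) (hA : IsUnit A) (N : Mat n → Mat n)
    (hN : (∀ Y, N Y = A * Y * A⁻¹) ∨ (∀ Y, N Y = A * Yᵀ * A⁻¹)) :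
    (∀ Y, (N Y).charpoly = Y.charpoly) ∧ (∀ Y, - N Y = N (-Y)) := by
  rcases hN with hN | hN
  · refine ⟨fun Y => by rw [hN, charpoly_conj' A hA], fun Y => by rw [hN, hN]; simp⟩
  · refine ⟨fun Y => by rw [hN, charpoly_conj' A hA, Matrix.charpoly_transpose],
      fun Y => by rw [hN, hN]; simp⟩

/-- closedness, first direction -/
theorem closed1 (T T' : Mat n) (x0 : Fin n → ℂ)
    (G : Mat n → ℂ) (hG : PL G) (hG0 : ∃ S, G S ≠ 0) (A : Mat n) (hA : IsUnit A)
    (N : Mat n → Mat n) (hN : (∀ Y, N Y = A * Y * A⁻¹) ∨ (∀ Y, N Y = A * Yᵀ * A⁻¹))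
    (h : ∀ S, G S ≠ 0 →
      localSpectrum (N (T' * S - S * T')) x0 = localSpectrum (T * S - S * T) x0 ∨
      localSpectrum (-N (T' * S - S * T')) x0 = localSpectrum (T * S - S * T) x0) (S : Mat n) :
    (aeval (T * S - S * T) (((T' * S - S * T').charpoly * (-(T' * S - S * T')).charpoly) ^ n)) *ᵥ
      x0 = 0 := by
  obtain ⟨hN1, hN2⟩ := N_facts A hA N hN
  have hid : PLM (fun S : Mat n => S) := fun i j => PL.lin (Matrix.entryLinearMap ℂ ℂ i j)
  have hC : ∀ Z : Mat n, PLM (fun S : Mat n => Z * S - S * Z) := fun Z =>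
    ((PLM.const Z).mul hid).sub (hid.mul (PLM.const Z))
  have hCn : PLM (fun S : Mat n => -(T' * S - S * T')) := by
    have := (PLM.const (E := Mat n) (0 : Mat n)).sub (hC T')
    simpa using this
  funext i
  refine PL.eq_zero (F := fun S : Mat n => ((aeval (T * S - S * T)
    (((T' * S - S * T').charpoly * (-(T' * S - S * T')).charpoly) ^ n)) *ᵥ x0) i)
    ?_ hG hG0 ?_ S
  · exact PLM.mulVec (PLP.aevalM (hC T) (((PLP.charpoly (hC T')).mul (PLP.charpoly hCn)).pow n)) x0 i
  · intro S hS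
    have key := ann_of_roots (T * S - S * T) x0
      ((T' * S - S * T').charpoly * (-(T' * S - S * T')).charpoly) (by
      intro l hl
      rw [eval_mul]
      rcases h S hS with h1 | h1
      · rw [← h1] at hl
        have := root_of_mem _ _ _ hl
        rw [hN1] at this
        rw [this, zero_mul]
      · rw [← h1] at hl
        have := root_of_mem _ _ _ hl
        rw [hN2, hN1] at this
        rw [this, mul_zero])
    exact congrFun key i

/-- closedness, second direction -/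
theorem closed2 (T T' : Mat n) (x0 : Fin n → ℂ)
    (G : Mat n → ℂ) (hG : PL G) (hG0 : ∃ S, G S ≠ 0) (A : Mat n) 
    (N : Mat n → Mat n) (hN : (∀ Y, N Y = A * Y * A⁻¹) ∨ (∀ Y, N Y = A * Yᵀ * A⁻¹))
    (h : ∀ S, G S ≠ 0 →
      localSpectrum (N (T' * S - S * T')) x0 = localSpectrum (T * S - S * T) x0 ∨
      localSpectrum (-N (T' * S - S * T')) x0 = localSpectrum (T * S - S * T) x0) (S : Mat n) :
    (aeval (N (T' * S - S * T')) (((T * S - S * T).charpoly * (-(T * S - S * T)).charpoly) ^ n)) *ᵥ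
      x0 = 0 := by
  have hid : PLM (fun S : Mat n => S) := fun i j => PL.lin (Matrix.entryLinearMap ℂ ℂ i j)
  have hC : ∀ Z : Mat n, PLM (fun S : Mat n => Z * S - S * Z) := fun Z =>
    ((PLM.const Z).mul hid).sub (hid.mul (PLM.const Z))
  have hCn : PLM (fun S : Mat n => -(T * S - S * T)) := by
    have := (PLM.const (E := Mat n) (0 : Mat n)).sub (hC T)
    simpa using this
  have hNC : PLM (fun S : Mat n => N (T' * S - S * T')) := by
    rcases hN with hN | hN
    · simp only [hN]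
      exact ((PLM.const A).mul (hC T')).mul (PLM.const A⁻¹)
    · simp only [hN]
      refine ((PLM.const A).mul ?_).mul (PLM.const A⁻¹)
      exact fun i j => hC T' j i
  funext i
  refine PL.eq_zero (F := fun S : Mat n => ((aeval (N (T' * S - S * T'))
    (((T * S - S * T).charpoly * (-(T * S - S * T)).charpoly) ^ n)) *ᵥ x0) i)
    ?_ hG hG0 ?_ S
  · exact PLM.mulVec (PLP.aevalM hNC (((PLP.charpoly (hC T)).mul (PLP.charpoly hCn)).pow n)) x0 i
  · intro S hS
    have key := ann_of_roots (N (T' * S - S * T')) x0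
      ((T * S - S * T).charpoly * (-(T * S - S * T)).charpoly) (by
      intro l hl
      rw [eval_mul]
      rcases h S hS with h1 | h1
      · rw [h1] at hl
        rw [root_of_mem _ _ _ hl, zero_mul]
      · have hl' := neg_mem _ _ _ hl
        rw [h1] at hl'
        rw [charpoly_neg_eval _ _ (root_of_mem _ _ _ hl'), mul_zero])
    exact congrFun key i

/-- row eigenvector -/
theorem row_aeval (D : Mat n) (f : Fin n → ℂ) (l : ℂ) (hf : f ᵥ* D = l • f) (p : ℂ[X]) :
    f ᵥ* (aeval D p) = p.eval l • f := by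
  induction p using Polynomial.induction_on' with
  | add p q hp hq => rw [map_add, Matrix.vecMul_add, hp, hq, eval_add, add_smul]
  | monomial k a =>
    have hk : ∀ k : ℕ, f ᵥ* (D ^ k) = l ^ k • f := by
      intro k
      induction k with
      | zero => simp
      | succ k ih => rw [pow_succ, ← Matrix.vecMul_vecMul, ih, Matrix.smul_vecMul, hf, smul_smul, pow_succ]
    rw [aeval_monomial, eval_monomial, Algebra.algebraMap_eq_smul_one, smul_mul_assoc, one_mul,
      Matrix.vecMul_smul, hk, smul_smul]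

theorem eval_zero_of_row (D : Mat n) (f x : Fin n → ℂ) (l : ℂ) (hf : f ᵥ* D = l • f) (p : ℂ[X])
    (hp : (aeval D p) *ᵥ x = 0) (hx : f ⬝ᵥ x ≠ 0) : p.eval l = 0 := by
  have h1 : (f ᵥ* (aeval D p)) ⬝ᵥ x = 0 := by
    rw [← Matrix.dotProduct_mulVec, hp, dotProduct_zero]
  rw [row_aeval D f l hf p, smul_dotProduct, smul_eq_mul] at h1
  exact (mul_eq_zero.1 h1).resolve_right hx

/-- eigenvalues of `[Z, u f]` -/
theorem eig_rank_two (Z : Mat n) (u f : Fin n → ℂ) (hfu : f ⬝ᵥ u = 0) (l : ℂ)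
    (h : (Z * vecMulVec u f - vecMulVec u f * Z).charpoly.eval l = 0) :
    l = 0 ∨ l ^ 2 = (f ⬝ᵥ (Z *ᵥ u)) ^ 2 := by
  by_cases hl : l = 0
  · exact Or.inl hl
  right
  rw [Matrix.eval_charpoly] at h
  obtain ⟨v, hv, hv2⟩ := Matrix.exists_mulVec_eq_zero_iff.2 h
  have h1 : (f ⬝ᵥ v) • (Z *ᵥ u) - (f ⬝ᵥ (Z *ᵥ v)) • u = l • v := by
    rw [Matrix.sub_mulVec, sub_eq_zero] at hv2
    have h4 : (Matrix.scalar (Fin n)) l *ᵥ v = l • v := by
      simp [Matrix.scalar_apply, ← Matrix.smul_one_eq_diagonal, Matrix.smul_mulVec]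
    rw [h4, Matrix.sub_mulVec, Matrix.mul_vecMulVec, ← Matrix.mulVec_mulVec] at hv2
    rw [hv2, Matrix.vecMulVec_mulVec, Matrix.vecMulVec_mulVec]
    simp
  have h2 : (f ⬝ᵥ v) * (f ⬝ᵥ (Z *ᵥ u)) = l * (f ⬝ᵥ v) := by
    have := congrArg (fun w => f ⬝ᵥ w) h1
    simpa [dotProduct_sub, dotProduct_smul, hfu] using this
  by_cases hfv : f ⬝ᵥ v = 0
  · rw [hfv, zero_smul, zero_sub] at h1
    have hvu : v = (-(f ⬝ᵥ (Z *ᵥ v)) / l) • u := by
      have := congrArg (fun w => l⁻¹ • w) h1
      simp only [smul_smul, inv_mul_cancel₀ hl, one_smul] at this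
      calc v = l⁻¹ • -((f ⬝ᵥ Z *ᵥ v) • u) := this.symm
        _ = (-(f ⬝ᵥ (Z *ᵥ v)) / l) • u := by
          rw [smul_neg, smul_smul, ← neg_smul]
          ring_nf
    set c := -(f ⬝ᵥ (Z *ᵥ v)) / l with hc
    have hcne : c ≠ 0 := by
      intro hc0
      rw [hc0, zero_smul] at hvu
      exact hv hvu
    have h5 : f ⬝ᵥ (Z *ᵥ v) = c * (f ⬝ᵥ (Z *ᵥ u)) := by
      rw [hvu, Matrix.mulVec_smul, dotProduct_smul, smul_eq_mul]
    have h6 : c * l = -(f ⬝ᵥ (Z *ᵥ v)) := by
      rw [hc]; field_simp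
    have h7 : l = -(f ⬝ᵥ (Z *ᵥ u)) := by
      rw [h5] at h6
      apply mul_left_cancel₀ hcne
      rw [h6]; ring
    rw [h7]; ring
  · have h7 : f ⬝ᵥ (Z *ᵥ u) = l := by
      apply mul_left_cancel₀ hfv
      rw [h2]; ring
    rw [h7]

theorem eig_rank_two' (Z : Mat n) (u f : Fin n → ℂ) (hfu : f ⬝ᵥ u = 0) (l : ℂ)
    (h : (-(Z * vecMulVec u f - vecMulVec u f * Z)).charpoly.eval l = 0) :
    l = 0 ∨ l ^ 2 = (f ⬝ᵥ (Z *ᵥ u)) ^ 2 := by
  have h1 : (-(Z * vecMulVec u f - vecMulVec u f * Z)) =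
      ((-Z) * vecMulVec u f - vecMulVec u f * (-Z)) := by
    rw [Matrix.neg_mul, Matrix.mul_neg]; abel
  rw [h1] at h
  have := eig_rank_two (-Z) u f hfu l h
  simpa [Matrix.neg_mulVec] using this

theorem row_comm (Z : Mat n) (u f : Fin n → ℂ) (hfu : f ⬝ᵥ u = 0) :
    f ᵥ* (Z * vecMulVec u f - vecMulVec u f * Z) = (f ⬝ᵥ (Z *ᵥ u)) • f := by
  rw [Matrix.vecMul_sub, Matrix.mul_vecMulVec, ← Matrix.vecMul_vecMul, Matrix.vecMul_vecMulVec,
    Matrix.vecMul_vecMulVec, hfu]
  simp

theorem col_comm (Z : Mat n) (u f : Fin n → ℂ) (hfu : f ⬝ᵥ u = 0) :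
    u ᵥ* (Z * vecMulVec u f - vecMulVec u f * Z)ᵀ = (-(f ⬝ᵥ (Z *ᵥ u))) • u := by
  rw [Matrix.vecMul_transpose, Matrix.sub_mulVec, Matrix.mul_vecMulVec, ← Matrix.mulVec_mulVec,
    Matrix.vecMulVec_mulVec, Matrix.vecMulVec_mulVec, hfu]
  simp

theorem exists_skew (u f : Fin n → ℂ) (hu : u ≠ 0) (hfu : f ⬝ᵥ u = 0) :
    ∃ K : Mat n, (K - Kᵀ) *ᵥ u = f := by
  obtain ⟨k, hk⟩ := Function.ne_iff.1 hu
  refine ⟨vecMulVec f (Pi.single k (u k)⁻¹), ?_⟩
  have hk' : u k ≠ 0 := hk
  rw [Matrix.sub_mulVec, Matrix.transpose_vecMulVec, Matrix.vecMulVec_mulVec,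
    Matrix.vecMulVec_mulVec, hfu]
  simp [hk']

theorem scalar_of_forms (Z : Mat n) (hn : 2 ≤ n)
    (h : ∀ u f : Fin n → ℂ, f ⬝ᵥ u = 0 → f ⬝ᵥ (Z *ᵥ u) = 0) :
    ∃ s : ℂ, Z = s • (1 : Mat n) := by
  have h1 : ∀ i j : Fin n, i ≠ j → Z i j = 0 := by
    intro i j hij
    have := h (Pi.single j 1) (Pi.single i 1) (by simp [hij])
    simpa using this
  have h2 : ∀ i j : Fin n, Z i i = Z j j := by
    intro i j
    by_cases hij : i = j
    · rw [hij]
    have := h (Pi.single i 1 + Pi.single j 1) (Pi.single i 1 - Pi.single j 1)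
      (by simp [hij, Ne.symm hij, sub_dotProduct, dotProduct_add])
    simp [Matrix.mulVec_add, sub_dotProduct, dotProduct_add, h1 i j hij, h1 j i (Ne.symm hij)] at this
    linear_combination this
  refine ⟨Z ⟨0, by omega⟩ ⟨0, by omega⟩, ?_⟩
  ext i j
  by_cases hij : i = j
  · subst hij; simp [h2 i ⟨0, by omega⟩]
  · simp [hij, h1 i j hij]

/-- TARGET -/
theorem stepG (hn : 2 ≤ n) (T T' : Mat n) (x0 : Fin n → ℂ) (hx0 : x0 ≠ 0)
    (G : Mat n → ℂ) (hG : PL G) (hG0 : ∃ S, G S ≠ 0) (A : Mat n) (hA : IsUnit A)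
    (N : Mat n → Mat n) (hN : (∀ Y, N Y = A * Y * A⁻¹) ∨ (∀ Y, N Y = A * Yᵀ * A⁻¹))
    (h : ∀ S, G S ≠ 0 →
      localSpectrum (N (T' * S - S * T')) x0 = localSpectrum (T * S - S * T) x0 ∨
      localSpectrum (-N (T' * S - S * T')) x0 = localSpectrum (T * S - S * T) x0) :
    ∃ s : ℂ, T' = T + s • (1 : Mat n) ∨ T' = -T + s • (1 : Mat n) := by
  have hcl1 := closed1 T T' x0 G hG hG0 A hA N hN h
  have hcl2 := closed2 T T' x0 G hG hG0 A N hN h
  have hd : IsUnit A.det := (Matrix.isUnit_iff_isUnit_det A).1 hA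
  set y : Fin n → ℂ := A⁻¹ *ᵥ x0 with hy
  have hy0 : y ≠ 0 := by
    intro h0
    apply hx0
    have : A *ᵥ y = x0 := by
      rw [hy, Matrix.mulVec_mulVec, Matrix.mul_nonsing_inv _ hd, Matrix.one_mulVec]
    rw [← this, h0, Matrix.mulVec_zero]
  -- pointwise facts
  have f1 : ∀ u f : Fin n → ℂ, f ⬝ᵥ u = 0 → f ⬝ᵥ x0 ≠ 0 →
      (f ⬝ᵥ (T *ᵥ u) = 0 ∨ (f ⬝ᵥ (T *ᵥ u)) ^ 2 = (f ⬝ᵥ (T' *ᵥ u)) ^ 2) := by
    intro u f hfu hfx
    have h1 := eval_zero_of_row _ f x0 _ (row_comm T u f hfu) _ (hcl1 (vecMulVec u f)) hfx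
    rw [eval_pow, eval_mul] at h1
    rcases mul_eq_zero.1 (pow_eq_zero_iff (by omega) |>.1 h1) with h2 | h2
    · exact eig_rank_two T' u f hfu _ h2
    · exact eig_rank_two' T' u f hfu _ h2
  have f2 : ∀ (g : Fin n → ℂ) (m : ℂ) (u f : Fin n → ℂ), f ⬝ᵥ u = 0 → g ⬝ᵥ x0 ≠ 0 →
      g ᵥ* (N (T' * vecMulVec u f - vecMulVec u f * T')) = m • g →
      (m = 0 ∨ m ^ 2 = (f ⬝ᵥ (T *ᵥ u)) ^ 2) := by
    intro g m u f hfu hgx hg
    have h1 := eval_zero_of_row _ g x0 m hg _ (hcl2 (vecMulVec u f)) hgx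
    rw [eval_pow, eval_mul] at h1
    rcases mul_eq_zero.1 (pow_eq_zero_iff (by omega) |>.1 h1) with h2 | h2
    · exact eig_rank_two T u f hfu _ h2
    · exact eig_rank_two' T u f hfu _ h2
  have hskew : ∀ (u : Fin n → ℂ) (K : Mat n), ((K - Kᵀ) *ᵥ u) ⬝ᵥ u = 0 := by
    intro u K
    rw [Matrix.sub_mulVec, sub_dotProduct, Matrix.mulVec_transpose, ← Matrix.dotProduct_mulVec,
      dotProduct_comm, sub_self]
  have hPLu : ∀ i, PL (fun p : (Fin n → ℂ) × Mat n => p.1 i) := fun i =>
    PL.lin ((LinearMap.proj i).comp (LinearMap.fst ℂ (Fin n → ℂ) (Mat n)))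
  have hPLK : ∀ i j, PL (fun p : (Fin n → ℂ) × Mat n => (p.2 - p.2ᵀ) i j) := fun i j =>
    (PL.lin ((Matrix.entryLinearMap ℂ ℂ i j).comp (LinearMap.snd ℂ (Fin n → ℂ) (Mat n)))).sub
      (PL.lin ((Matrix.entryLinearMap ℂ ℂ j i).comp (LinearMap.snd ℂ (Fin n → ℂ) (Mat n))))
  have hPLf : ∀ i, PL (fun p : (Fin n → ℂ) × Mat n => ((p.2 - p.2ᵀ) *ᵥ p.1) i) := by
    intro i
    simp only [Matrix.mulVec, dotProduct]
    exact PL.sum _ fun k _ => (hPLK i k).mul (hPLu k)
  have hPLZ : ∀ (Z : Mat n) (i : Fin n), PL (fun p : (Fin n → ℂ) × Mat n => (Z *ᵥ p.1) i) := by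
    intro Z i
    simp only [Matrix.mulVec, dotProduct]
    exact PL.sum _ fun k _ => (PL.const _).mul (hPLu k)
  have hPLF : ∀ Z : Mat n, PL (fun p : (Fin n → ℂ) × Mat n =>
      ((p.2 - p.2ᵀ) *ᵥ p.1) ⬝ᵥ (Z *ᵥ p.1)) := by
    intro Z
    simp only [dotProduct]
    exact PL.sum _ fun k _ => (hPLf k).mul (hPLZ Z k)
  have hPLc : ∀ z : Fin n → ℂ, PL (fun p : (Fin n → ℂ) × Mat n =>
      ((p.2 - p.2ᵀ) *ᵥ p.1) ⬝ᵥ z) := by
    intro z
    simp only [dotProduct]
    exact PL.sum _ fun k _ => (hPLf k).mul (PL.const _)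
  have hnz : ∀ z : Fin n → ℂ, z ≠ 0 → ∃ p : (Fin n → ℂ) × Mat n,
      ((p.2 - p.2ᵀ) *ᵥ p.1) ⬝ᵥ z ≠ 0 := by
    intro z hz
    obtain ⟨k, hk⟩ := Function.ne_iff.1 hz
    obtain ⟨j, hj⟩ : ∃ j : Fin n, j ≠ k := by
      haveI : Nontrivial (Fin n) := Fin.nontrivial_iff_two_le.2 hn
      exact exists_ne k
    obtain ⟨K, hK⟩ := exists_skew (Pi.single j (1 : ℂ)) (Pi.single k 1)
      (by simp) (by simp [hj])
    refine ⟨(Pi.single j 1, K), ?_⟩
    simp only [hK]
    simpa using hk
  obtain ⟨H, hH, hH0, hHf⟩ : ∃ H : (Fin n → ℂ) × Mat n → ℂ, PL H ∧ (∃ p, H p ≠ 0) ∧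
      ∀ p, H p ≠ 0 → 
      (((p.2 - p.2ᵀ) *ᵥ p.1) ⬝ᵥ (T' *ᵥ p.1) = 0 ∨
        (((p.2 - p.2ᵀ) *ᵥ p.1) ⬝ᵥ (T' *ᵥ p.1)) ^ 2 =
          (((p.2 - p.2ᵀ) *ᵥ p.1) ⬝ᵥ (T *ᵥ p.1)) ^ 2) := by
    rcases hN with hN | hN
    · refine ⟨fun p => ((p.2 - p.2ᵀ) *ᵥ p.1) ⬝ᵥ y, hPLc y, hnz y hy0, ?_⟩
      intro p hp
      set f := (p.2 - p.2ᵀ) *ᵥ p.1 with hf
      have hfu : f ⬝ᵥ p.1 = 0 := hskew p.1 p.2
      refine f2 (f ᵥ* A⁻¹) _ p.1 f hfu ?_ ?_
      · rw [← Matrix.dotProduct_mulVec]; exact hp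
      · rw [hN, Matrix.vecMul_vecMul, ← Matrix.mul_assoc, ← Matrix.mul_assoc,
          Matrix.nonsing_inv_mul _ hd, Matrix.one_mul, ← Matrix.vecMul_vecMul,
          row_comm T' p.1 f hfu, Matrix.smul_vecMul]
    · refine ⟨fun p => p.1 ⬝ᵥ y, ?_, ?_, ?_⟩
      · simp only [dotProduct]
        exact PL.sum _ fun k _ => (hPLu k).mul (PL.const _)
      · obtain ⟨k, hk⟩ := Function.ne_iff.1 hy0
        exact ⟨(Pi.single k 1, 0), by simpa using hk⟩
      · intro p hp
        set f := (p.2 - p.2ᵀ) *ᵥ p.1 with hf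
        have hfu : f ⬝ᵥ p.1 = 0 := hskew p.1 p.2
        have := f2 (p.1 ᵥ* A⁻¹) (-(f ⬝ᵥ (T' *ᵥ p.1))) p.1 f hfu
          (by rw [← Matrix.dotProduct_mulVec]; exact hp)
          (by rw [hN, Matrix.vecMul_vecMul, ← Matrix.mul_assoc, ← Matrix.mul_assoc,
                Matrix.nonsing_inv_mul _ hd, Matrix.one_mul, ← Matrix.vecMul_vecMul,
                col_comm T' p.1 f hfu, Matrix.smul_vecMul])
        simpa using this
  have hprod : ∀ p : (Fin n → ℂ) × Mat n,
      ((p.2 - p.2ᵀ) *ᵥ p.1) ⬝ᵥ ((T - T') *ᵥ p.1) = 0 ∨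
      ((p.2 - p.2ᵀ) *ᵥ p.1) ⬝ᵥ ((T + T') *ᵥ p.1) = 0 := by
    intro p
    rw [← mul_eq_zero]
    refine PL.eq_zero (F := fun p : (Fin n → ℂ) × Mat n =>
      ((p.2 - p.2ᵀ) *ᵥ p.1) ⬝ᵥ ((T - T') *ᵥ p.1) * ((p.2 - p.2ᵀ) *ᵥ p.1) ⬝ᵥ ((T + T') *ᵥ p.1))
      ((hPLF (T - T')).mul (hPLF (T + T')))
      (G := fun p : (Fin n → ℂ) × Mat n => H p * (((p.2 - p.2ᵀ) *ᵥ p.1) ⬝ᵥ x0))
      (hH.mul (hPLc x0)) ?_ ?_ p
    · obtain ⟨q, hq1, hq2⟩ := PL.two hH (hPLc x0) hH0 (hnz x0 hx0)
      exact ⟨q, mul_ne_zero hq1 hq2⟩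
    · intro q hq
      have e1 := hHf q (left_ne_zero_of_mul hq)
      have e2 := f1 q.1 ((q.2 - q.2ᵀ) *ᵥ q.1) (hskew q.1 q.2) (right_ne_zero_of_mul hq)
      rw [Matrix.sub_mulVec T T', Matrix.add_mulVec, dotProduct_sub, dotProduct_add]
      have e3 : (((q.2 - q.2ᵀ) *ᵥ q.1) ⬝ᵥ (T' *ᵥ q.1)) ^ 2 =
          (((q.2 - q.2ᵀ) *ᵥ q.1) ⬝ᵥ (T *ᵥ q.1)) ^ 2 := by
        rcases e1 with e1 | e1
        · rcases e2 with e2 | e2
          · rw [e1, e2]
          · exact e2.symm
        · exact e1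
      linear_combination -e3
  have hone : (∀ p : (Fin n → ℂ) × Mat n,
      ((p.2 - p.2ᵀ) *ᵥ p.1) ⬝ᵥ ((T - T') *ᵥ p.1) = 0) ∨ (∀ p : (Fin n → ℂ) × Mat n,
      ((p.2 - p.2ᵀ) *ᵥ p.1) ⬝ᵥ ((T + T') *ᵥ p.1) = 0) := by
    by_contra hcon
    rw [not_or] at hcon
    push Not at hcon
    obtain ⟨h1, h2⟩ := hcon
    obtain ⟨q, hq1, hq2⟩ := PL.two (hPLF (T - T')) (hPLF (T + T')) h1 h2
    rcases hprod q with h3 | h3
    · exact hq1 h3
    · exact hq2 h3
  have hfin : ∀ Z : Mat n, (∀ p : (Fin n → ℂ) × Mat n,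
      ((p.2 - p.2ᵀ) *ᵥ p.1) ⬝ᵥ (Z *ᵥ p.1) = 0) → ∃ s : ℂ, Z = s • (1 : Mat n) := by
    intro Z hZ
    refine scalar_of_forms Z hn ?_
    intro u f hfu
    by_cases hu : u = 0
    · rw [hu]; simp
    obtain ⟨K, hK⟩ := exists_skew u f hu hfu
    have := hZ (u, K)
    simpa only [hK] using this
  rcases hone with h1 | h1
  · obtain ⟨s, hs⟩ := hfin _ h1
    refine ⟨-s, Or.inl ?_⟩
    rw [neg_smul, ← hs]; abel
  · obtain ⟨s, hs⟩ := hfin _ h1
    refine ⟨s, Or.inr ?_⟩
    rw [← hs]; abel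

theorem F_dual (p : Submodule ℂ (Fin n → ℂ)) (v : Fin n → ℂ) (hv : v ∉ p) :
    ∃ g : Fin n → ℂ, g ⬝ᵥ v = 1 ∧ ∀ u ∈ p, g ⬝ᵥ u = 0 := by
  obtain ⟨f, hf, hpf⟩ := Submodule.exists_le_ker_of_notMem hv
  have hrep : ∀ u : Fin n → ℂ,
      (fun i => f (fun j => if i = j then 1 else 0)) ⬝ᵥ u = f u := by
    intro u
    rw [LinearMap.pi_apply_eq_sum_univ f u]
    unfold dotProduct
    refine Finset.sum_congr rfl fun i _ => ?_
    rw [smul_eq_mul, mul_comm]
  refine ⟨(f v)⁻¹ • fun i => f (fun j => if i = j then 1 else 0), ?_, ?_⟩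
  · rw [smul_dotProduct, hrep, smul_eq_mul, inv_mul_cancel₀ hf]
  · intro u hu
    rw [smul_dotProduct, hrep, LinearMap.mem_ker.1 (hpf hu), smul_zero]

theorem F_eig (T : Mat n) (x : Fin n → ℂ) (μ : ℂ) (h : T *ᵥ x = μ • x) (p : ℂ[X]) :
    (aeval T p) *ᵥ x = p.eval μ • x := by
  have hk : ∀ k : ℕ, (T ^ k) *ᵥ x = μ ^ k • x := by
    intro k
    induction k with
    | zero => simp
    | succ k ih =>
      rw [pow_succ, ← mulVec_mulVec, h, mulVec_smul, ih, smul_smul, pow_succ, mul_comm]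
  induction p using Polynomial.induction_on' with
  | add p q hp hq => rw [map_add, add_mulVec, hp, hq, eval_add, add_smul]
  | monomial k c =>
    rw [aeval_monomial, eval_monomial, ← Algebra.smul_def, smul_mulVec, hk, smul_smul]

theorem F_aeval_conj (A Y : Mat n) (hA : IsUnit A) (p : ℂ[X]) :
    aeval (A * Y * A⁻¹) p = A * aeval Y p * A⁻¹ := by
  have hd : IsUnit A.det := (Matrix.isUnit_iff_isUnit_det A).1 hA
  have h1 : A⁻¹ * A = 1 := Matrix.nonsing_inv_mul A hd
  have h2 : A * A⁻¹ = 1 := Matrix.mul_nonsing_inv A hd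
  have hk : ∀ k : ℕ, (A * Y * A⁻¹) ^ k = A * Y ^ k * A⁻¹ := by
    intro k
    induction k with
    | zero => rw [pow_zero, pow_zero, mul_one, h2]
    | succ k ih =>
      rw [pow_succ, ih, pow_succ]
      calc A * Y ^ k * A⁻¹ * (A * Y * A⁻¹) = A * Y ^ k * (A⁻¹ * A) * Y * A⁻¹ := by
            simp only [mul_assoc]
        _ = A * (Y ^ k * Y) * A⁻¹ := by rw [h1]; simp only [mul_assoc, one_mul]
  induction p using Polynomial.induction_on' with
  | add p q hp hq => rw [map_add, map_add, hp, hq, mul_add, add_mul]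
  | monomial k c =>
    rw [aeval_monomial, aeval_monomial, ← Algebra.smul_def, ← Algebra.smul_def, hk,
      mul_smul_comm, smul_mul_assoc]

theorem F_LS_conj (A Y : Mat n) (hA : IsUnit A) (x0 : Fin n → ℂ) :
    localSpectrum (A * Y * A⁻¹) x0 = localSpectrum Y (A⁻¹ *ᵥ x0) := by
  have hd : IsUnit A.det := (Matrix.isUnit_iff_isUnit_det A).1 hA
  have h1 : A⁻¹ * A = 1 := Matrix.nonsing_inv_mul A hd
  have key : ∀ p : ℂ[X], (aeval (A * Y * A⁻¹) p) *ᵥ x0 = 0 ↔
      (aeval Y p) *ᵥ (A⁻¹ *ᵥ x0) = 0 := by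
    intro p
    rw [F_aeval_conj A Y hA p, ← mulVec_mulVec, ← mulVec_mulVec]
    constructor
    · intro h
      have h2 := congrArg (fun v => A⁻¹ *ᵥ v) h
      simp only [mulVec_mulVec, mulVec_zero] at h2
      rw [← mul_assoc, ← mul_assoc, h1, one_mul] at h2
      rw [mulVec_mulVec]
      exact h2
    · intro h
      rw [h, mulVec_zero]
  ext l
  rw [mem_localSpectrum_iff, mem_localSpectrum_iff]
  constructor
  · intro h p hp
    exact h p ((key p).2 hp)
  · intro h p hp
    exact h p ((key p).1 hp)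

/-- the commutator -/
def Xm (x0 z g h : Fin n → ℂ) : Mat n := vecMulVec x0 g - vecMulVec z h

theorem vMV (u v w : Fin n → ℂ) : vecMulVec u v *ᵥ w = (v ⬝ᵥ w) • u := by
  rw [vecMulVec_mulVec]
  ext i
  simp [mul_comm]

theorem Xm_comm (x0 z g h : Fin n → ℂ) (h1 : g ⬝ᵥ x0 = 1) (h2 : h ⬝ᵥ z = 1) :
    vecMulVec x0 h * vecMulVec z g - vecMulVec z g * vecMulVec x0 h = Xm x0 z g h := by
  unfold Xm
  rw [vecMulVec_mul_vecMulVec, vecMulVec_mul_vecMulVec, h1, h2, one_smul, one_smul]

theorem Xm_mulVec (x0 z g h w : Fin n → ℂ) :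
    Xm x0 z g h *ᵥ w = (g ⬝ᵥ w) • x0 - (h ⬝ᵥ w) • z := by
  unfold Xm
  rw [sub_mulVec, vMV, vMV]

theorem XmT_mulVec (x0 z g h w : Fin n → ℂ) :
    (Xm x0 z g h)ᵀ *ᵥ w = (x0 ⬝ᵥ w) • g - (z ⬝ᵥ w) • h := by
  unfold Xm
  rw [transpose_sub, transpose_vecMulVec, transpose_vecMulVec, sub_mulVec, vMV, vMV]

theorem not_mem_LS {T : Mat n} {x : Fin n → ℂ} (h : T *ᵥ x = x) {l : ℂ} (hl : l ≠ 1) :
    l ∉ localSpectrum T x := by
  intro hmem
  rw [mem_localSpectrum_iff] at hmem
  have h1 := hmem (X - C 1) (by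
    rw [map_sub, aeval_X, aeval_C, map_one, sub_mulVec, one_mulVec, h, sub_self])
  rw [eval_sub, eval_X, eval_C] at h1
  exact hl (sub_eq_zero.1 h1)

theorem F_case1 (x0 : Fin n → ℂ) (hx0 : x0 ≠ 0) (A : Mat n) (hA : IsUnit A)
    (h : ∀ T S : Mat n,
      localSpectrum (A * (T * S - S * T) * A⁻¹) x0 = localSpectrum (T * S - S * T) x0 ∨
      localSpectrum (-(A * (T * S - S * T) * A⁻¹)) x0 = localSpectrum (T * S - S * T) x0) :
    ∃ A' : Mat n, IsUnit A' ∧ A' *ᵥ x0 = x0 ∧ ∀ Y, A * Y * A⁻¹ = A' * Y * A'⁻¹ := by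
  have hd : IsUnit A.det := (Matrix.isUnit_iff_isUnit_det A).1 hA
  have hi1 : A⁻¹ * A = 1 := Matrix.nonsing_inv_mul A hd
  have hi2 : A * A⁻¹ = 1 := Matrix.mul_nonsing_inv A hd
  set y := A⁻¹ *ᵥ x0 with hy
  have hAy : A *ᵥ y = x0 := by rw [hy, mulVec_mulVec, hi2, one_mulVec]
  have hmain : ∃ a : ℂ, y = a • x0 := by
    by_contra hcon
    push Not at hcon
    set z := y - x0 with hz
    have hx0z : x0 ∉ Submodule.span ℂ {z} := by
      intro hmem
      obtain ⟨c, hc⟩ := Submodule.mem_span_singleton.1 hmem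
      have hc0 : c ≠ 0 := by
        rintro rfl
        rw [zero_smul] at hc
        exact hx0 hc.symm
      apply hcon (1 + c⁻¹)
      have : z = c⁻¹ • x0 := by rw [← hc, smul_smul, inv_mul_cancel₀ hc0, one_smul]
      rw [add_smul, one_smul, ← this, hz]
      abel
    have hzx0 : z ∉ Submodule.span ℂ {x0} := by
      intro hmem
      obtain ⟨c, hc⟩ := Submodule.mem_span_singleton.1 hmem
      apply hcon (1 + c)
      rw [add_smul, one_smul, hc, hz]
      abel
    obtain ⟨g, hg1, hg2⟩ := F_dual _ _ hx0z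
    obtain ⟨k, hk1, hk2⟩ := F_dual _ _ hzx0
    have hgz : g ⬝ᵥ z = 0 := hg2 z (Submodule.mem_span_singleton_self z)
    have hkx : k ⬝ᵥ x0 = 0 := hk2 x0 (Submodule.mem_span_singleton_self x0)
    have hXx : Xm x0 z g k *ᵥ x0 = x0 := by
      rw [Xm_mulVec, hg1, hkx, one_smul, zero_smul, sub_zero]
    have hXz : Xm x0 z g k *ᵥ z = (-1 : ℂ) • z := by
      rw [Xm_mulVec, hgz, hk1, one_smul, zero_smul, zero_sub, neg_smul, one_smul]
    have hyz : y = x0 + z := by rw [hz]; abel
    have hnot : (-1 : ℂ) ∉ localSpectrum (Xm x0 z g k) x0 := not_mem_LS hXx (by norm_num)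
    have m1 : (-1 : ℂ) ∈ localSpectrum (Xm x0 z g k) y := by
      rw [mem_localSpectrum_iff]
      intro p hp
      rw [hyz, mulVec_add, F_eig _ _ 1 (by rw [hXx, one_smul]) p, F_eig _ _ (-1) hXz p] at hp
      have h2 := congrArg (fun v => k ⬝ᵥ v) hp
      simp only [dotProduct_add, dotProduct_smul, hkx, hk1, dotProduct_zero, smul_eq_mul, mul_zero,
        mul_one, zero_add] at h2
      exact h2
    have m2 : (-1 : ℂ) ∈ localSpectrum (-(Xm x0 z g k)) y := by
      rw [mem_localSpectrum_iff]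
      intro p hp
      rw [hyz, mulVec_add, F_eig _ _ (-1) (by rw [neg_mulVec, hXx, neg_smul, one_smul]) p,
        F_eig _ _ 1 (by rw [neg_mulVec, hXz, neg_smul, neg_neg]) p] at hp
      have h2 := congrArg (fun v => g ⬝ᵥ v) hp
      simp only [dotProduct_add, dotProduct_smul, hg1, hgz, dotProduct_zero, smul_eq_mul, mul_zero,
        mul_one, add_zero] at h2
      exact h2
    have h3 := h (vecMulVec x0 k) (vecMulVec z g)
    rw [Xm_comm x0 z g k hg1 hk1] at h3
    rcases h3 with h3 | h3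
    · rw [F_LS_conj A _ hA, ← hy] at h3
      exact hnot (h3 ▸ m1)
    · have e : -(A * Xm x0 z g k * A⁻¹) = A * (-(Xm x0 z g k)) * A⁻¹ := by
        rw [mul_neg, neg_mul]
      rw [e, F_LS_conj A _ hA, ← hy] at h3
      exact hnot (h3 ▸ m2)
  obtain ⟨a, ha⟩ := hmain
  have ha0 : a ≠ 0 := by
    rintro rfl
    rw [zero_smul] at ha
    rw [ha, mulVec_zero] at hAy
    exact hx0 hAy.symm
  have hu : IsUnit (a • A) := by
    rw [Matrix.isUnit_iff_isUnit_det, det_smul]
    exact ((isUnit_iff_ne_zero.2 ha0).pow _).mul hd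
  refine ⟨a • A, hu, ?_, ?_⟩
  · rw [smul_mulVec, ← mulVec_smul, ← ha, hAy]
  · intro Y
    have hinv : (a • A)⁻¹ = a⁻¹ • A⁻¹ := by
      apply Matrix.inv_eq_right_inv
      rw [smul_mul_assoc, mul_smul_comm, smul_smul, mul_inv_cancel₀ ha0, one_smul, hi2]
    rw [hinv, smul_mul_assoc, smul_mul_assoc, mul_smul_comm, smul_smul, mul_inv_cancel₀ ha0,
      one_smul]

theorem F_range {M : Mat n} {y : Fin n → ℂ} (h : (0 : ℂ) ∉ localSpectrum M y) :
    ∃ v, y = M *ᵥ v := by
  rw [mem_localSpectrum_iff] at h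
  push Not at h
  obtain ⟨p, hp, hp0⟩ := h
  have h1 : X * p.divX + C (p.coeff 0) = p := by
    rw [mul_comm]; exact Polynomial.divX_mul_X_add p
  rw [← h1, map_add, map_mul, aeval_X, aeval_C, add_mulVec, Algebra.algebraMap_eq_smul_one,
    smul_mulVec, one_mulVec, ← mulVec_mulVec] at hp
  have h0 : p.coeff 0 ≠ 0 := by rwa [Polynomial.coeff_zero_eq_eval_zero]
  refine ⟨-(p.coeff 0)⁻¹ • (aeval M p.divX) *ᵥ y, ?_⟩
  rw [mulVec_smul, neg_smul, ← smul_neg]
  have h2 : p.coeff 0 • y = -(M *ᵥ (aeval M p.divX) *ᵥ y) := eq_neg_of_add_eq_zero_right hp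
  rw [← h2, smul_smul, inv_mul_cancel₀ h0, one_smul]

theorem F_out (s : Finset (Fin n → ℂ)) (hs : s.card < n) :
    ∃ v, v ∉ Submodule.span ℂ (s : Set (Fin n → ℂ)) := by
  by_contra hcon
  push Not at hcon
  have h1 : Submodule.span ℂ (s : Set (Fin n → ℂ)) = ⊤ := by
    rw [Submodule.eq_top_iff']
    exact hcon
  have h2 := finrank_span_finset_le_card (R := ℂ) s
  rw [Set.finrank, h1, finrank_top, Module.finrank_fin_fun] at h2
  omega

theorem F_case2 (hn : 3 ≤ n) (x0 : Fin n → ℂ) (hx0 : x0 ≠ 0) (A : Mat n) (hA : IsUnit A)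
    (h : ∀ T S : Mat n,
      localSpectrum (A * (T * S - S * T)ᵀ * A⁻¹) x0 = localSpectrum (T * S - S * T) x0 ∨
      localSpectrum (-(A * (T * S - S * T)ᵀ * A⁻¹)) x0 = localSpectrum (T * S - S * T) x0) :
    False := by
  classical
  have hd : IsUnit A.det := (Matrix.isUnit_iff_isUnit_det A).1 hA
  have hi1 : A⁻¹ * A = 1 := Matrix.nonsing_inv_mul A hd
  have hi2 : A * A⁻¹ = 1 := Matrix.mul_nonsing_inv A hd
  set y := A⁻¹ *ᵥ x0 with hy
  have hAy : A *ᵥ y = x0 := by rw [hy, mulVec_mulVec, hi2, one_mulVec]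
  have hy0 : y ≠ 0 := by
    intro h0
    rw [h0, mulVec_zero] at hAy
    exact hx0 hAy.symm
  obtain ⟨z, hz⟩ := F_out ({x0} : Finset (Fin n → ℂ)) (by rw [Finset.card_singleton]; omega)
  rw [Finset.coe_singleton] at hz
  have hz' : x0 ∉ Submodule.span ℂ {z} := by
    intro hmem
    obtain ⟨c, hc⟩ := Submodule.mem_span_singleton.1 hmem
    have hc0 : c ≠ 0 := by
      rintro rfl
      rw [zero_smul] at hc
      exact hx0 hc.symm
    apply hz
    rw [Submodule.mem_span_singleton]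
    exact ⟨c⁻¹, by rw [← hc, smul_smul, inv_mul_cancel₀ hc0, one_smul]⟩
  obtain ⟨v, hv⟩ := F_out ({x0, z} : Finset (Fin n → ℂ)) (by
    have := Finset.card_le_two (a := x0) (b := z)
    omega)
  obtain ⟨w, hw1, hw2⟩ := F_dual _ _ hv
  have hwx : w ⬝ᵥ x0 = 0 := hw2 x0 (Submodule.subset_span (by simp))
  have hwz : w ⬝ᵥ z = 0 := hw2 z (Submodule.subset_span (by simp))
  obtain ⟨g, hg1, hg2⟩ := F_dual _ _ hz'
  obtain ⟨k, hk1, hk2⟩ := F_dual _ _ hz
  have hgz : g ⬝ᵥ z = 0 := hg2 z (Submodule.mem_span_singleton_self z)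
  have hkx : k ⬝ᵥ x0 = 0 := hk2 x0 (Submodule.mem_span_singleton_self x0)
  have key : ∀ g k : Fin n → ℂ, g ⬝ᵥ x0 = 1 → k ⬝ᵥ z = 1 → g ⬝ᵥ z = 0 → k ⬝ᵥ x0 = 0 →
      ∃ α β : ℂ, y = α • g + β • k := by
    intro g k hg1 hk1 hgz hkx
    have hXx : Xm x0 z g k *ᵥ x0 = x0 := by
      rw [Xm_mulVec, hg1, hkx, one_smul, zero_smul, sub_zero]
    have hnot : (0 : ℂ) ∉ localSpectrum (Xm x0 z g k) x0 := not_mem_LS hXx (by norm_num)
    have h3 := h (vecMulVec x0 k) (vecMulVec z g)
    rw [Xm_comm x0 z g k hg1 hk1] at h3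
    rcases h3 with h3 | h3
    · rw [F_LS_conj A _ hA, ← hy] at h3
      rw [← h3] at hnot
      obtain ⟨u, hu⟩ := F_range hnot
      rw [XmT_mulVec] at hu
      exact ⟨x0 ⬝ᵥ u, -(z ⬝ᵥ u), by rw [hu, neg_smul, sub_eq_add_neg]⟩
    · have e : -(A * (Xm x0 z g k)ᵀ * A⁻¹) = A * (-(Xm x0 z g k)ᵀ) * A⁻¹ := by
        rw [mul_neg, neg_mul]
      rw [e, F_LS_conj A _ hA, ← hy] at h3
      rw [← h3] at hnot
      obtain ⟨u, hu⟩ := F_range hnot
      rw [neg_mulVec, XmT_mulVec] at hu
      exact ⟨-(x0 ⬝ᵥ u), z ⬝ᵥ u, by rw [hu, neg_smul]; abel⟩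
  have hw0 : w ≠ 0 := by
    rintro rfl
    rw [zero_dotProduct] at hw1
    exact zero_ne_one hw1
  obtain ⟨α, β, e1⟩ := key g k hg1 hk1 hgz hkx
  obtain ⟨α', β', e2⟩ := key (g + w) k (by rw [add_dotProduct, hg1, hwx, add_zero]) hk1
    (by rw [add_dotProduct, hgz, hwz, add_zero]) hkx
  obtain ⟨α'', β'', e3⟩ := key g (k + w) hg1 (by rw [add_dotProduct, hk1, hwz, add_zero]) hgz
    (by rw [add_dotProduct, hkx, hwx, add_zero])
  have a1 : y ⬝ᵥ x0 = α := by
    rw [e1, add_dotProduct, smul_dotProduct, smul_dotProduct, hg1, hkx]; simp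
  have a2 : y ⬝ᵥ z = β := by
    rw [e1, add_dotProduct, smul_dotProduct, smul_dotProduct, hgz, hk1]; simp
  have b1 : y ⬝ᵥ x0 = α' := by
    rw [e2, add_dotProduct, smul_dotProduct, smul_dotProduct, add_dotProduct, hg1, hkx, hwx]; simp
  have b2 : y ⬝ᵥ z = β' := by
    rw [e2, add_dotProduct, smul_dotProduct, smul_dotProduct, add_dotProduct, hgz, hk1, hwz]; simp
  have c1 : y ⬝ᵥ x0 = α'' := by
    rw [e3, add_dotProduct, smul_dotProduct, smul_dotProduct, add_dotProduct, hg1, hkx, hwx]; simp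
  have c2 : y ⬝ᵥ z = β'' := by
    rw [e3, add_dotProduct, smul_dotProduct, smul_dotProduct, add_dotProduct, hgz, hk1, hwz]; simp
  have d1 : α' = α := b1.symm.trans a1
  have d2 : β' = β := b2.symm.trans a2
  have d3 : α'' = α := c1.symm.trans a1
  have d4 : β'' = β := c2.symm.trans a2
  rw [d1, d2] at e2
  rw [d3, d4] at e3
  have f1 : α • w = 0 := by
    have : α • g + β • k = α • (g + w) + β • k := e1.symm.trans e2
    rw [smul_add] at this
    have h5 : α • g + (β • k) = α • g + (α • w + β • k) := by rw [this]; abel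
    have h6 := add_left_cancel h5
    have h7 : 0 + β • k = α • w + β • k := by rw [zero_add]; exact h6
    exact (add_right_cancel h7).symm
  have f2 : β • w = 0 := by
    have : α • g + β • k = α • g + β • (k + w) := e1.symm.trans e3
    have h6 := add_left_cancel this
    rw [smul_add] at h6
    have h7 : β • k + 0 = β • k + β • w := by rw [add_zero]; exact h6
    exact (add_left_cancel h7).symm
  have g1 : α = 0 := (smul_eq_zero.1 f1).resolve_right hw0
  have g2 : β = 0 := (smul_eq_zero.1 f2).resolve_right hw0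
  rw [g1, g2, zero_smul, zero_smul, add_zero] at e1
  exact hy0 e1

/-- TARGET -/
theorem stepF (hn : 2 ≤ n) (x0 : Fin n → ℂ) (hx0 : x0 ≠ 0) (A : Mat n) (hA : IsUnit A)
    (N : Mat n → Mat n) (hN : (∀ Y, N Y = A * Y * A⁻¹) ∨ (∀ Y, N Y = A * Yᵀ * A⁻¹))
    (h : ∀ T S : Mat n,
      localSpectrum (N (T * S - S * T)) x0 = localSpectrum (T * S - S * T) x0 ∨
      localSpectrum (-N (T * S - S * T)) x0 = localSpectrum (T * S - S * T) x0) :
    ∃ (A' : Mat n) (k' : ℂ), IsUnit A' ∧ (k' = 1 ∨ k' = -1) ∧ A' *ᵥ x0 = x0 ∧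
      ∀ Y, trace Y = 0 → N Y = k' • (A' * Y * A'⁻¹) := by
  rcases hN with hN | hN
  · simp only [hN] at h
    obtain ⟨A', h1, h2, h3⟩ := F_case1 x0 hx0 A hA h
    exact ⟨A', 1, h1, Or.inl rfl, h2, fun Y _ => by rw [hN, one_smul, h3]⟩
  · rcases Nat.lt_or_ge 2 n with h3 | h3
    · simp only [hN] at h
      exact (F_case2 h3 x0 hx0 A hA h).elim
    · obtain rfl : n = 2 := le_antisymm h3 hn
      have hd : IsUnit A.det := (Matrix.isUnit_iff_isUnit_det A).1 hA
      set J : Mat 2 := !![0, 1; -1, 0] with hJ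
      have hJd : J.det = 1 := by rw [hJ, Matrix.det_fin_two_of]; ring
      have hJi : J⁻¹ = !![0, -1; 1, 0] := by
        apply Matrix.inv_eq_right_inv
        rw [hJ]
        ext i j
        fin_cases i <;> fin_cases j <;> simp [Matrix.mul_apply, Fin.sum_univ_two]
      have hJY : ∀ Y : Mat 2, trace Y = 0 → Yᵀ = -(J * Y * J⁻¹) := by
        intro Y hY
        rw [Matrix.trace_fin_two] at hY
        rw [hJi, hJ]
        obtain ⟨a, b, c, d, rfl⟩ : ∃ a b c d, Y = !![a, b; c, d] :=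
          ⟨_, _, _, _, Matrix.eta_fin_two Y⟩
        have hY' : a + d = 0 := by simpa using hY
        rw [Matrix.mul_fin_two, Matrix.mul_fin_two]
        ext i j
        fin_cases i <;> fin_cases j <;> simp
        · linear_combination hY'
        · linear_combination hY'
      have hB : IsUnit (A * J) := by
        rw [Matrix.isUnit_iff_isUnit_det, det_mul, hJd, mul_one]
        exact hd
      have hinv : (A * J)⁻¹ = J⁻¹ * A⁻¹ := Matrix.mul_inv_rev A J
      have hNY : ∀ Y : Mat 2, trace Y = 0 → N Y = -((A * J) * Y * (A * J)⁻¹) := by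
        intro Y hY
        rw [hN, hJY Y hY, hinv, mul_neg, neg_mul]
        simp only [mul_assoc]
      have hcomm : ∀ T S : Mat 2, trace (T * S - S * T) = 0 := by
        intro T S
        rw [trace_sub, trace_mul_comm, sub_self]
      obtain ⟨A', h1, h2, h3⟩ := F_case1 x0 hx0 (A * J) hB (fun T S => by
        have h4 := h T S
        rw [hNY _ (hcomm T S), neg_neg] at h4
        exact h4.symm)
      exact ⟨A', -1, h1, Or.inr rfl, h2, fun Y hY => by
        rw [hNY Y hY, h3, neg_smul, one_smul]⟩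

theorem sc_exists_mat {m : ℕ} (v w : Fin m → Fin n → ℂ) (hv : LinearIndependent ℂ v) :
    ∃ S : Mat n, ∀ i, S *ᵥ v i = w i := by
  obtain ⟨g, hg⟩ := LinearMap.exists_extend ((Finsupp.linearCombination ℂ w).comp hv.repr)
  refine ⟨LinearMap.toMatrix' g, fun i => ?_⟩
  rw [LinearMap.toMatrix'_mulVec]
  have h1 := LinearMap.congr_fun hg ⟨v i, Submodule.subset_span (Set.mem_range_self i)⟩
  have h2 : hv.repr ⟨v i, Submodule.subset_span (Set.mem_range_self i)⟩ = Finsupp.single i 1 :=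
    hv.repr_eq_single i _ rfl
  rw [LinearMap.comp_apply, LinearMap.comp_apply, h2, Finsupp.linearCombination_single,
    one_smul] at h1
  exact h1

theorem sc_ind2 {x y : Fin n → ℂ} (h : ∀ s t : ℂ, s • x + t • y = 0 → s = 0 ∧ t = 0) :
    LinearIndependent ℂ ![x, y] := LinearIndependent.pair_iff.mpr h

theorem sc_ind3 {x y z : Fin n → ℂ}
    (h : ∀ s t u : ℂ, s • x + t • y + u • z = 0 → s = 0 ∧ t = 0 ∧ u = 0) :
    LinearIndependent ℂ ![x, y, z] := by
  rw [Fintype.linearIndependent_iff]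
  intro g hg
  rw [Fin.sum_univ_three] at hg
  have h1 := h (g 0) (g 1) (g 2) hg
  intro i
  fin_cases i
  · exact h1.1
  · exact h1.2.1
  · exact h1.2.2

/-- nonsymmetric local spectrum -/
def scNS (x0 : Fin n → ℂ) (X : Mat n) : Prop :=
  ∃ l ∈ localSpectrum X x0, -l ∉ localSpectrum X x0

theorem sc_aeval_eig (X : Mat n) (u : Fin n → ℂ) (η : ℂ) (h : X *ᵥ u = η • u) (p : ℂ[X]) :
    (aeval X p) *ᵥ u = p.eval η • u := by
  induction p using Polynomial.induction_on' with
  | add p q hp hq => rw [map_add, Matrix.add_mulVec, hp, hq, eval_add, add_smul]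
  | monomial k a =>
    rw [aeval_monomial, eval_monomial]
    have hk : ∀ k : ℕ, (X ^ k) *ᵥ u = η ^ k • u := by
      intro k
      induction k with
      | zero => simp
      | succ k ih =>
        rw [pow_succ, ← Matrix.mulVec_mulVec, h, Matrix.mulVec_smul, ih, smul_smul, pow_succ]
        ring_nf
    rw [Algebra.algebraMap_eq_smul_one, smul_mul_assoc, one_mul, Matrix.smul_mulVec, hk, smul_smul]

theorem sc_C2 (x0 : Fin n → ℂ) (X : Mat n) (η : ℂ) (hη : η ≠ 0) (hu : X *ᵥ x0 ≠ 0)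
    (hX : X *ᵥ (X *ᵥ x0) = η • (X *ᵥ x0)) : scNS x0 X := by
  refine ⟨η, ?_, ?_⟩
  · rw [mem_localSpectrum_iff]
    intro p hp
    have h1 := sc_aeval_eig X (X *ᵥ x0) η hX p
    have h2 : (aeval X p) *ᵥ (X *ᵥ x0) = 0 := by
      have hc : aeval X p * X = X * aeval X p := by
        have h3 : aeval X (p * Polynomial.X) = aeval X (Polynomial.X * p) := by
          rw [mul_comm]
        rw [map_mul, map_mul, aeval_X] at h3
        exact h3
      rw [Matrix.mulVec_mulVec, hc, ← Matrix.mulVec_mulVec, hp, Matrix.mulVec_zero]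
    rw [h2] at h1
    rcases smul_eq_zero.mp h1.symm with h | h
    · exact h
    · exact absurd h hu
  · rw [mem_localSpectrum_iff]
    intro h
    have h1 := h (Polynomial.X * (Polynomial.X - Polynomial.C η)) (by
      rw [map_mul, map_sub, aeval_X, aeval_C, Algebra.algebraMap_eq_smul_one,
        ← Matrix.mulVec_mulVec, Matrix.sub_mulVec, Matrix.smul_mulVec, Matrix.one_mulVec,
        Matrix.mulVec_sub, Matrix.mulVec_smul, hX, sub_self])
    rw [eval_mul, eval_sub, eval_X, eval_C] at h1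
    rcases mul_eq_zero.mp h1 with h2 | h2
    · exact hη (neg_eq_zero.mp h2)
    · apply hη
      have : -(2 : ℂ) * η = 0 := by linear_combination h2
      rcases mul_eq_zero.mp this with h3 | h3
      · norm_num at h3
      · exact h3

theorem sc_C1 (x0 : Fin n → ℂ) (hx0 : x0 ≠ 0) (X : Mat n) (b : ℂ) (hb : b ≠ 0)
    (hX : X *ᵥ x0 = b • x0) : scNS x0 X := by
  refine sc_C2 x0 X b hb ?_ ?_
  · rw [hX]; exact smul_ne_zero hb hx0
  · rw [hX, Matrix.mulVec_smul, hX]

theorem sc_C3 (x0 : Fin n → ℂ) (hx0 : x0 ≠ 0) (X : Mat n) (c : ℂ) (hc : c ≠ 0)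
    (hX : X *ᵥ (X *ᵥ (X *ᵥ x0)) = c • x0) : scNS x0 X := by
  have hp : (aeval X (Polynomial.X ^ 3 - Polynomial.C c)) *ᵥ x0 = 0 := by
    rw [map_sub, map_pow, aeval_X, aeval_C, Algebra.algebraMap_eq_smul_one, Matrix.sub_mulVec,
      Matrix.smul_mulVec, Matrix.one_mulVec, pow_succ, pow_two, ← Matrix.mulVec_mulVec,
      ← Matrix.mulVec_mulVec, hX, sub_self]
  obtain ⟨s, hs, hs2⟩ := exists_ann X x0
  have hne : s.Nonempty := by
    rw [Finset.nonempty_iff_ne_empty]
    rintro rfl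
    rw [Finset.prod_empty, map_one, Matrix.one_mulVec] at hs2
    exact hx0 hs2
  obtain ⟨l, hl⟩ := hne
  have hl' : l ∈ localSpectrum X x0 := by rw [← hs]; exact_mod_cast hl
  refine ⟨l, hl', ?_⟩
  intro hl2
  rw [mem_localSpectrum_iff] at hl' hl2
  have h1 := hl' _ hp
  have h2 := hl2 _ hp
  rw [eval_sub, eval_pow, eval_X, eval_C] at h1 h2
  apply hc
  linear_combination -(h1 + h2) / 2

theorem sc_neg (x0 : Fin n → ℂ) (X : Mat n) (l : ℂ) :
    l ∈ localSpectrum (-X) x0 ↔ -l ∈ localSpectrum X x0 := by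
  have key : ∀ (Y : Mat n) (p : ℂ[X]), aeval (-Y) p = aeval Y (p.comp (-Polynomial.X)) := by
    intro Y p
    rw [aeval_comp, map_neg, aeval_X]
  have imp : ∀ (Y : Mat n) (m : ℂ), m ∈ localSpectrum (-Y) x0 → -m ∈ localSpectrum Y x0 := by
    intro Y m hm
    rw [mem_localSpectrum_iff] at hm ⊢
    intro p hp
    have h1 := hm (p.comp (-Polynomial.X)) (by
      rw [← key, neg_neg]; exact hp)
    rw [eval_comp] at h1
    simpa using h1
  constructor
  · exact imp X l
  · intro h
    have := imp (-X) (-l) (by rwa [neg_neg])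
    rwa [neg_neg] at this

theorem sc_eps (x0 : Fin n → ℂ) (X : Mat n) (hX : scNS x0 X) (c : ℂ) (hc : c = 1 ∨ c = -1)
    (h : localSpectrum (c • X) x0 = localSpectrum X x0) : c = 1 := by
  rcases hc with hc | hc
  · exact hc
  · exfalso
    rw [hc, neg_smul, one_smul] at h
    obtain ⟨l, hl, hl2⟩ := hX
    apply hl2
    rw [← sc_neg, h]
    exact hl

theorem sc_comm (T S : Mat n) (v : Fin n → ℂ) :
    (T * S - S * T) *ᵥ v = T *ᵥ (S *ᵥ v) - S *ᵥ (T *ᵥ v) := by
  rw [Matrix.sub_mulVec, ← Matrix.mulVec_mulVec, ← Matrix.mulVec_mulVec]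

theorem sc_dual {x0 y : Fin n → ℂ} (h : ¬ ∃ a : ℂ, y = a • x0) :
    ∃ f : (Fin n → ℂ) →ₗ[ℂ] ℂ, f x0 = 0 ∧ f y ≠ 0 := by
  have hy : y ∉ Submodule.span ℂ {x0} := by
    rw [Submodule.mem_span_singleton]
    rintro ⟨a, ha⟩
    exact h ⟨a, ha.symm⟩
  obtain ⟨f, hf, hf2⟩ := Submodule.exists_dual_map_eq_bot_of_notMem hy inferInstance
  refine ⟨f, ?_, hf⟩
  have : f x0 ∈ Submodule.map f (Submodule.span ℂ {x0}) :=
    Submodule.mem_map_of_mem (Submodule.mem_span_singleton_self x0)
  rw [hf2] at this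
  simpa using this

theorem sc_dual2 {x0 y1 y2 : Fin n → ℂ} (h1 : ¬ ∃ a : ℂ, y1 = a • x0)
    (h2 : ¬ ∃ a : ℂ, y2 = a • x0) :
    ∃ f : (Fin n → ℂ) →ₗ[ℂ] ℂ, f x0 = 0 ∧ f y1 ≠ 0 ∧ f y2 ≠ 0 := by
  obtain ⟨f1, hf1, hf1'⟩ := sc_dual h1
  obtain ⟨f2, hf2, hf2'⟩ := sc_dual h2
  by_cases ha : f1 y2 = 0
  · by_cases hb : f2 y1 = 0
    · refine ⟨f1 + f2, by simp [hf1, hf2], ?_, ?_⟩
      · simpa [hb] using hf1'
      · simpa [ha] using hf2'
    · exact ⟨f2, hf2, hb, hf2'⟩
  · exact ⟨f1, hf1, hf1', ha⟩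

/-- two matrices for which `x0` is not an eigenvector -/
theorem sc_caseA (x0 : Fin n → ℂ) (hx0 : x0 ≠ 0) (T1 T2 : Mat n)
    (h1 : ¬ ∃ a : ℂ, T1 *ᵥ x0 = a • x0) (h2 : ¬ ∃ a : ℂ, T2 *ᵥ x0 = a • x0) :
    ∃ S : Mat n, scNS x0 (T1 * S - S * T1) ∧ scNS x0 (T2 * S - S * T2) := by
  obtain ⟨f, hf0, hf1, hf2⟩ := sc_dual2 h1 h2
  have hS : ∀ v, (LinearMap.toMatrix' (f.smulRight x0)) *ᵥ v = f v • x0 := by
    intro v
    rw [LinearMap.toMatrix'_mulVec]
    rfl
  refine ⟨LinearMap.toMatrix' (f.smulRight x0), ?_, ?_⟩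
  · refine sc_C1 x0 hx0 _ (-(f (T1 *ᵥ x0))) (neg_ne_zero.mpr hf1) ?_
    rw [sc_comm, hS, hS, hf0, zero_smul, Matrix.mulVec_zero, zero_sub, neg_smul]
  · refine sc_C1 x0 hx0 _ (-(f (T2 *ᵥ x0))) (neg_ne_zero.mpr hf2) ?_
    rw [sc_comm, hS, hS, hf0, zero_smul, Matrix.mulVec_zero, zero_sub, neg_smul]

/-- a matrix which acts as scalar on every line of its range is a multiple of its square -/
theorem sc_range (T : Mat n) (h : ∀ w, ∃ c : ℂ, T *ᵥ (T *ᵥ w) = c • (T *ᵥ w)) :
    ∃ c : ℂ, T * T = c • T := by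
  by_cases hT : ∀ w, T *ᵥ w = 0
  · refine ⟨0, ?_⟩
    rw [zero_smul]
    apply Matrix.mulVec_injective
    funext w
    rw [← Matrix.mulVec_mulVec, hT, Matrix.zero_mulVec]
  · push Not at hT
    obtain ⟨w0, hw0⟩ := hT
    obtain ⟨c0, hc0⟩ := h w0
    refine ⟨c0, ?_⟩
    apply Matrix.mulVec_injective
    funext w
    rw [← Matrix.mulVec_mulVec, Matrix.smul_mulVec]
    by_cases hd : ∃ b : ℂ, T *ᵥ w = b • (T *ᵥ w0)
    · obtain ⟨b, hb⟩ := hd
      rw [hb, Matrix.mulVec_smul, hc0, smul_comm]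
    · obtain ⟨c, hc⟩ := h w
      obtain ⟨c', hc'⟩ := h (w + w0)
      rw [Matrix.mulVec_add, Matrix.mulVec_add, hc, hc0] at hc'
      have h1 : (c - c') • (T *ᵥ w) = (c' - c0) • (T *ᵥ w0) := by
        rw [sub_smul, sub_smul]
        rw [smul_add] at hc'
        have := hc'
        linear_combination (exp := 1) this
      have h2 : c - c' = 0 := by
        by_contra hne
        apply hd
        refine ⟨(c - c')⁻¹ * (c' - c0), ?_⟩
        rw [mul_smul, ← h1, smul_smul, inv_mul_cancel₀ hne, one_smul]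
      rw [h2, zero_smul] at h1
      have h3 : c' - c0 = 0 := by
        rcases smul_eq_zero.mp h1.symm with h | h
        · exact h
        · exact absurd h hw0
      rw [hc]
      have : c = c0 := by linear_combination h2 + h3
      rw [this]

/-- linking with a matrix of the first kind -/
theorem sc_link (x0 : Fin n → ℂ) (hx0 : x0 ≠ 0) (T : Mat n) (hT : T ∉ excSet x0)
    (a : ℂ) (ha : T *ᵥ x0 = a • x0) :
    ∃ S : Mat n, (¬ ∃ b : ℂ, S *ᵥ x0 = b • x0) ∧ scNS x0 (T * S - S * T) := by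
  -- normalise
  have hexc : ∀ r s : ℂ, s ≠ 0 → (T - r • (1 : Mat n)) ^ 2 ≠ s • (1 : Mat n) := by
    intro r s hs h
    exact hT ⟨⟨a, ha⟩, r, s, hs, h⟩
  set R : Mat n := T - a • (1 : Mat n) with hR
  have hcomm : ∀ S : Mat n, T * S - S * T = R * S - S * R := by
    intro S
    rw [hR]
    simp only [sub_mul, mul_sub, smul_mul_assoc, mul_smul_comm, one_mul, mul_one]
    abel
  have hR0 : R *ᵥ x0 = 0 := by
    rw [hR, Matrix.sub_mulVec, ha, Matrix.smul_mulVec, Matrix.one_mulVec, sub_self]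
  have hRne : R ≠ 0 := by
    intro h0
    apply hexc (a - 1) 1 one_ne_zero
    have : T - (a - 1) • (1 : Mat n) = 1 := by
      have : T = a • (1 : Mat n) := sub_eq_zero.mp h0
      rw [this, sub_smul, one_smul]; abel
    rw [this, one_pow, one_smul]
  have hRsq : ∀ c : ℂ, c ≠ 0 → R * R ≠ c • R := by
    intro c hc h
    apply hexc (a + c / 2) (c ^ 2 / 4) (div_ne_zero (pow_ne_zero 2 hc) (by norm_num))
    have h1 : T - (a + c / 2) • (1 : Mat n) = R - (c / 2) • (1 : Mat n) := by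
      rw [hR, add_smul]; abel
    clear_value R
    rw [h1, pow_two, sub_mul, mul_sub, mul_sub, h]
    simp only [smul_mul_assoc, mul_smul_comm, one_mul, mul_one, smul_smul]
    have h2 : c • R - (c / 2) • R - ((c / 2) • R - (c / 2 * (c / 2)) • (1 : Mat n))
        = (c - c / 2 - c / 2) • R + (c / 2 * (c / 2)) • (1 : Mat n) := by
      rw [sub_smul, sub_smul]; abel
    rw [h2]
    have h3 : c - c / 2 - c / 2 = 0 := by ring
    rw [h3, zero_smul, zero_add]
    congr 1
    ring
  -- if `S x0 = w` with `R w ≠ 0` then `x0` is no eigenvector of `S`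
  have hcase : ∀ (S : Mat n) (w : Fin n → ℂ), S *ᵥ x0 = w → R *ᵥ w ≠ 0 →
      ¬ ∃ b : ℂ, S *ᵥ x0 = b • x0 := by
    rintro S w hS hw ⟨b, hb⟩
    apply hw
    rw [← hS, hb, Matrix.mulVec_smul, hR0, smul_zero]
  by_cases hsq : R * R = 0
  · -- R² = 0
    obtain ⟨w, hw⟩ : ∃ w, R *ᵥ w ≠ 0 := by
      by_contra hcon
      push Not at hcon
      apply hRne
      apply Matrix.mulVec_injective
      funext w
      rw [hcon, Matrix.zero_mulVec]
    have hRu : R *ᵥ (R *ᵥ w) = 0 := by
      rw [Matrix.mulVec_mulVec, hsq, Matrix.zero_mulVec]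
    by_cases hd : ∃ b : ℂ, R *ᵥ w = b • x0
    · obtain ⟨b, hb⟩ := hd
      obtain ⟨S, hS⟩ := sc_exists_mat (n := n) ![x0] ![w] (by
        rw [linearIndependent_unique_iff]
        exact hx0)
      have hS0 : S *ᵥ x0 = w := hS 0
      refine ⟨S, hcase S w hS0 hw, ?_⟩
      refine sc_C1 x0 hx0 _ b ?_ ?_
      · rintro rfl
        rw [zero_smul] at hb
        exact hw hb
      · rw [hcomm, sc_comm, hS0, hR0, Matrix.mulVec_zero, sub_zero, hb]
    · obtain ⟨S, hS⟩ := sc_exists_mat (n := n) ![x0, R *ᵥ w] ![w, w] (by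
        apply sc_ind2
        intro s t hst
        have ht : t = 0 := by
          by_contra ht
          apply hd
          refine ⟨-(t⁻¹ * s), ?_⟩
          have h1 : t • (R *ᵥ w) = -(s • x0) := by
            rw [eq_neg_iff_add_eq_zero, add_comm]; exact hst
          rw [neg_smul, mul_smul, ← smul_neg, ← h1, smul_smul, inv_mul_cancel₀ ht, one_smul]
        rw [ht, zero_smul, add_zero] at hst
        rcases smul_eq_zero.mp hst with h | h
        · exact ⟨h, ht⟩
        · exact absurd h hx0)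
      have hS0 : S *ᵥ x0 = w := hS 0
      have hS1 : S *ᵥ (R *ᵥ w) = w := hS 1
      refine ⟨S, hcase S w hS0 hw, ?_⟩
      rw [hcomm]
      have hX0 : (R * S - S * R) *ᵥ x0 = R *ᵥ w := by
        rw [sc_comm, hS0, hR0, Matrix.mulVec_zero, sub_zero]
      refine sc_C2 x0 _ 1 one_ne_zero ?_ ?_
      · rw [hX0]; exact hw
      · rw [hX0, sc_comm, hS1, hRu, Matrix.mulVec_zero, sub_zero, one_smul]
  · -- there is `w` with `R w`, `R² w` independent
    obtain ⟨w, hw⟩ : ∃ w, ¬ ∃ c : ℂ, R *ᵥ (R *ᵥ w) = c • (R *ᵥ w) := by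
      by_contra hcon
      push Not at hcon
      obtain ⟨c, hc⟩ := sc_range R hcon
      by_cases hc0 : c = 0
      · rw [hc0, zero_smul] at hc
        exact hsq hc
      · exact hRsq c hc0 hc
    set u := R *ᵥ w with hu
    set u2 := R *ᵥ u with hu2
    have hu2ne : u2 ≠ 0 := by
      intro h0
      apply hw
      exact ⟨0, by rw [h0, zero_smul]⟩
    have hune : u ≠ 0 := by
      intro h0
      apply hu2ne
      rw [hu2, h0, Matrix.mulVec_zero]
    have huu2 : ∀ s t : ℂ, s • u + t • u2 = 0 → s = 0 ∧ t = 0 := by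
      intro s t hst
      have ht : t = 0 := by
        by_contra ht
        apply hw
        refine ⟨-(t⁻¹ * s), ?_⟩
        have h1 : t • u2 = -(s • u) := by
          rw [eq_neg_iff_add_eq_zero, add_comm]; exact hst
        rw [neg_smul, mul_smul, ← smul_neg, ← h1, smul_smul, inv_mul_cancel₀ ht, one_smul]
      rw [ht, zero_smul, add_zero] at hst
      rcases smul_eq_zero.mp hst with h | h
      · exact ⟨h, ht⟩
      · exact absurd h hune
    have hx0u : ∀ s t : ℂ, s • x0 + t • u = 0 → s = 0 ∧ t = 0 := by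
      intro s t hst
      have h1 : t • u2 = 0 := by
        have := congrArg (fun v => R *ᵥ v) hst
        simp only [Matrix.mulVec_add, Matrix.mulVec_smul, hR0, smul_zero, zero_add,
          Matrix.mulVec_zero] at this
        exact this
      have ht : t = 0 := by
        rcases smul_eq_zero.mp h1 with h | h
        · exact h
        · exact absurd h hu2ne
      rw [ht, zero_smul, add_zero] at hst
      rcases smul_eq_zero.mp hst with h | h
      · exact ⟨h, ht⟩
      · exact absurd h hx0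
    by_cases hspan : ∃ a' b' : ℂ, u2 = a' • x0 + b' • u
    · obtain ⟨a', b', hab⟩ := hspan
      have ha' : a' ≠ 0 := by
        rintro rfl
        apply hw
        exact ⟨b', by rw [hab, zero_smul, zero_add]⟩
      by_cases hb' : b' = 0
      · -- third kind
        have hu2' : u2 = a' • x0 := by rw [hab, hb', zero_smul, add_zero]
        obtain ⟨S, hS⟩ := sc_exists_mat (n := n) ![x0, u, w] ![w, 0, (-(1 / a' ^ 2)) • u] (by
          apply sc_ind3
          intro s t r hst
          have h1 : r • u + t • u2 = 0 := by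
            have := congrArg (fun v => R *ᵥ v) hst
            simp only [Matrix.mulVec_add, Matrix.mulVec_smul, hR0, smul_zero, zero_add,
              Matrix.mulVec_zero] at this
            rw [add_comm]
            exact this
          obtain ⟨hr, ht⟩ := huu2 r t h1
          rw [hr, ht, zero_smul, zero_smul, add_zero, add_zero] at hst
          rcases smul_eq_zero.mp hst with h | h
          · exact ⟨h, ht, hr⟩
          · exact absurd h hx0)
        have hS0 : S *ᵥ x0 = w := hS 0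
        have hS1 : S *ᵥ u = 0 := hS 1
        have hS2 : S *ᵥ w = (-(1 / a' ^ 2)) • u := hS 2
        refine ⟨S, hcase S w hS0 hune, ?_⟩
        rw [hcomm]
        have hX0 : (R * S - S * R) *ᵥ x0 = u := by
          rw [sc_comm, hS0, hR0, Matrix.mulVec_zero, sub_zero]
        have hX1 : (R * S - S * R) *ᵥ u = -(a' • w) := by
          rw [sc_comm, hS1, Matrix.mulVec_zero, ← hu2, hu2', Matrix.mulVec_smul, hS0, zero_sub]
        have hX2 : (R * S - S * R) *ᵥ w = (-(1 / a' ^ 2) * a') • x0 := by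
          rw [sc_comm, hS2, Matrix.mulVec_smul, ← hu2, ← hu, hS1, sub_zero, hu2', smul_smul]
        refine sc_C3 x0 hx0 _ 1 one_ne_zero ?_
        rw [hX0, hX1, Matrix.mulVec_neg, Matrix.mulVec_smul, hX2, smul_smul, ← neg_smul]
        congr 1
        field_simp
      · -- second kind
        obtain ⟨S, hS⟩ := sc_exists_mat (n := n) ![x0, u] ![w, (-(a' / b')) • w] (sc_ind2 hx0u)
        have hS0 : S *ᵥ x0 = w := hS 0
        have hS1 : S *ᵥ u = (-(a' / b')) • w := hS 1
        refine ⟨S, hcase S w hS0 hune, ?_⟩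
        rw [hcomm]
        have hX0 : (R * S - S * R) *ᵥ x0 = u := by
          rw [sc_comm, hS0, hR0, Matrix.mulVec_zero, sub_zero]
        have hSu2 : S *ᵥ u2 = 0 := by
          rw [hab, Matrix.mulVec_add, Matrix.mulVec_smul, Matrix.mulVec_smul, hS0, hS1, smul_smul,
            ← add_smul]
          have : a' + b' * -(a' / b') = 0 := by field_simp; ring
          rw [this, zero_smul]
        refine sc_C2 x0 _ (-(a' / b')) (neg_ne_zero.mpr (div_ne_zero ha' hb')) ?_ ?_
        · rw [hX0]; exact hune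
        · rw [hX0, sc_comm, hS1, Matrix.mulVec_smul, ← hu, ← hu2, hSu2, sub_zero]
    · -- first kind
      obtain ⟨S, hS⟩ := sc_exists_mat (n := n) ![x0, u, u2] ![w, w, 0] (by
        apply sc_ind3
        intro s t r hst
        have hr : r = 0 := by
          by_contra hr
          apply hspan
          refine ⟨-(r⁻¹ * s), -(r⁻¹ * t), ?_⟩
          have h1 : r • u2 = -(s • x0 + t • u) := by
            rw [eq_neg_iff_add_eq_zero, add_comm]; exact hst
          have h2 : u2 = r⁻¹ • (-(s • x0 + t • u)) := by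
            rw [← h1, smul_smul, inv_mul_cancel₀ hr, one_smul]
          rw [h2, smul_neg, smul_add, smul_smul, smul_smul, neg_smul, neg_smul, neg_add]
        rw [hr, zero_smul, add_zero] at hst
        obtain ⟨h1, h2⟩ := hx0u s t hst
        exact ⟨h1, h2, hr⟩)
      have hS0 : S *ᵥ x0 = w := hS 0
      have hS1 : S *ᵥ u = w := hS 1
      have hS2 : S *ᵥ u2 = 0 := hS 2
      refine ⟨S, hcase S w hS0 hune, ?_⟩
      rw [hcomm]
      have hX0 : (R * S - S * R) *ᵥ x0 = u := by
        rw [sc_comm, hS0, hR0, Matrix.mulVec_zero, sub_zero]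
      refine sc_C2 x0 _ 1 one_ne_zero ?_ ?_
      · rw [hX0]; exact hune
      · rw [hX0, sc_comm, hS1, ← hu2, hS2, sub_zero, one_smul]

theorem sc_conj (x0 : Fin n → ℂ) (R C C' : Mat n) (hR : ∀ v, R *ᵥ v = 0 → v = 0) (a : ℂ)
    (ha : a ≠ 0) (hRx : R *ᵥ x0 = a • x0) (hC : R * C = C' * R) :
    localSpectrum C' x0 = localSpectrum C x0 := by
  have hp : ∀ p : ℂ[X], (aeval C' p) * R = R * (aeval C p) := by
    intro p
    induction p using Polynomial.induction_on' with
    | add p q hp hq => rw [map_add, map_add, add_mul, mul_add, hp, hq]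
    | monomial k b =>
      have hk : R * C ^ k = C' ^ k * R := (SemiconjBy.pow_right (a := R) (x := C) (y := C') hC k)
      rw [aeval_monomial, aeval_monomial, Algebra.algebraMap_eq_smul_one, smul_mul_assoc, one_mul,
        smul_mul_assoc, smul_mul_assoc, one_mul, mul_smul_comm, hk]
  have hiff : ∀ p : ℂ[X], (aeval C' p) *ᵥ x0 = 0 ↔ (aeval C p) *ᵥ x0 = 0 := by
    intro p
    have h1 : a • ((aeval C' p) *ᵥ x0) = R *ᵥ ((aeval C p) *ᵥ x0) := by
      rw [Matrix.mulVec_mulVec, ← hp, ← Matrix.mulVec_mulVec, hRx, Matrix.mulVec_smul]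
    constructor
    · intro h
      rw [h, smul_zero] at h1
      exact hR _ h1.symm
    · intro h
      rw [h, Matrix.mulVec_zero] at h1
      rcases smul_eq_zero.mp h1 with h2 | h2
      · exact absurd h2 ha
      · exact h2
  ext l
  rw [mem_localSpectrum_iff, mem_localSpectrum_iff]
  constructor
  · intro h p h1
    exact h p ((hiff p).mpr h1)
  · intro h p h1
    exact h p ((hiff p).mp h1)

theorem sc_exc (x0 : Fin n → ℂ) (hx0 : x0 ≠ 0) (T : Mat n) (hT : T ∈ excSet x0) :
    ∃ (R : Mat n) (a s : ℂ), s ≠ 0 ∧ R * R = s • (1 : Mat n) ∧ a ≠ 0 ∧ R *ᵥ x0 = a • x0 ∧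
      (∀ v, R *ᵥ v = 0 → v = 0) ∧ ∀ S : Mat n, T * S - S * T = R * S - S * R := by
  obtain ⟨⟨b, hb⟩, r, s, hs, hrs⟩ := hT
  have hRR : (T - r • (1 : Mat n)) * (T - r • (1 : Mat n)) = s • (1 : Mat n) := by
    rw [← pow_two]; exact hrs
  have hRx : (T - r • (1 : Mat n)) *ᵥ x0 = (b - r) • x0 := by
    rw [Matrix.sub_mulVec, hb, Matrix.smul_mulVec, Matrix.one_mulVec, sub_smul]
  have hinj : ∀ v, (T - r • (1 : Mat n)) *ᵥ v = 0 → v = 0 := by
    intro v hv
    have h1 : (s • (1 : Mat n)) *ᵥ v = 0 := by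
      rw [← hRR, ← Matrix.mulVec_mulVec, hv, Matrix.mulVec_zero]
    rw [Matrix.smul_mulVec, Matrix.one_mulVec] at h1
    rcases smul_eq_zero.mp h1 with h | h
    · exact absurd h hs
    · exact h
  refine ⟨T - r • (1 : Mat n), b - r, s, hs, hRR, ?_, hRx, hinj, ?_⟩
  · intro h0
    rw [h0, zero_smul] at hRx
    exact hx0 (hinj _ hRx)
  · intro S
    simp only [sub_mul, mul_sub, smul_mul_assoc, mul_smul_comm, one_mul, mul_one]
    abel

/-- TARGET 1 -/
theorem stepH (hn : 2 ≤ n) (x0 : Fin n → ℂ) (hx0 : x0 ≠ 0) (ε : Mat n → ℂ) (κ : ℂ)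
    (hκ : κ = 1 ∨ κ = -1) (hε : ∀ T, ε T = 1 ∨ ε T = -1)
    (h : ∀ T S : Mat n,
      localSpectrum ((κ * ε T * ε S) • (T * S - S * T)) x0 = localSpectrum (T * S - S * T) x0) :
    κ = 1 ∧ ∀ T S, T ∉ excSet x0 → S ∉ excSet x0 → ε T = ε S := by
  have hsign : ∀ T S : Mat n, κ * ε T * ε S = 1 ∨ κ * ε T * ε S = -1 := by
    intro T S
    rcases hκ with h1 | h1 <;> rcases hε T with h2 | h2 <;> rcases hε S with h3 | h3 <;>
      rw [h1, h2, h3] <;> norm_num
  have hprod : ∀ T S : Mat n, scNS x0 (T * S - S * T) → κ * ε T * ε S = 1 := fun T S hns =>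
    sc_eps x0 _ hns _ (hsign T S) (h T S)
  -- κ = 1
  have hκ1 : κ = 1 := by
    obtain ⟨z, hz⟩ : ∃ z : Fin n → ℂ, ¬ ∃ a : ℂ, z = a • x0 := by
      by_contra hcon
      push Not at hcon
      have htop : (⊤ : Submodule ℂ (Fin n → ℂ)) ≤ Submodule.span ℂ {x0} := by
        intro v _
        obtain ⟨a, ha⟩ := hcon v
        rw [Submodule.mem_span_singleton]
        exact ⟨a, ha.symm⟩
      have h1 : Module.finrank ℂ (Submodule.span ℂ {x0}) ≤ 1 := by
        have := finrank_span_le_card (R := ℂ) ({x0} : Set (Fin n → ℂ))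
        simpa using this
      rw [top_le_iff.mp htop, finrank_top, Module.finrank_fin_fun] at h1
      omega
    have hind : LinearIndependent ℂ ![x0, z] := by
      apply sc_ind2
      intro s t hst
      have ht : t = 0 := by
        by_contra ht
        apply hz
        refine ⟨-(t⁻¹ * s), ?_⟩
        have h1 : t • z = -(s • x0) := by
          rw [eq_neg_iff_add_eq_zero, add_comm]; exact hst
        rw [neg_smul, mul_smul, ← smul_neg, ← h1, smul_smul, inv_mul_cancel₀ ht, one_smul]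
      rw [ht, zero_smul, add_zero] at hst
      rcases smul_eq_zero.mp hst with h | h
      · exact ⟨h, ht⟩
      · exact absurd h hx0
    have hT : ∀ b : ℂ, ∃ T : Mat n, T *ᵥ x0 = z ∧ T *ᵥ z = b • x0 := by
      intro b
      obtain ⟨S, hS⟩ := sc_exists_mat (n := n) ![x0, z] ![z, b • x0] hind
      exact ⟨S, hS 0, hS 1⟩
    choose Tb hTb using hT
    have hpair : ∀ b b' : ℂ, b ≠ b' → κ * ε (Tb b) * ε (Tb b') = 1 := by
      intro b b' hbb
      apply hprod
      refine sc_C1 x0 hx0 _ (b - b') (sub_ne_zero.mpr hbb) ?_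
      rw [sc_comm, (hTb b').1, (hTb b).1, (hTb b).2, (hTb b').2, sub_smul]
    have h01 := hpair 0 1 (by norm_num)
    have h12 := hpair 1 2 (by norm_num)
    have h20 := hpair 2 0 (by norm_num)
    rcases hκ with h1 | h1
    · exact h1
    · exfalso
      rcases hε (Tb 0) with e0 | e0 <;> rcases hε (Tb 1) with e1 | e1 <;>
        rcases hε (Tb 2) with e2 | e2 <;> rw [e0, e1, h1] at h01 <;> rw [e1, e2, h1] at h12 <;>
        rw [e2, e0, h1] at h20 <;>
        first
          | (norm_num at h01; done)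
          | (norm_num at h12; done)
          | (norm_num at h20; done)
  refine ⟨hκ1, ?_⟩
  have heq : ∀ T S : Mat n, scNS x0 (T * S - S * T) → ε T = ε S := by
    intro T S hns
    have h1 := hprod T S hns
    rw [hκ1, one_mul] at h1
    rcases hε T with h2 | h2 <;> rcases hε S with h3 | h3 <;> rw [h2, h3] at h1 ⊢ <;>
      norm_num at h1
  have hA : ∀ T1 T2 : Mat n, (¬ ∃ a : ℂ, T1 *ᵥ x0 = a • x0) →
      (¬ ∃ a : ℂ, T2 *ᵥ x0 = a • x0) → ε T1 = ε T2 := by
    intro T1 T2 h1 h2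
    obtain ⟨S, hS1, hS2⟩ := sc_caseA x0 hx0 T1 T2 h1 h2
    rw [heq T1 S hS1, heq T2 S hS2]
  have hlink : ∀ T : Mat n, T ∉ excSet x0 → ∃ S : Mat n, (¬ ∃ b : ℂ, S *ᵥ x0 = b • x0) ∧
      ε T = ε S := by
    intro T hT
    by_cases hc : ∃ a : ℂ, T *ᵥ x0 = a • x0
    · obtain ⟨a, ha⟩ := hc
      obtain ⟨S, hS1, hS2⟩ := sc_link x0 hx0 T hT a ha
      exact ⟨S, hS1, heq T S hS2⟩
    · exact ⟨T, hc, rfl⟩
  intro T S hT hS
  obtain ⟨T', hT1, hT2⟩ := hlink T hT
  obtain ⟨S', hS1, hS2⟩ := hlink S hS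
  rw [hT2, hS2]
  exact hA T' S' hT1 hS1

/-- TARGET 2 -/
theorem converse (x0 : Fin n → ℂ) (hx0 : x0 ≠ 0) (φ : Mat n → Mat n) (h : IsStandard x0 φ)
    (T S : Mat n) :
    localSpectrum (φ T * φ S - φ S * φ T) x0 = localSpectrum (T * S - S * T) x0 := by
  obtain ⟨A, η, ξ, hA, hAx, hξ, hξc, hφ⟩ := h
  have hdet : IsUnit A.det := (Matrix.isUnit_iff_isUnit_det A).mp hA
  have hAi : A * A⁻¹ = 1 := Matrix.mul_nonsing_inv A hdet
  have hiA : A⁻¹ * A = 1 := Matrix.nonsing_inv_mul A hdet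
  have hcomm : φ T * φ S - φ S * φ T = (ξ T * ξ S) • (A * (T * S - S * T) * A⁻¹) := by
    have e1 : ∀ U V : Mat n, A * U * A⁻¹ * (A * V * A⁻¹) = A * (U * V) * A⁻¹ := by
      intro U V
      calc A * U * A⁻¹ * (A * V * A⁻¹) = A * U * (A⁻¹ * A) * V * A⁻¹ := by
            simp only [mul_assoc]
        _ = A * (U * V) * A⁻¹ := by rw [hiA, mul_one]; simp only [mul_assoc]
    rw [hφ T, hφ S]
    simp only [add_mul, mul_add, smul_mul_assoc, mul_smul_comm, one_mul, mul_one, e1, smul_add,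
      smul_smul, mul_sub, sub_mul, smul_sub]
    rw [mul_comm (ξ S) (ξ T), mul_comm (η S) (ξ T), mul_comm (ξ S) (η T), mul_comm (η S) (η T)]
    abel
  have hAinj : ∀ v, A *ᵥ v = 0 → v = 0 := by
    intro v hv
    have : (A⁻¹ * A) *ᵥ v = 0 := by rw [← Matrix.mulVec_mulVec, hv, Matrix.mulVec_zero]
    rwa [hiA, Matrix.one_mulVec] at this
  have hconj : ∀ C : Mat n, localSpectrum (A * C * A⁻¹) x0 = localSpectrum C x0 := by
    intro C
    refine sc_conj x0 A C (A * C * A⁻¹) hAinj 1 one_ne_zero (by rw [hAx, one_smul]) ?_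
    rw [mul_assoc (A * C), hiA, mul_one]
  rw [hcomm]
  have hcases : ξ T * ξ S = 1 ∨ (ξ T * ξ S = -1 ∧ (T ∈ excSet x0 ∨ S ∈ excSet x0)) := by
    by_cases hT : T ∈ excSet x0
    · rcases hξ T with h2 | h2 <;> rcases hξ S with h3 | h3 <;> rw [h2, h3]
      · left; norm_num
      · right; exact ⟨by norm_num, Or.inl hT⟩
      · right; exact ⟨by norm_num, Or.inl hT⟩
      · left; norm_num
    · by_cases hS : S ∈ excSet x0
      · rcases hξ T with h2 | h2 <;> rcases hξ S with h3 | h3 <;> rw [h2, h3]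
        · left; norm_num
        · right; exact ⟨by norm_num, Or.inr hS⟩
        · right; exact ⟨by norm_num, Or.inr hS⟩
        · left; norm_num
      · left
        rw [hξc T S hT hS]
        rcases hξ S with h3 | h3 <;> rw [h3] <;> norm_num
  rcases hcases with h1 | ⟨h1, h2⟩
  · rw [h1, one_smul, hconj]
  · have h3 : (ξ T * ξ S) • (A * (T * S - S * T) * A⁻¹) = A * (-(T * S - S * T)) * A⁻¹ := by
      rw [h1, neg_smul, one_smul, mul_neg, neg_mul]
    rw [h3, hconj]
    rcases h2 with h2 | h2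
    · obtain ⟨R, a, s, hs, hRR, ha, hRx, hinj, hRS⟩ := sc_exc x0 hx0 T h2
      refine sc_conj x0 R _ _ hinj a ha hRx ?_
      rw [hRS S]
      have : R * (R * S - S * R) - -(R * S - S * R) * R = (R * R) * S - S * (R * R) := by
        noncomm_ring
      rw [← sub_eq_zero, this, hRR]
      simp
    · obtain ⟨R, a, s, hs, hRR, ha, hRx, hinj, hRS⟩ := sc_exc x0 hx0 S h2
      refine sc_conj x0 R _ _ hinj a ha hRx ?_
      have h4 : T * S - S * T = -(R * T - T * R) := by
        rw [← hRS T]; abel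
      rw [h4]
      have : R * -(R * T - T * R) - - -(R * T - T * R) * R = -((R * R) * T - T * (R * R)) := by
        noncomm_ring
      rw [← sub_eq_zero, this, hRR]
      simp

/-- the quadratic trace form -/
noncomputable def qf (T S : Mat n) : ℂ := trace ((T * S - S * T) ^ 2)

/-- traceless part -/
noncomputable def tl (T : Mat n) : Mat n := T - (trace T / n) • (1 : Mat n)

theorem trace_tl (hn : n ≠ 0) (T : Mat n) : trace (tl T) = 0 := by
  have : (n : ℂ) ≠ 0 := by exact_mod_cast hn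
  simp only [tl, trace_sub, trace_smul, trace_one, Fintype.card_fin, smul_eq_mul]
  field_simp
  ring

theorem qf_tl (T S : Mat n) : qf (tl T) S = qf T S := by
  unfold qf tl
  congr 2
  simp [sub_mul, mul_sub]

/-- polarised form -/
noncomputable def qp (T T' S S' : Mat n) : ℂ := trace ((T * S - S * T) * (T' * S' - S' * T'))

theorem qf_eq (T S : Mat n) : qf T S = qp T T S S := by
  unfold qf qp; rw [sq]

theorem ent (M N : Matrix (Fin n) (Fin n) ℂ) (a b d c : Fin n) :
    (M * single a b (1:ℂ) * N) d c = M d a * N b c := by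
  simp [Matrix.mul_apply, Matrix.single_apply, ite_and]

theorem tr2 (M N : Matrix (Fin n) (Fin n) ℂ) (a b d c : Fin n) :
    trace (M * single a b (1:ℂ) * N * single c d (1:ℂ)) = M d a * N b c := by
  rw [Matrix.trace_mul_single, ent]; simp

theorem single_entry (T : Matrix (Fin n) (Fin n) ℂ) (p k l r : Fin n) :
    trace ((T * single r p (1:ℂ) - single r p (1:ℂ) * T) * (T * single k l (1:ℂ) - single k l (1:ℂ) * T))
      = 2 * (T p k * T l r) - (if p = k then (T * T) l r else 0) - (if l = r then (T * T) p k else 0) := by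
  have e : ((T * single r p (1:ℂ) - single r p (1:ℂ) * T) * (T * single k l (1:ℂ) - single k l (1:ℂ) * T))
     = T * single r p 1 * T * single k l 1 - T * single r p 1 * 1 * single k l 1 * T
       - single r p 1 * (T * T) * single k l 1 + single r p 1 * T * single k l 1 * T := by
    noncomm_ring
  rw [e, trace_add, trace_sub, trace_sub]
  rw [tr2]
  rw [Matrix.trace_mul_comm (T * single r p 1 * 1 * single k l 1) T, Matrix.trace_mul_comm (single r p 1 * T * single k l 1) T]
  have e1 : T * (T * single r p 1 * 1 * single k l 1) = (T * T) * single r p 1 * 1 * single k l 1 := by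
    noncomm_ring
  have e2 : T * (single r p 1 * T * single k l 1) = T * single r p 1 * T * single k l 1 := by
    noncomm_ring
  have e3 : single r p 1 * (T * T) * single k l 1 = (1 : Matrix (Fin n) (Fin n) ℂ) * single r p 1 * (T * T) * single k l 1 := by
    simp
  rw [e1, e2, e3, tr2, tr2, tr2]
  simp only [Matrix.one_apply]
  split_ifs <;> ring

theorem qf_add (T Y Z : Mat n) : qf T (Y + Z) = qf T Y + qf T Z + 2 * qp T T Y Z := by
  have h : qp T T Z Y = qp T T Y Z := by
    unfold qp; rw [Matrix.trace_mul_comm]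
  rw [two_mul]
  nth_rewrite 2 [← h]
  unfold qf qp
  rw [← trace_add, ← trace_add, ← trace_add]
  congr 1
  noncomm_ring

theorem nondeg {ι : Type*} [Fintype ι] (c : ι → ℂ) (T : ι → Mat n) (htr : ∀ i, trace (T i) = 0)
    (h : ∀ Y, ∑ i, c i * qf (T i) Y = 0) (p k l r : Fin n) :
    ∑ i, c i * (T i p k * T i l r) = 0 := by
  have hn : (n : ℂ) ≠ 0 := by
    have : n ≠ 0 := by rintro rfl; exact p.elim0
    exact_mod_cast this
  have ha : ∀ Y Z, ∑ i, c i * qp (T i) (T i) Y Z = 0 := by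
    intro Y Z
    have h1 := h (Y + Z)
    simp only [qf_add, mul_add, Finset.sum_add_distrib, h Y, h Z, zero_add] at h1
    have h2 : ∑ i, c i * (2 * qp (T i) (T i) Y Z) = 2 * ∑ i, c i * qp (T i) (T i) Y Z := by
      rw [Finset.mul_sum]; exact Finset.sum_congr rfl fun i _ => by ring
    rw [h2] at h1
    simpa using h1
  set β : Mat n := ∑ i, c i • (T i * T i) with hβ
  have hβe : ∀ a b, β a b = ∑ i, c i * (T i * T i) a b := by
    intro a b
    rw [hβ, Matrix.sum_apply]
    rfl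
  have hW : ∀ p k l r : Fin n, 2 * ∑ i, c i * (T i p k * T i l r) =
      (if p = k then β l r else 0) + (if l = r then β p k else 0) := by
    intro p k l r
    have h1 := ha (single r p 1) (single k l 1)
    unfold qp at h1
    simp only [single_entry] at h1
    simp only [mul_sub, Finset.sum_sub_distrib] at h1
    have e1 : ∑ i, c i * (2 * (T i p k * T i l r)) = 2 * ∑ i, c i * (T i p k * T i l r) := by
      rw [Finset.mul_sum]; exact Finset.sum_congr rfl fun i _ => by ring
    have e2 : ∑ i, c i * (if p = k then (T i * T i) l r else 0) = (if p = k then β l r else 0) := by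
      split_ifs with hh
      · rw [hβe]
      · simp
    have e3 : ∑ i, c i * (if l = r then (T i * T i) p k else 0) = (if l = r then β p k else 0) := by
      split_ifs with hh
      · rw [hβe]
      · simp
    rw [e1, e2, e3] at h1
    linear_combination h1
  have hd : ∀ l r : Fin n, (n : ℂ) * β l r + (if l = r then trace β else 0) = 0 := by
    intro l r
    have h1 : ∑ p : Fin n, (2 * ∑ i, c i * (T i p p * T i l r)) = 0 := by
      rw [← Finset.mul_sum, Finset.sum_comm]
      have : ∀ i, ∑ p : Fin n, c i * (T i p p * T i l r) = 0 := by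
        intro i
        rw [← Finset.mul_sum, ← Finset.sum_mul]
        have := htr i
        simp only [Matrix.trace, Matrix.diag] at this
        rw [this]; simp
      simp [this]
    simp only [hW, if_true, Finset.sum_add_distrib, Finset.sum_const, Finset.card_univ,
      Fintype.card_fin, nsmul_eq_mul] at h1
    refine Eq.trans ?_ h1
    congr 1
    split_ifs with hh
    · rfl
    · simp
  have htrβ : trace β = 0 := by
    have h1 : ∑ l : Fin n, ((n : ℂ) * β l l + trace β) = 0 := by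
      refine Finset.sum_eq_zero fun l _ => ?_
      have := hd l l
      simpa using this
    rw [Finset.sum_add_distrib, ← Finset.mul_sum] at h1
    have h2 : ∑ l : Fin n, β l l = trace β := rfl
    rw [h2] at h1
    simp only [Finset.sum_const, Finset.card_univ, Fintype.card_fin, nsmul_eq_mul] at h1
    have h3 : (n : ℂ) * (2 * trace β) = 0 := by linear_combination h1
    rcases mul_eq_zero.mp h3 with h4 | h4
    · exact absurd h4 hn
    · simpa using h4
  have hβ0 : ∀ l r, β l r = 0 := by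
    intro l r
    have := hd l r
    rw [htrβ] at this
    simpa [hn] using this
  have := hW p k l r
  rw [hβ0, hβ0] at this
  simpa using this

/-- symmetric rank one complex matrices are squares -/
theorem rank_one_sq {ι : Type*} (M : ι → ι → ℂ) (hs : ∀ i j, M i j = M j i)
    (hr : ∀ i j k l, M i j * M k l = M i l * M k j) : ∃ a : ι → ℂ, ∀ i j, M i j = a i * a j := by
  by_cases h0 : ∀ i, M i i = 0
  · refine ⟨fun _ => 0, fun i j => ?_⟩
    have h1 := hr i j j i
    rw [h0 i, zero_mul, hs j i] at h1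
    have : M i j = 0 := by simpa using h1
    simp [this]
  · push Not at h0
    obtain ⟨i0, hi0⟩ := h0
    obtain ⟨s, hs0⟩ := IsAlgClosed.exists_pow_nat_eq (M i0 i0) (n := 2) (by norm_num)
    have hsne : s ≠ 0 := by
      rintro rfl
      apply hi0
      rw [← hs0]; norm_num
    refine ⟨fun j => M i0 j / s, fun i j => ?_⟩
    have h1 := hr i0 i0 i j
    have h2 : M i0 i / s * (M i0 j / s) = M i0 i * M i0 j / s ^ 2 := by
      field_simp
    rw [h2, hs0, eq_div_iff hi0, hs i0 i]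
    linear_combination h1

theorem cubic_coeff (c1 c2 c3 : ℂ) (h : ∀ t : ℂ, c1 * t + c2 * t ^ 2 + c3 * t ^ 3 = 0) :
    c1 = 0 ∧ c2 = 0 ∧ c3 = 0 := by
  have h1 := h 1
  have h2 := h (-1)
  have h3 := h 2
  refine ⟨?_, ?_, ?_⟩
  · linear_combination h1 - (1 / 3 : ℂ) * h2 - (1 / 6 : ℂ) * h3
  · linear_combination (1 / 2 : ℂ) * h1 + (1 / 2 : ℂ) * h2
  · linear_combination (-1 / 2 : ℂ) * h1 - (1 / 6 : ℂ) * h2 + (1 / 6 : ℂ) * h3

/-- core computation -/
theorem core {ι : Type*} (a b : ι → ℂ) (X : ι → ι → ℂ) (hX : ∀ i j, X i j = X j i)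
    (i0 j0 : ι) (hab : a i0 * b j0 - a j0 * b i0 ≠ 0)
    (h : ∀ t : ℂ, ∃ c : ι → ℂ, ∀ i j, a i * a j + 2 * t * X i j + t ^ 2 * (b i * b j) = c i * c j) :
    ∃ z : ι → ℂ, (∀ i j, X i j = a i * z j + z i * a j) ∧ ∀ i j, 4 * (z i * z j) = b i * b j := by
  set d := a i0 * b j0 - a j0 * b i0 with hd
  -- functional f = (b_j0 e_i0 - b_i0 e_j0) / d
  set f1 := b j0 / d with hf1
  set f2 := - b i0 / d with hf2
  have hfa : f1 * a i0 + f2 * a j0 = 1 := by
    rw [hf1, hf2]; field_simp; rw [hd]; ring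
  have hfb : f1 * b i0 + f2 * b j0 = 0 := by
    rw [hf1, hf2]; field_simp; ring
  -- z = X f
  set z : ι → ℂ := fun k => f1 * X i0 k + f2 * X j0 k with hz
  set α : ℂ := f1 * z i0 + f2 * z j0 with hα
  have key : ∀ h' k' : ι, ∀ t : ℂ,
      (1 + 2 * t * α) * (a h' * a k' + 2 * t * X h' k' + t ^ 2 * (b h' * b k')) =
        (a h' + 2 * t * z h') * (a k' + 2 * t * z k') := by
    intro h' k' t
    obtain ⟨c, hc⟩ := h t
    have e1 : (1 + 2 * t * α) = (f1 * c i0 + f2 * c j0) * (f1 * c i0 + f2 * c j0) := by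
      have e := congrArg₂ (· + ·) (congrArg₂ (· + ·) (congrArg (f1 * f1 * ·) (hc i0 i0)) (congrArg (2 * f1 * f2 * ·) (hc i0 j0)))
        (congrArg (f2 * f2 * ·) (hc j0 j0))
      have e' : (f1 * c i0 + f2 * c j0) * (f1 * c i0 + f2 * c j0) = f1 * f1 * (c i0 * c i0) + 2 * f1 * f2 * (c i0 * c j0) + f2 * f2 * (c j0 * c j0) := by ring
      rw [e', ← e]
      simp only [hα, hz]
      rw [hX j0 i0]
      have : (1:ℂ) = (f1 * a i0 + f2 * a j0) * (f1 * a i0 + f2 * a j0) := by rw [hfa]; ring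
      nth_rewrite 1 [this]
      have hb : (f1 * b i0 + f2 * b j0) * (f1 * b i0 + f2 * b j0) = 0 := by rw [hfb]; ring
      linear_combination (-t ^ 2) * hb
    have e2 : ∀ k, a k + 2 * t * z k = (f1 * c i0 + f2 * c j0) * c k := by
      intro k
      have e := congrArg₂ (· + ·) (congrArg (f1 * ·) (hc i0 k)) (congrArg (f2 * ·) (hc j0 k))
      simp only [hz]
      linear_combination e - a k * hfa - (t ^ 2) * b k * hfb
    rw [e1, e2, e2, hc]
    ring
  have hc : ∀ h' k' : ι, (α * (b h' * b k') = 0) ∧ (b h' * b k' + 4 * α * X h' k' = 4 * (z h' * z k')) ∧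
      (α * (a h' * a k') + X h' k' = a h' * z k' + z h' * a k') := by
    intro h' k'
    obtain ⟨h1, h2, h3⟩ := cubic_coeff
      (2 * (α * (a h' * a k')) + 2 * X h' k' - 2 * (a h' * z k') - 2 * (z h' * a k'))
      (b h' * b k' + 4 * α * X h' k' - 4 * (z h' * z k'))
      (2 * (α * (b h' * b k'))) (fun t => by
        have := key h' k' t
        linear_combination this)
    refine ⟨?_, ?_, ?_⟩
    · linear_combination (1 / 2 : ℂ) * h3
    · linear_combination h2
    · linear_combination (1 / 2 : ℂ) * h1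
  -- b ≠ 0
  have hb : ∃ k, b k ≠ 0 := by
    by_contra hb
    push Not at hb
    apply hab
    rw [hd, hb, hb]; ring
  obtain ⟨k, hk⟩ := hb
  have hα0 : α = 0 := by
    have := (hc k k).1
    have hkk : b k * b k ≠ 0 := mul_ne_zero hk hk
    rcases mul_eq_zero.mp this with h | h
    · exact h
    · exact absurd h hkk
  refine ⟨z, fun i j => ?_, fun i j => ?_⟩
  · have := (hc i j).2.2
    rw [hα0] at this
    linear_combination this
  · have := (hc i j).2.1
    rw [hα0] at this
    linear_combination -this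

section
variable {E : Type*} [AddCommGroup E] [Module ℂ E]

theorem bilin_PL {ι : Type*} (B : E →ₗ[ℂ] E →ₗ[ℂ] Matrix ι ι ℂ) (i j : ι) :
    PL (fun v => B v v i j) := by
  intro p v
  refine ⟨C (B p p i j) + X * C (B p v i j) + X * C (B v p i j) + X ^ 2 * C (B v v i j), fun t => ?_⟩
  have h1 : B (p + t • v) (p + t • v) i j = B p p i j + t * B p v i j + t * B v p i j + t ^ 2 * B v v i j := by
    simp only [map_add, map_smul, LinearMap.add_apply, LinearMap.smul_apply, Matrix.add_apply,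
      Matrix.smul_apply, smul_eq_mul]
    ring
  have h2 : ∀ a b c d : ℂ, (C a + X * C b + X * C c + X ^ 2 * C d : ℂ[X]).eval t =
      a + t * b + t * c + t ^ 2 * d := by
    intro a b c d
    simp only [eval_add, eval_mul, eval_C, eval_X, eval_pow]
  exact h1.trans (h2 _ _ _ _).symm

/-- a quadratic map into rank one symmetric matrices is the square of a linear map -/
theorem lemC {ι : Type*} (B : E →ₗ[ℂ] E →ₗ[ℂ] Matrix ι ι ℂ) (hB : ∀ v w, B v w = B w v)
    (hs : ∀ v w i j, B v w i j = B v w j i)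
    (hr : ∀ v i j k l, B v v i j * B v v k l = B v v i l * B v v k j)
    (v0 w0 : E) (i1 j1 k1 l1 : ι)
    (hne : B v0 v0 i1 j1 * B w0 w0 k1 l1 ≠ B v0 v0 k1 l1 * B w0 w0 i1 j1) :
    ∃ L : E →ₗ[ℂ] (ι → ℂ), ∀ v i j, B v v i j = L v i * L v j := by
  obtain ⟨a, ha'⟩ := rank_one_sq (fun i j => B v0 v0 i j) (hs v0 v0) (hr v0)
  have ha : ∀ i j, B v0 v0 i j = a i * a j := ha'
  have ha0 : ∃ i0, a i0 ≠ 0 := by
    by_contra h
    push Not at h
    apply hne
    rw [ha i1 j1, ha k1 l1, h i1, h k1]; ring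
  obtain ⟨i0, hi0⟩ := ha0
  -- the linear map
  let L : E →ₗ[ℂ] (ι → ℂ) :=
    { toFun := fun v j => 2 * B v0 v j i0 / a i0 - B v0 v i0 i0 / (a i0) ^ 2 * a j
      map_add' := by
        intro x y; ext j
        simp only [map_add, Matrix.add_apply, Pi.add_apply]
        ring
      map_smul' := by
        intro c x; ext j
        simp only [map_smul, Matrix.smul_apply, Pi.smul_apply, smul_eq_mul, RingHom.id_apply]
        ring }
  have hL : ∀ v j, L v j = 2 * B v0 v j i0 / a i0 - B v0 v i0 i0 / (a i0) ^ 2 * a j := fun _ _ => rfl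
  refine ⟨L, fun v i j => ?_⟩
  have hPL1 : PL (fun v => B v v i j - L v i * L v j) := by
    refine (bilin_PL B i j).sub (PL.mul ?_ ?_)
    · exact PL.lin ((LinearMap.proj i) ∘ₗ L)
    · exact PL.lin ((LinearMap.proj j) ∘ₗ L)
  have hPL2 : PL (fun v => B v0 v0 i1 j1 * B v v k1 l1 - B v0 v0 k1 l1 * B v v i1 j1) :=
    ((PL.const _).mul (bilin_PL B k1 l1)).sub ((PL.const _).mul (bilin_PL B i1 j1))
  have := PL.eq_zero hPL1 hPL2 ⟨w0, sub_ne_zero.mpr hne⟩ (fun w hw => ?_) v
  · exact sub_eq_zero.mp this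
  -- main case
  obtain ⟨b, hb'⟩ := rank_one_sq (fun i j => B w w i j) (hs w w) (hr w)
  have hb : ∀ i j, B w w i j = b i * b j := hb'
  have hab : ∃ i2 j2, a i2 * b j2 - a j2 * b i2 ≠ 0 := by
    by_contra h
    push Not at h
    apply hw
    rw [ha, ha, hb, hb]
    have e1 := h i1 k1
    have e2 := h j1 l1
    have e1' : a i1 * b k1 = a k1 * b i1 := by linear_combination e1
    have e2' : a j1 * b l1 = a l1 * b j1 := by linear_combination e2
    linear_combination (a j1 * b l1) * e1' + (a k1 * b i1) * e2'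
  obtain ⟨i2, j2, hij⟩ := hab
  obtain ⟨z, hz1', hz2⟩ := core a b (fun i j => B v0 w i j) (hs v0 w) i2 j2 hij (by
    intro t
    obtain ⟨c, hc⟩ := rank_one_sq (fun i j => B (v0 + t • w) (v0 + t • w) i j)
      (hs _ _) (hr _)
    refine ⟨c, fun i j => ?_⟩
    rw [← hc i j, ← ha i j, ← hb i j]
    simp only [map_add, map_smul, LinearMap.add_apply, LinearMap.smul_apply, Matrix.add_apply,
      Matrix.smul_apply, smul_eq_mul, hB w v0]
    ring)
  have hz1 : ∀ i j, B v0 w i j = a i * z j + z i * a j := hz1'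
  have hLz : ∀ k, L w k = 2 * z k := by
    intro k
    rw [hL, hz1, hz1]
    field_simp
    ring
  rw [hLz, hLz, hb]
  linear_combination (-1 : ℂ) * hz2 i j

end

/-- the polarised form in the first two slots, as a bilinear map -/
noncomputable def qB (S S' : Mat n) : Mat n →ₗ[ℂ] Mat n →ₗ[ℂ] ℂ :=
  LinearMap.mk₂ ℂ (fun T T' => qp T T' S S')
    (by
      intro a b c; unfold qp; rw [← trace_add]; congr 1; noncomm_ring)
    (by
      intro a b c; unfold qp
      rw [smul_mul_assoc, mul_smul_comm, ← smul_sub, smul_mul_assoc, trace_smul])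
    (by
      intro a b c; unfold qp; rw [← trace_add]; congr 1; noncomm_ring)
    (by
      intro a b c; unfold qp
      rw [smul_mul_assoc, mul_smul_comm, ← smul_sub, mul_smul_comm, trace_smul])

theorem qB_apply (S S' T T' : Mat n) : qB S S' T T' = qp T T' S S' := rfl

theorem bil_expand {κ : Type*} [Fintype κ] (β : Mat n →ₗ[ℂ] Mat n →ₗ[ℂ] ℂ) (c : κ → ℂ)
    (v : κ → Mat n) : β (∑ x, c x • v x) (∑ y, c y • v y) =
      ∑ z : κ × κ, (c z.1 * c z.2) * β (v z.1) (v z.2) := by
  rw [Fintype.sum_prod_type, Finset.sum_comm]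
  rw [map_sum (β (∑ x, c x • v x))]
  refine Finset.sum_congr rfl fun y _ => ?_
  rw [map_sum β, LinearMap.sum_apply]
  refine Finset.sum_congr rfl fun x _ => ?_
  rw [map_smul, map_smul, LinearMap.smul_apply, smul_eq_mul, smul_eq_mul]
  ring

theorem qf_expand (T S : Mat n) : qf T S =
    ∑ x : (Fin n × Fin n) × (Fin n × Fin n), (T x.1.1 x.1.2 * T x.2.1 x.2.2) *
      qp (single x.1.1 x.1.2 1) (single x.2.1 x.2.2 1) S S := by
  have hT : T = ∑ x : Fin n × Fin n, T x.1 x.2 • single x.1 x.2 (1 : ℂ) := by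
    conv_lhs => rw [Matrix.matrix_eq_sum_single T]
    rw [← Finset.univ_product_univ, Finset.sum_product]
    refine Finset.sum_congr rfl fun i _ => Finset.sum_congr rfl fun j _ => ?_
    rw [Matrix.smul_single]; simp
  have h1 : qf T S = qB S S (∑ x : Fin n × Fin n, T x.1 x.2 • single x.1 x.2 (1 : ℂ))
      (∑ y : Fin n × Fin n, T y.1 y.2 • single y.1 y.2 (1 : ℂ)) := by
    rw [← hT, qB_apply, qf_eq]
  rw [h1, bil_expand (qB S S) (fun x : Fin n × Fin n => T x.1 x.2) (fun x => single x.1 x.2 (1 : ℂ))]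
  rfl

theorem qf_bound {D : ℕ} (T S : Fin D → Mat n)
    (h : (Matrix.of fun i j => qf (T i) (S j)).det ≠ 0) :
    D ≤ Fintype.card ((Fin n × Fin n) × (Fin n × Fin n)) := by
  set U : Matrix (Fin D) ((Fin n × Fin n) × (Fin n × Fin n)) ℂ :=
    Matrix.of fun i x => T i x.1.1 x.1.2 * T i x.2.1 x.2.2 with hU
  set W : Matrix ((Fin n × Fin n) × (Fin n × Fin n)) (Fin D) ℂ :=
    Matrix.of fun x j => qp (single x.1.1 x.1.2 1) (single x.2.1 x.2.2 1) (S j) (S j) with hW
  have hUW : (Matrix.of fun i j => qf (T i) (S j)) = U * W := by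
    ext i j
    rw [Matrix.mul_apply]
    exact qf_expand (T i) (S j)
  have hr : (U * W).rank = D := by
    rw [← hUW, Matrix.rank_of_isUnit _ ((Matrix.isUnit_iff_isUnit_det _).mpr (isUnit_iff_ne_zero.mpr h))]
    simp
  calc D = (U * W).rank := hr.symm
    _ ≤ U.rank := Matrix.rank_mul_le_left U W
    _ ≤ _ := Matrix.rank_le_card_width U

theorem two_minor (hn : 2 ≤ n) : ∃ T S : Fin 2 → Mat n,
    (Matrix.of fun i j => qf (T i) (S j)).det ≠ 0 := by
  set a : Fin n := ⟨0, by omega⟩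
  set b : Fin n := ⟨1, by omega⟩
  have hab : a ≠ b := by
    intro h
    have := congrArg Fin.val h
    simp [a, b] at this
  set P : Mat n := single a b 1
  set Q : Mat n := single b a 1
  have h1 : qf P P = 0 := by unfold qf; simp [sub_self]
  have h2 : qf Q Q = 0 := by unfold qf; simp [sub_self]
  have h3 : qf P Q = 2 := by
    unfold qf
    have : P * Q - Q * P = single a a 1 - single b b 1 := by simp [P, Q]
    rw [this, sq]
    simp [mul_sub, sub_mul, Matrix.single_mul_single_of_ne, hab, hab.symm, Matrix.trace_single_eq_same]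
    norm_num
  have h4 : qf Q P = 2 := by
    unfold qf
    have : Q * P - P * Q = single b b 1 - single a a 1 := by simp [P, Q]
    rw [this, sq]
    simp [mul_sub, sub_mul, Matrix.single_mul_single_of_ne, hab, hab.symm, Matrix.trace_single_eq_same]
    norm_num
  refine ⟨![P, Q], ![Q, P], ?_⟩
  rw [Matrix.det_fin_two]
  simp [h1, h2, h3, h4]

theorem max_minor (hn : 2 ≤ n) : ∃ D : ℕ, 2 ≤ D ∧
    (∃ T S : Fin D → Mat n, (Matrix.of fun i j => qf (T i) (S j)).det ≠ 0) ∧
    ∀ T S : Fin D → Mat n, (Matrix.of fun i j => qf (T i) (S j)).det ≠ 0 → ∀ X Y,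
      qf X Y = ∑ j, ∑ i, qf X (S j) * (Matrix.of fun i j => qf (T i) (S j))⁻¹ j i * qf (T i) Y := by
  classical
  set P : ℕ → Prop := fun D => ∃ T S : Fin D → Mat n, (Matrix.of fun i j => qf (T i) (S j)).det ≠ 0 with hP
  set N := Fintype.card ((Fin n × Fin n) × (Fin n × Fin n)) with hN
  have hb : ∀ D, P D → D ≤ N := by
    rintro D ⟨T, S, h⟩
    exact qf_bound T S h
  have h2 : P 2 := two_minor hn
  set D := Nat.findGreatest P N with hD
  have hPD : P D := Nat.findGreatest_spec (hb 2 h2) h2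
  have h2D : 2 ≤ D := Nat.le_findGreatest (hb 2 h2) h2
  have hnot : ¬ P (D + 1) := by
    intro h
    have := Nat.le_findGreatest (hb _ h) h
    rw [← hD] at this
    omega
  refine ⟨D, h2D, hPD, fun T S hdet X Y => ?_⟩
  set G : Matrix (Fin D) (Fin D) ℂ := Matrix.of fun i j => qf (T i) (S j) with hG
  let _ : Invertible G := Matrix.invertibleOfIsUnitDet G (isUnit_iff_ne_zero.mpr hdet)
  set c : Matrix (Fin D) Unit ℂ := Matrix.of fun i _ => qf (T i) Y with hc
  set r : Matrix Unit (Fin D) ℂ := Matrix.of fun _ j => qf X (S j) with hr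
  set d : Matrix Unit Unit ℂ := Matrix.of fun _ _ => qf X Y with hd
  have hdet0 : (fromBlocks G c r d).det = 0 := by
    by_contra hne
    apply hnot
    have e : Fin (D + 1) ≃ Fin D ⊕ Unit := Fintype.equivOfCardEq (by simp)
    refine ⟨fun i => Sum.elim T (fun _ => X) (e i), fun j => Sum.elim S (fun _ => Y) (e j), ?_⟩
    have : (Matrix.of fun i j : Fin (D + 1) => qf (Sum.elim T (fun _ => X) (e i)) (Sum.elim S (fun _ => Y) (e j)))
        = (fromBlocks G c r d).submatrix e e := by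
      ext i j
      simp only [Matrix.of_apply, Matrix.submatrix_apply]
      rcases e i with i' | i' <;> rcases e j with j' | j' <;> simp [hG, hc, hr, hd]
    rw [this, Matrix.det_submatrix_equiv_self]
    exact hne
  rw [Matrix.det_fromBlocks₁₁] at hdet0
  have h5 : (d - r * ⅟G * c).det = 0 := by
    rcases mul_eq_zero.mp hdet0 with h | h
    · exact absurd h hdet
    · exact h
  rw [Matrix.det_unique] at h5
  simp only [Matrix.sub_apply, Matrix.mul_apply, Matrix.invOf_eq_nonsing_inv] at h5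
  have h6 := sub_eq_zero.mp h5
  simp only [hd, Matrix.of_apply] at h6
  rw [h6, Finset.sum_comm]
  refine Finset.sum_congr rfl fun i _ => ?_
  rw [Finset.sum_mul]
  rfl

theorem par {κ : Type*} (a b : κ → ℂ) (h : ∀ i j k l, a i * a j * (b k * b l) = a k * a l * (b i * b j)) :
    (∃ c : ℂ, ∀ i, a i = c * b i) ∨ ∀ i, b i = 0 := by
  by_cases hb : ∀ i, b i = 0
  · exact Or.inr hb
  · left
    push Not at hb
    obtain ⟨k, hk⟩ := hb
    refine ⟨a k / b k, fun i => ?_⟩
    by_cases hak : a k = 0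
    · have h1 := h i i k k
      rw [hak] at h1
      have h2 : a i * a i * (b k * b k) = 0 := by rw [h1]; ring
      have h3 : a i = 0 := by
        rcases mul_eq_zero.mp h2 with h4 | h4
        · simpa using h4
        · exact absurd (by simpa using h4) hk
      rw [h3, hak]; simp
    · have h1 := h i k k k
      have h2 : (a k * b k) * (a i * b k) = (a k * b k) * (a k * b i) := by linear_combination h1
      have h3 := mul_left_cancel₀ (mul_ne_zero hak hk) h2
      field_simp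
      linear_combination h3

theorem sq_vec {κ : Type*} (a b : κ → ℂ) (h : ∀ i j, a i * a j = b i * b j) :
    (∀ i, a i = b i) ∨ ∀ i, a i = - b i := by
  by_cases hb : ∀ i, b i = 0
  · left
    intro i
    have := h i i
    rw [hb i] at this ⊢
    simpa using this
  · push Not at hb
    obtain ⟨k, hk⟩ := hb
    have h1 := h k k
    have h2 : (a k - b k) * (a k + b k) = 0 := by linear_combination h1
    rcases mul_eq_zero.mp h2 with h3 | h3
    · left
      intro i
      have h4 := h i k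
      have h5 : a k = b k := by linear_combination h3
      rw [h5] at h4
      exact mul_right_cancel₀ hk h4
    · right
      intro i
      have h4 := h i k
      have h5 : a k = - b k := by linear_combination h3
      rw [h5] at h4
      apply mul_right_cancel₀ hk
      linear_combination -h4

theorem qf_smul (c : ℂ) (T S : Mat n) : qf (c • T) S = c ^ 2 * qf T S := by
  unfold qf
  rw [smul_mul_assoc, mul_smul_comm, ← smul_sub, _root_.smul_pow, trace_smul, smul_eq_mul]

theorem PLM_qf {E : Type*} [AddCommGroup E] [Module ℂ E] {F H : E → Mat n} (hF : PLM F) (hH : PLM H) :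
    PL (fun p => qf (F p) (H p)) := by
  unfold qf
  exact (((hF.mul hH).sub (hH.mul hF)).pow 2).trace

/-- generic linearity up to sign -/
theorem stepBC (hn : 2 ≤ n) (Δ : Mat n × Mat n → ℂ) (hΔ : PL Δ) (hΔ0 : ∃ p, Δ p ≠ 0)
    (φ : Mat n → Mat n)
    (hφ : ∀ T S, Δ (T, S) ≠ 0 →
      trace ((φ T * φ S - φ S * φ T) ^ 2) = trace ((T * S - S * T) ^ 2)) :
    ∃ (L : Mat n →ₗ[ℂ] Mat n) (G : Mat n → ℂ), PL G ∧ (∃ T, G T ≠ 0) ∧ L 1 = 0 ∧
      (∀ T, trace (L T) = 0) ∧
      ∀ T, G T ≠ 0 → ∃ s : ℂ, φ T = L T + s • (1 : Mat n) ∨ φ T = -(L T) + s • (1 : Mat n) := by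
  classical
  obtain ⟨D, h2D, ⟨T0, S0, hdet0⟩, hmax⟩ := max_minor hn
  have hφ' : ∀ T S, Δ (T, S) ≠ 0 → qf (φ T) (φ S) = qf T S := hφ
  -- generic choice
  let pT : Fin D → ((Fin D → Mat n) × (Fin D → Mat n) →ₗ[ℂ] Mat n) := fun i =>
    (LinearMap.proj i : (Fin D → Mat n) →ₗ[ℂ] Mat n) ∘ₗ LinearMap.fst ℂ (Fin D → Mat n) (Fin D → Mat n)
  let pS : Fin D → ((Fin D → Mat n) × (Fin D → Mat n) →ₗ[ℂ] Mat n) := fun i =>
    (LinearMap.proj i : (Fin D → Mat n) →ₗ[ℂ] Mat n) ∘ₗ LinearMap.snd ℂ (Fin D → Mat n) (Fin D → Mat n)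
  obtain ⟨⟨T, S⟩, hTS⟩ : ∃ p : (Fin D → Mat n) × (Fin D → Mat n),
      ∀ o ∈ (Finset.univ : Finset (Option (Fin D × Fin D))),
        (fun (o : Option (Fin D × Fin D)) (p : (Fin D → Mat n) × (Fin D → Mat n)) =>
          match o with
          | none => (Matrix.of fun i j => qf (p.1 i) (p.2 j)).det
          | some x => Δ (p.1 x.1, p.2 x.2)) o p ≠ 0 := by
    apply PL.many
    · rintro (_ | ⟨i, j⟩) _
      · simp only
        apply PLM.det
        intro i j
        exact PLM_qf (PLM.lin (pT i)) (PLM.lin (pS j))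
      · exact hΔ.comp ((pT i).prod (pS j))
    · rintro (_ | ⟨i, j⟩) _
      · exact ⟨(T0, S0), hdet0⟩
      · obtain ⟨⟨a, b⟩, hab⟩ := hΔ0
        exact ⟨(fun _ => a, fun _ => b), hab⟩
  have hdet : (Matrix.of fun i j => qf (T i) (S j)).det ≠ 0 := hTS none (Finset.mem_univ _)
  have hTSΔ : ∀ i j, Δ (T i, S j) ≠ 0 := fun i j => hTS (some (i, j)) (Finset.mem_univ _)
  clear hTS hdet0 T0 S0
  set G : Matrix (Fin D) (Fin D) ℂ := Matrix.of fun i j => qf (T i) (S j) with hG
  have hG' : (Matrix.of fun i j => qf (φ (T i)) (φ (S j))) = G := by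
    ext i j
    exact hφ' _ _ (hTSΔ i j)
  have hdet' : (Matrix.of fun i j => qf (φ (T i)) (φ (S j))).det ≠ 0 := by rw [hG']; exact hdet
  have hmax' := hmax (fun i => φ (T i)) (fun j => φ (S j)) hdet'
  simp only [hG'] at hmax'
  set w : Fin D → (Fin n × Fin n → ℂ) := fun i α => tl (φ (T i)) α.1 α.2 with hw
  set Gf : Mat n → ℂ := fun X => ∏ j, Δ (X, S j) with hGf
  have hGfPL : PL Gf := by
    apply PL.prod
    intro j _
    have := hΔ.compAff (LinearMap.inl ℂ (Mat n) (Mat n)) (0, S j)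
    simpa using this
  have hGf0 : ∀ i, Gf (T i) ≠ 0 := fun i => Finset.prod_ne_zero_iff.mpr fun j _ => hTSΔ i j
  have hn0 : n ≠ 0 := by omega
  -- the coefficient formula
  have hB3 : ∀ X, Gf X ≠ 0 → ∀ α β : Fin n × Fin n,
      tl (φ X) α.1 α.2 * tl (φ X) β.1 β.2 =
        ∑ i, (∑ j, qf X (S j) * G⁻¹ j i) * (w i α * w i β) := by
    intro X hX α β
    have hXj : ∀ j, Δ (X, S j) ≠ 0 := fun j => Finset.prod_ne_zero_iff.mp hX j (Finset.mem_univ j)
    have h1 := nondeg (ι := Option (Fin D))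
      (fun o => match o with
        | none => 1
        | some i => -(∑ j, qf X (S j) * G⁻¹ j i))
      (fun o => match o with
        | none => tl (φ X)
        | some i => tl (φ (T i)))
      (by rintro (_ | i) <;> exact trace_tl hn0 _)
      (by
        intro Y
        rw [Fintype.sum_option]
        simp only [qf_tl]
        rw [hmax' (φ X) Y, Finset.sum_comm]
        have e1 : ∀ j, qf (φ X) (φ (S j)) = qf X (S j) := fun j => hφ' _ _ (hXj j)
        simp only [e1, one_mul, neg_mul, Finset.sum_mul, Finset.sum_neg_distrib]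
        ring)
      α.1 α.2 β.1 β.2
    rw [Fintype.sum_option] at h1
    simp only [one_mul, neg_mul, Finset.sum_neg_distrib] at h1
    linear_combination h1
  -- the bilinear map
  let B : Mat n →ₗ[ℂ] Mat n →ₗ[ℂ] Matrix (Fin n × Fin n) (Fin n × Fin n) ℂ :=
    LinearMap.mk₂ ℂ (fun X X' => Matrix.of fun α β =>
      ∑ i, (∑ j, qB (S j) (S j) X X' * G⁻¹ j i) * (w i α * w i β))
    (by
      intro a b c; ext α β
      simp only [Matrix.of_apply, Matrix.add_apply, map_add, LinearMap.add_apply, add_mul,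
        Finset.sum_add_distrib])
    (by
      intro a b c; ext α β
      simp only [Matrix.of_apply, Matrix.smul_apply, map_smul, LinearMap.smul_apply, smul_eq_mul,
        Finset.mul_sum, Finset.sum_mul, mul_assoc])
    (by
      intro a b c; ext α β
      simp only [Matrix.of_apply, Matrix.add_apply, map_add, LinearMap.add_apply, add_mul,
        Finset.sum_add_distrib])
    (by
      intro a b c; ext α β
      simp only [Matrix.of_apply, Matrix.smul_apply, map_smul, LinearMap.smul_apply, smul_eq_mul,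
        Finset.mul_sum, Finset.sum_mul, mul_assoc])
  have hBdef : ∀ X X' α β, B X X' α β =
      ∑ i, (∑ j, qB (S j) (S j) X X' * G⁻¹ j i) * (w i α * w i β) := fun _ _ _ _ => rfl
  have hBX : ∀ X, Gf X ≠ 0 → ∀ α β, B X X α β = tl (φ X) α.1 α.2 * tl (φ X) β.1 β.2 := by
    intro X hX α β
    rw [hB3 X hX α β, hBdef]
    simp only [qB_apply, qf_eq]
  have hBsymm : ∀ v w, B v w = B w v := by
    intro v w'
    ext α β
    rw [hBdef, hBdef]
    refine Finset.sum_congr rfl fun i _ => ?_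
    congr 1
    refine Finset.sum_congr rfl fun j _ => ?_
    congr 1
    rw [qB_apply, qB_apply]
    unfold qp
    rw [Matrix.trace_mul_comm]
  have hBs : ∀ v w i j, B v w i j = B v w j i := by
    intro v w' α β
    rw [hBdef, hBdef]
    refine Finset.sum_congr rfl fun i _ => ?_
    congr 1
    rw [mul_comm]
  have hBr : ∀ v i j k l, B v v i j * B v v k l = B v v i l * B v v k j := by
    intro v i j k l
    have h1 : PL (fun v => B v v i j * B v v k l - B v v i l * B v v k j) :=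
      ((bilin_PL B i j).mul (bilin_PL B k l)).sub ((bilin_PL B i l).mul (bilin_PL B k j))
    have h2 := PL.eq_zero h1 hGfPL ⟨T ⟨0, by omega⟩, hGf0 _⟩ (fun X hX => by
      show B X X i j * B X X k l - B X X i l * B X X k j = 0
      rw [hBX X hX, hBX X hX, hBX X hX, hBX X hX]
      ring) v
    exact sub_eq_zero.mp h2
  -- non parallel pair
  have hnp : ∃ i j k l, B (T ⟨0, by omega⟩) (T ⟨0, by omega⟩) i j * B (T ⟨1, by omega⟩) (T ⟨1, by omega⟩) k l
      ≠ B (T ⟨0, by omega⟩) (T ⟨0, by omega⟩) k l * B (T ⟨1, by omega⟩) (T ⟨1, by omega⟩) i j := by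
    by_contra hcon
    push Not at hcon
    set i0 : Fin D := ⟨0, by omega⟩ with hi0
    set i1 : Fin D := ⟨1, by omega⟩ with hi1
    have hne : i0 ≠ i1 := by
      intro h
      have := congrArg Fin.val h
      simp [i0, i1] at this
    have hp := par (fun α : Fin n × Fin n => tl (φ (T i0)) α.1 α.2)
      (fun α : Fin n × Fin n => tl (φ (T i1)) α.1 α.2) (by
        intro i j k l
        have := hcon i j k l
        rw [hBX _ (hGf0 i0), hBX _ (hGf0 i1), hBX _ (hGf0 i0), hBX _ (hGf0 i1)] at this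
        exact this)
    rcases hp with ⟨c, hc⟩ | hz
    · have hrow : ∀ j, G i0 j = c ^ 2 * G i1 j := by
        intro j
        have e1 : tl (φ (T i0)) = c • tl (φ (T i1)) := by
          ext a b
          exact hc (a, b)
        have e2 : G i0 j = qf (φ (T i0)) (φ (S j)) := by rw [← hG']; rfl
        have e3 : G i1 j = qf (φ (T i1)) (φ (S j)) := by rw [← hG']; rfl
        rw [e2, e3, ← qf_tl (φ (T i0)), e1, qf_smul, qf_tl]
      apply hdet
      rw [← Matrix.exists_vecMul_eq_zero_iff]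
      refine ⟨Pi.single i0 1 - c ^ 2 • Pi.single i1 1, ?_, ?_⟩
      · intro h
        have := congrFun h i0
        simp [hne] at this
      · ext j
        simp [Matrix.sub_vecMul, Matrix.smul_vecMul, hrow j]
    · have hrow : ∀ j, G i1 j = 0 := by
        intro j
        have e1 : tl (φ (T i1)) = 0 := by
          ext a b
          exact hz (a, b)
        have e3 : G i1 j = qf (φ (T i1)) (φ (S j)) := by rw [← hG']; rfl
        rw [e3, ← qf_tl (φ (T i1)), e1]
        unfold qf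
        simp
      apply hdet
      exact Matrix.det_eq_zero_of_row_eq_zero i1 hrow
  obtain ⟨i1, j1, k1, l1, hne⟩ := hnp
  obtain ⟨L0, hL0⟩ := lemC B hBsymm hBs hBr _ _ i1 j1 k1 l1 hne
  let L : Mat n →ₗ[ℂ] Mat n :=
    { toFun := fun X => Matrix.of fun i j => L0 X (i, j)
      map_add' := by intro x y; ext i j; simp
      map_smul' := by intro c x; ext i j; simp }
  have hLdef : ∀ X i j, L X i j = L0 X (i, j) := fun _ _ _ => rfl
  have hLX : ∀ X, Gf X ≠ 0 → tl (φ X) = L X ∨ tl (φ X) = -(L X) := by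
    intro X hX
    have h1 := sq_vec (fun α : Fin n × Fin n => tl (φ X) α.1 α.2) (fun α => L0 X α) (by
      intro α β
      rw [← hL0 X α β]
      exact (hBX X hX α β).symm)
    rcases h1 with h1 | h1
    · left
      ext a b
      exact h1 (a, b)
    · right
      ext a b
      exact h1 (a, b)
  refine ⟨L, Gf, hGfPL, ⟨_, hGf0 ⟨0, by omega⟩⟩, ?_, ?_, ?_⟩
  · ext a b
    have h1 : B 1 1 (a, b) (a, b) = 0 := by
      rw [hBdef]
      refine Finset.sum_eq_zero fun i _ => ?_
      rw [Finset.sum_eq_zero, zero_mul]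
      intro j _
      rw [qB_apply]
      unfold qp
      simp
    rw [hL0] at h1
    have h2 : L0 1 (a, b) = 0 := by simpa using h1
    rw [hLdef, h2]; rfl
  · intro X
    have h1 : PL (fun X => trace (L X)) := (PLM.lin L).trace
    refine PL.eq_zero h1 hGfPL ⟨_, hGf0 ⟨0, by omega⟩⟩ (fun X hX => ?_) X
    have h2 := trace_tl hn0 (φ X)
    rcases hLX X hX with h | h
    · rw [h] at h2; exact h2
    · rw [h, trace_neg] at h2; simpa using h2
  · intro X hX
    refine ⟨trace (φ X) / n, ?_⟩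
    have e : φ X = tl (φ X) + (trace (φ X) / n) • (1 : Mat n) := by unfold tl; abel
    rcases hLX X hX with h | h
    · left; rw [← h]; exact e
    · right; rw [← h]; exact e

theorem sum_units (X : Mat n) :
    ∑ i : Fin n, ∑ j : Fin n, (X * single i j 1 * single j i 1 - single j i 1 * (X * single i j 1)) =
      (n : ℂ) • X - trace X • (1 : Mat n) := by
  have h1 : ∀ i j : Fin n, X * single i j (1:ℂ) * single j i 1 = X * single i i 1 := by
    intro i j
    rw [Matrix.mul_assoc, Matrix.single_mul_single_same, one_mul]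
  have h2 : ∀ i j : Fin n, single j i (1:ℂ) * (X * single i j 1) = X i i • single j j 1 := by
    intro i j
    rw [← Matrix.mul_assoc, Matrix.single_mul_mul_single, Matrix.smul_single]
    simp
  have h3 : ∑ i : Fin n, single i i (1:ℂ) = (1 : Mat n) := by
    ext a b
    rw [Matrix.sum_apply, Matrix.one_apply]
    simp [Matrix.single_apply, ite_and]
  simp only [h1, h2, Finset.sum_sub_distrib]
  congr 1
  · simp only [Finset.sum_const, Finset.card_univ, Fintype.card_fin]
    rw [← Finset.smul_sum, ← Finset.mul_sum, h3, Matrix.mul_one]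
    exact (Nat.cast_smul_eq_nsmul ℂ n X).symm
  · simp only [← Finset.smul_sum, h3]
    rw [← Finset.sum_smul]
    rfl

theorem traceless_sum (hn : n ≠ 0) (Z : Mat n) (hZ : trace Z = 0) :
    Z = (1 / (n : ℂ)) • ∑ i : Fin n, ∑ j : Fin n,
      (Z * single i j 1 * single j i 1 - single j i 1 * (Z * single i j 1)) := by
  have : (n : ℂ) ≠ 0 := by exact_mod_cast hn
  rw [sum_units, hZ, zero_smul, sub_zero, smul_smul, one_div, inv_mul_cancel₀ this, one_smul]

theorem trace_comm_zero (a b : Mat n) : trace (a * b - b * a) = 0 := by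
  rw [trace_sub, Matrix.trace_mul_comm, sub_self]

theorem zero_of_trace (hn : n ≠ 0) (W : Mat n) (hW : trace W = 0)
    (h : ∀ Z, trace Z = 0 → trace (W * Z) = 0) : W = 0 := by
  have h1 : ∀ Y : Mat n, trace (W * Y) = 0 := by
    intro Y
    have e : Y = tl Y + (trace Y / n) • (1 : Mat n) := by unfold tl; abel
    rw [e, Matrix.mul_add, trace_add, h _ (trace_tl hn Y)]
    simp [hW]
  ext i j
  have := h1 (single j i 1)
  rw [Matrix.trace_mul_single] at this
  simpa using this

theorem tl_of_traceless (Z : Mat n) (hZ : trace Z = 0) : tl Z = Z := by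
  unfold tl; rw [hZ]; simp

theorem scalar_of_qf (T : Mat n) (h : ∀ S, qf T S = 0) (hn : n ≠ 0) : tl T = 0 := by
  have h1 := nondeg (ι := Unit) (fun _ => 1) (fun _ => tl T) (fun _ => trace_tl hn T)
    (by intro Y; simp [qf_tl, h])
  ext p k
  have := h1 p k p k
  simpa using this

/-- commutator with a scalar shift -/
theorem comm_shift (a b a' b' : Mat n) (s t : ℂ) (ha : a = a' + s • (1 : Mat n))
    (hb : b = b' + t • (1 : Mat n)) : a * b - b * a = a' * b' - b' * a' := by
  subst ha hb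
  simp only [add_mul, mul_add, smul_mul_assoc, mul_smul_comm, one_mul, mul_one, smul_add,
    smul_smul, mul_comm t s]
  abel

theorem stepM (hcl : ∀ (F : Mat n →ₗ[ℂ] Mat n), (∀ Y, Y * F Y = F Y * Y) →
      ∃ c : ℂ, ∀ Y, ∃ s : ℂ, F Y = c • Y + s • (1 : Mat n))
    (hn : 2 ≤ n) (L : Mat n →ₗ[ℂ] Mat n) (htr : ∀ T, trace (L T) = 0)
    (h : ∀ a b c d : Mat n, trace ((L a * L b - L b * L a) * (L c * L d - L d * L c)) =
      trace ((a * b - b * a) * (c * d - d * c))) :
    ∃ c : ℂ, c ≠ 0 ∧ (∀ T S, L T * L S - L S * L T = c • L (T * S - S * T)) ∧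
      (∀ X Z, trace X = 0 → trace Z = 0 → c ^ 2 * trace (L X * L Z) = trace (X * Z)) ∧
      (∀ Z, trace Z = 0 → ∃ X, L X = Z) := by
  classical
  have hn0 : n ≠ 0 := by omega
  have hnC : (n : ℂ) ≠ 0 := by exact_mod_cast hn0
  -- kernel
  have hker : ∀ T, L T = 0 → tl T = 0 := by
    intro T hT
    apply scalar_of_qf T _ hn0
    intro S
    have := h T S T S
    rw [hT] at this
    simp only [zero_mul, mul_zero, sub_self, trace_zero] at this
    unfold qf
    rw [sq, ← this]
  have htl0 : ∀ T, tl T = 0 → ∃ s : ℂ, T = s • (1 : Mat n) := by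
    intro T hT
    refine ⟨trace T / n, ?_⟩
    unfold tl at hT
    exact sub_eq_zero.mp hT
  let W : Submodule ℂ (Mat n) := LinearMap.ker (Matrix.traceLinearMap (Fin n) ℂ ℂ)
  have hWmem : ∀ x : Mat n, x ∈ W ↔ trace x = 0 := by
    intro x
    simp [W, LinearMap.mem_ker]
  let Lr : W →ₗ[ℂ] W := L.restrict (p := W) (q := W) (fun x _ => (hWmem _).mpr (htr x))
  have hLrinj : Function.Injective Lr := by
    rw [← LinearMap.ker_eq_bot, LinearMap.ker_eq_bot']
    intro x hx
    have h1 : L x.1 = 0 := congrArg Subtype.val hx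
    have h2 := hker _ h1
    rw [tl_of_traceless _ ((hWmem _).mp x.2)] at h2
    exact Subtype.ext h2
  have hLrsurj : Function.Surjective Lr := LinearMap.injective_iff_surjective.mp hLrinj
  have hsurj : ∀ Z, trace Z = 0 → ∃ X, L X = Z := by
    intro Z hZ
    obtain ⟨x, hx⟩ := hLrsurj ⟨Z, (hWmem Z).mpr hZ⟩
    exact ⟨x.1, congrArg Subtype.val hx⟩
  -- the map M
  let M : Mat n →ₗ[ℂ] Mat n := (1 / (n : ℂ)) • ∑ i : Fin n, ∑ j : Fin n,
    ((LinearMap.mulRight ℂ (L (single j i 1)) - LinearMap.mulLeft ℂ (L (single j i 1))) ∘ₗ L ∘ₗ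
      LinearMap.mulRight ℂ (single i j 1))
  have hM : ∀ X, M X = (1 / (n : ℂ)) • ∑ i : Fin n, ∑ j : Fin n,
      (L (X * single i j 1) * L (single j i 1) - L (single j i 1) * L (X * single i j 1)) := by
    intro X
    simp [M, LinearMap.sum_apply]
  have hMtr : ∀ X, trace (M X) = 0 := by
    intro X
    rw [hM, trace_smul, trace_sum]
    simp only [trace_sum, trace_comm_zero]
    simp
  have hMform : ∀ X a b : Mat n, trace (M X * (L a * L b - L b * L a)) = trace (X * (a * b - b * a)) := by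
    intro X a b
    have h1 : trace (M X * (L a * L b - L b * L a)) = (1 / (n : ℂ)) * ∑ i : Fin n, ∑ j : Fin n,
        trace ((X * single i j 1 * single j i 1 - single j i 1 * (X * single i j 1)) * (a * b - b * a)) := by
      rw [hM, smul_mul_assoc, trace_smul, Finset.sum_mul, trace_sum, smul_eq_mul]
      congr 1
      refine Finset.sum_congr rfl fun i _ => ?_
      rw [Finset.sum_mul, trace_sum]
      refine Finset.sum_congr rfl fun j _ => ?_
      exact h _ _ _ _
    rw [h1]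
    have h2 : ∑ i : Fin n, ∑ j : Fin n,
        trace ((X * single i j 1 * single j i 1 - single j i 1 * (X * single i j 1)) * (a * b - b * a)) =
        trace (((n : ℂ) • X - trace X • (1 : Mat n)) * (a * b - b * a)) := by
      rw [← sum_units, Finset.sum_mul, trace_sum]
      refine Finset.sum_congr rfl fun i _ => ?_
      rw [Finset.sum_mul, trace_sum]
    rw [h2, sub_mul, trace_sub, smul_mul_assoc, smul_mul_assoc, one_mul, trace_smul, trace_smul,
      trace_comm_zero]
    simp only [smul_eq_mul]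
    field_simp
    ring
  -- every matrix is L of something plus a scalar
  have hrep : ∀ Y : Mat n, ∃ P : Mat n, Y = L P + (trace Y / n) • (1 : Mat n) := by
    intro Y
    obtain ⟨P, hP⟩ := hsurj (tl Y) (trace_tl hn0 Y)
    refine ⟨P, ?_⟩
    rw [hP]; unfold tl; abel
  have hnd : ∀ W' : Mat n, trace W' = 0 → (∀ a b, trace (W' * (L a * L b - L b * L a)) = 0) → W' = 0 := by
    intro W' hW' h1
    apply zero_of_trace hn0 W' hW'
    intro Z hZ
    rw [traceless_sum hn0 Z hZ, mul_smul_comm, trace_smul, Finset.mul_sum, trace_sum]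
    rw [Finset.sum_eq_zero, smul_zero]
    intro i _
    rw [Finset.mul_sum, trace_sum]
    refine Finset.sum_eq_zero fun j _ => ?_
    obtain ⟨P, hP⟩ := hrep (Z * single i j 1)
    obtain ⟨Q, hQ⟩ := hrep (single j i 1)
    rw [comm_shift _ _ _ _ _ _ hP hQ]
    exact h1 P Q
  have hMcomm : ∀ a b, M (a * b - b * a) = L a * L b - L b * L a := by
    intro a b
    rw [← sub_eq_zero]
    apply hnd
    · rw [trace_sub, hMtr, trace_comm_zero, sub_zero]
    · intro a' b'
      rw [sub_mul, trace_sub, hMform, h, sub_self]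
  have hM1 : M 1 = 0 := by
    apply hnd _ (hMtr 1)
    intro a b
    rw [hMform, one_mul, trace_comm_zero]
  have hskew : ∀ S X : Mat n, (L S * M X - M X * L S) + (L X * M S - M S * L X) = 0 := by
    intro S X
    apply zero_of_trace hn0
    · rw [trace_add, trace_comm_zero, trace_comm_zero, add_zero]
    · intro Z hZ
      obtain ⟨T, rfl⟩ := hsurj Z hZ
      have e1 : trace ((L S * M X - M X * L S) * L T) = trace (M X * (L T * L S - L S * L T)) := by
        rw [sub_mul, mul_sub, trace_sub, trace_sub]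
        rw [Matrix.mul_assoc, Matrix.trace_mul_comm (L S), Matrix.mul_assoc (M X) (L S)]
        rw [Matrix.mul_assoc (M X) (L T)]
      have e2 : trace ((L X * M S - M S * L X) * L T) = trace (M S * (L T * L X - L X * L T)) := by
        rw [sub_mul, mul_sub, trace_sub, trace_sub]
        rw [Matrix.mul_assoc, Matrix.trace_mul_comm (L X), Matrix.mul_assoc (M S) (L X)]
        rw [Matrix.mul_assoc (M S) (L T)]
      rw [add_mul, trace_add, e1, e2, hMform, hMform]
      rw [mul_sub, mul_sub, trace_sub, trace_sub]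
      have e3 : trace (S * (T * X)) = trace (X * (S * T)) := by
        rw [← Matrix.mul_assoc, Matrix.trace_mul_comm]
      have e4 : trace (S * (X * T)) = trace (X * (T * S)) := by
        rw [Matrix.trace_mul_comm, Matrix.mul_assoc]
      rw [e3, e4]; ring
  -- a linear right inverse of L modulo scalars
  obtain ⟨g, hg⟩ := LinearMap.exists_rightInverse_of_surjective Lr (LinearMap.range_eq_top.mpr hLrsurj)
  let tlL : Mat n →ₗ[ℂ] W :=
    { toFun := fun Y => ⟨tl Y, (hWmem _).mpr (trace_tl hn0 Y)⟩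
      map_add' := by
        intro x y
        apply Subtype.ext
        show tl (x + y) = tl x + tl y
        unfold tl
        rw [trace_add, add_div, add_smul]; abel
      map_smul' := by
        intro c x
        apply Subtype.ext
        show tl (c • x) = c • tl x
        unfold tl
        rw [trace_smul, smul_eq_mul, smul_sub, smul_smul, mul_div_assoc] }
  let Gi : Mat n →ₗ[ℂ] Mat n := W.subtype ∘ₗ g ∘ₗ tlL
  have hGi : ∀ Y, L (Gi Y) = tl Y := by
    intro Y
    have h1 : Lr (g (tlL Y)) = tlL Y := by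
      have := LinearMap.congr_fun hg (tlL Y)
      exact this
    exact congrArg Subtype.val h1
  obtain ⟨c, hc⟩ := hcl (M ∘ₗ Gi) (by
    intro Y
    have h1 := hskew (Gi Y) (Gi Y)
    rw [hGi] at h1
    have h2 : tl Y * M (Gi Y) = M (Gi Y) * tl Y := by
      have h3 : (2 : ℂ) • (tl Y * M (Gi Y) - M (Gi Y) * tl Y) = 0 := by
        rw [two_smul]; exact h1
      rcases smul_eq_zero.mp h3 with h4 | h4
      · norm_num at h4
      · exact sub_eq_zero.mp h4
    have e : Y = tl Y + (trace Y / n) • (1 : Mat n) := by unfold tl; abel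
    rw [LinearMap.comp_apply]
    conv_lhs => rw [e]
    conv_rhs => rw [e]
    have e5 : Gi (tl Y + (trace Y / n) • (1 : Mat n)) = Gi Y := by rw [← e]
    rw [e5, add_mul, mul_add, h2]
    simp)
  have hML : ∀ X, M X = c • L X := by
    intro X
    obtain ⟨s, hs⟩ := hc (L X)
    rw [LinearMap.comp_apply] at hs
    have h1 : L (Gi (L X) - X) = 0 := by
      rw [map_sub, hGi, tl_of_traceless _ (htr X), sub_self]
    obtain ⟨t, ht⟩ := htl0 _ (hker _ h1)
    have h2 : M (Gi (L X)) = M X := by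
      have : Gi (L X) = X + t • (1 : Mat n) := by rw [← ht]; abel
      rw [this, map_add, map_smul, hM1, smul_zero, add_zero]
    rw [h2] at hs
    have h3 := hMtr X
    rw [hs, trace_add, trace_smul, htr, smul_zero, zero_add, trace_smul, trace_one, Fintype.card_fin,
      smul_eq_mul] at h3
    have h4 : s = 0 := by
      rcases mul_eq_zero.mp h3 with h5 | h5
      · exact h5
      · exact absurd h5 hnC
    rw [hs, h4, zero_smul, add_zero]
  have hlie : ∀ T S, L T * L S - L S * L T = c • L (T * S - S * T) := by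
    intro T S
    rw [← hMcomm, hML]
  refine ⟨c, ?_, hlie, ?_, hsurj⟩
  · rintro rfl
    set a : Fin n := ⟨0, by omega⟩
    set b : Fin n := ⟨1, by omega⟩
    have hab : a ≠ b := by
      intro h
      have := congrArg Fin.val h
      simp [a, b] at this
    have h1 := h (single a b 1) (single b a 1) (single a b 1) (single b a 1)
    rw [hlie] at h1
    simp only [zero_smul, zero_mul, trace_zero] at h1
    have h2 : single a b (1:ℂ) * single b a 1 - single b a 1 * single a b 1 = single a a 1 - single b b 1 := by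
      simp
    rw [h2] at h1
    simp [mul_sub, sub_mul, Matrix.single_mul_single_of_ne, hab, hab.symm, Matrix.trace_single_eq_same] at h1
    norm_num at h1
  · intro X Z hX hZ
    have h1 : ∀ a b, c ^ 2 * trace (L X * L (a * b - b * a)) = trace (X * (a * b - b * a)) := by
      intro a b
      rw [← hMform, hML, hlie]
      rw [smul_mul_assoc, mul_smul_comm, trace_smul, trace_smul, smul_eq_mul, smul_eq_mul]
      ring
    have h2 := traceless_sum hn0 Z hZ
    rw [h2, map_smul, map_sum, mul_smul_comm, mul_smul_comm, trace_smul, trace_smul, Finset.mul_sum,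
      Finset.mul_sum, trace_sum, trace_sum, smul_eq_mul, smul_eq_mul]
    rw [mul_left_comm, Finset.mul_sum]
    congr 1
    refine Finset.sum_congr rfl fun i _ => ?_
    rw [map_sum, Finset.mul_sum, Finset.mul_sum, trace_sum, trace_sum, Finset.mul_sum]
    refine Finset.sum_congr rfl fun j _ => ?_
    exact h1 _ _

theorem F_LS_conj_fix (A Y : Mat n) (hA : IsUnit A) (x0 : Fin n → ℂ) (hAx : A *ᵥ x0 = x0) :
    localSpectrum (A * Y * A⁻¹) x0 = localSpectrum Y x0 := by
  rw [F_LS_conj A Y hA x0]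
  congr 1
  have h1 : A⁻¹ * A = 1 := Matrix.nonsing_inv_mul A ((Matrix.isUnit_iff_isUnit_det A).mp hA)
  conv_lhs => rw [← hAx]
  rw [Matrix.mulVec_mulVec, h1, Matrix.one_mulVec]

theorem PL_dlt (x0 : Fin n → ℂ) :
    PL (fun p : Mat n × Mat n => dlt x0 (p.1 * p.2 - p.2 * p.1)) := by
  have h1 : PLM (fun p : Mat n × Mat n => p.1) := PLM.lin (LinearMap.fst ℂ (Mat n) (Mat n))
  have h2 : PLM (fun p : Mat n × Mat n => p.2) := PLM.lin (LinearMap.snd ℂ (Mat n) (Mat n))
  have h3 : PLM (fun p : Mat n × Mat n => p.1 * p.2 - p.2 * p.1) := (h1.mul h2).sub (h2.mul h1)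
  unfold dlt
  refine PL.mul ?_ ?_
  · apply PLM.det
    intro i j
    exact (h3.pow _).trace
  · apply PLM.det
    intro i j
    exact (h3.pow _).mulVec x0 i

theorem main_two (hn : 2 ≤ n) (x0 : Fin n → ℂ) (hx0 : x0 ≠ 0) (φ : Mat n → Mat n)
    (h : ∀ T S : Mat n, localSpectrum (φ T * φ S - φ S * φ T) x0 = localSpectrum (T * S - S * T) x0) :
    IsStandard x0 φ := by
  classical
  have hn0 : n ≠ 0 := by omega
  have hnC : (n : ℂ) ≠ 0 := by exact_mod_cast hn0
  set Δ : Mat n × Mat n → ℂ := fun p => dlt x0 (p.1 * p.2 - p.2 * p.1) with hΔdef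
  have hΔ : PL Δ := PL_dlt x0
  have hΔ0 : ∃ p, Δ p ≠ 0 := by
    obtain ⟨T, S, hTS⟩ := exists_dlt x0 hx0
    exact ⟨(T, S), hTS⟩
  have hpow : ∀ T S, Δ (T, S) ≠ 0 → ∀ k : ℕ,
      trace ((φ T * φ S - φ S * φ T) ^ k) = trace ((T * S - S * T) ^ k) := by
    intro T S hTS k
    apply trace_pow_eq _ _ x0 x0 (h T S)
    rw [h T S]
    exact ncard_of_dlt _ _ hTS
  obtain ⟨L, G, hG, hG0, hL1, htr, hLφ⟩ := stepBC hn Δ hΔ hΔ0 φ (fun T S hTS => hpow T S hTS 2)
  -- sign form of hLφ
  have hLφ' : ∀ T, G T ≠ 0 → ∃ e s : ℂ, (e = 1 ∨ e = -1) ∧ φ T = e • L T + s • (1 : Mat n) := by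
    intro T hT
    obtain ⟨s, hs | hs⟩ := hLφ T hT
    · exact ⟨1, s, Or.inl rfl, by rw [one_smul]; exact hs⟩
    · exact ⟨-1, s, Or.inr rfl, by rw [neg_one_smul]; exact hs⟩
  have hcomm : ∀ (a b a' b' : Mat n) (e f s t : ℂ), a = e • a' + s • (1 : Mat n) →
      b = f • b' + t • (1 : Mat n) → a * b - b * a = (e * f) • (a' * b' - b' * a') := by
    intro a b a' b' e f s t ha hb
    rw [comm_shift a b _ _ s t ha hb]
    rw [smul_mul_assoc, mul_smul_comm, smul_mul_assoc, mul_smul_comm, smul_smul, smul_smul,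
      smul_sub, mul_comm f e]
  -- identity principle on pairs
  have hgen : ∀ (F : Mat n × Mat n → ℂ), PL F →
      (∀ T S, G T ≠ 0 → G S ≠ 0 → Δ (T, S) ≠ 0 → F (T, S) = 0) → ∀ T S, F (T, S) = 0 := by
    intro F hF h1 T S
    have hG1 : PL (fun p : Mat n × Mat n => G p.1) := hG.comp (LinearMap.fst ℂ (Mat n) (Mat n))
    have hG2 : PL (fun p : Mat n × Mat n => G p.2) := hG.comp (LinearMap.snd ℂ (Mat n) (Mat n))
    obtain ⟨T1, hT1⟩ := hG0
    obtain ⟨q, hq1, hq2⟩ := PL.two hG1 hG2 ⟨(T1, T1), hT1⟩ ⟨(T1, T1), hT1⟩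
    obtain ⟨r, hr1, hr2⟩ := PL.two (hG1.mul hG2) hΔ ⟨q, mul_ne_zero hq1 hq2⟩ hΔ0
    refine PL.eq_zero hF ((hG1.mul hG2).mul hΔ) ⟨r, mul_ne_zero hr1 hr2⟩ ?_ (T, S)
    rintro ⟨a, b⟩ hab
    have h2 := left_ne_zero_of_mul hab
    exact h1 a b (left_ne_zero_of_mul h2) (right_ne_zero_of_mul h2) (right_ne_zero_of_mul hab)
  have hP1 : PLM (fun p : Mat n × Mat n => p.1) := PLM.lin (LinearMap.fst ℂ (Mat n) (Mat n))
  have hP2 : PLM (fun p : Mat n × Mat n => p.2) := PLM.lin (LinearMap.snd ℂ (Mat n) (Mat n))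
  have hQ1 : PLM (fun p : Mat n × Mat n => L p.1) := PLM.lin (L ∘ₗ LinearMap.fst ℂ (Mat n) (Mat n))
  have hQ2 : PLM (fun p : Mat n × Mat n => L p.2) := PLM.lin (L ∘ₗ LinearMap.snd ℂ (Mat n) (Mat n))
  have hPc : PLM (fun p : Mat n × Mat n => p.1 * p.2 - p.2 * p.1) := (hP1.mul hP2).sub (hP2.mul hP1)
  have hQc : PLM (fun p : Mat n × Mat n => L p.1 * L p.2 - L p.2 * L p.1) :=
    (hQ1.mul hQ2).sub (hQ2.mul hQ1)
  have h2 : ∀ T S, trace ((L T * L S - L S * L T) ^ 2) = trace ((T * S - S * T) ^ 2) := by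
    intro T S
    have := hgen (fun p => trace ((L p.1 * L p.2 - L p.2 * L p.1) ^ 2) -
      trace ((p.1 * p.2 - p.2 * p.1) ^ 2)) ((hQc.pow 2).trace.sub (hPc.pow 2).trace) (by
        intro T S hT hS hTS
        obtain ⟨e, s, he, hes⟩ := hLφ' T hT
        obtain ⟨f, t, hf, hft⟩ := hLφ' S hS
        have h3 := hpow T S hTS 2
        rw [hcomm _ _ _ _ e f s t hes hft, _root_.smul_pow, trace_smul, smul_eq_mul] at h3
        have h4 : (e * f) ^ 2 = 1 := by
          rcases he with rfl | rfl <;> rcases hf with rfl | rfl <;> norm_num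
        rw [h4, one_mul] at h3
        exact sub_eq_zero.mpr h3) T S
    exact sub_eq_zero.mp this
  have h3 : ∀ T S, (trace ((L T * L S - L S * L T) ^ 3)) ^ 2 = (trace ((T * S - S * T) ^ 3)) ^ 2 := by
    intro T S
    have := hgen (fun p => (trace ((L p.1 * L p.2 - L p.2 * L p.1) ^ 3)) ^ 2 -
      (trace ((p.1 * p.2 - p.2 * p.1) ^ 3)) ^ 2)
      (((hQc.pow 3).trace.pow 2).sub ((hPc.pow 3).trace.pow 2)) (by
        intro T S hT hS hTS
        obtain ⟨e, s, he, hes⟩ := hLφ' T hT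
        obtain ⟨f, t, hf, hft⟩ := hLφ' S hS
        have h3 := hpow T S hTS 3
        rw [hcomm _ _ _ _ e f s t hes hft, _root_.smul_pow, trace_smul, smul_eq_mul] at h3
        have h4 : ((e * f) ^ 3) ^ 2 = 1 := by
          rcases he with rfl | rfl <;> rcases hf with rfl | rfl <;> norm_num
        show (trace ((L T * L S - L S * L T) ^ 3)) ^ 2 - (trace ((T * S - S * T) ^ 3)) ^ 2 = 0
        rw [← h3, mul_pow, h4]; ring) T S
    exact sub_eq_zero.mp this
  obtain ⟨c, hc0, hlie, horth, hsurj⟩ := stepM commuting_linear hn L htr (curv L h2)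
  set M : Mat n →ₗ[ℂ] Mat n := c • L with hM
  have hMapp : ∀ X, M X = c • L X := fun X => rfl
  obtain ⟨ε, hε, hcub⟩ := stepE1 hn M (by rw [hMapp, hL1, smul_zero]) (by
    intro T S
    rw [hMapp, ← hlie]
    exact h3 T S)
  obtain ⟨A, hA, hg2, hMA⟩ := stepE2 hn M (by rw [hMapp, hL1, smul_zero])
    (by intro T; rw [hMapp, trace_smul, htr, smul_zero]) (c ^ 2)
    (by
      intro T S
      rw [hMapp, hMapp, hMapp, smul_mul_assoc, mul_smul_comm, smul_mul_assoc, mul_smul_comm,
        smul_smul, smul_smul, ← smul_sub, hlie, smul_smul, smul_smul]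
      congr 1; ring)
    (by
      intro X Z hX hZ
      rw [← horth X Z hX hZ, hMapp, hMapp, smul_mul_assoc, mul_smul_comm, smul_smul, trace_smul,
        smul_eq_mul, sq])
    (by
      intro Z hZ
      obtain ⟨X, hX⟩ := hsurj (c⁻¹ • Z) (by rw [trace_smul, hZ, smul_zero])
      exact ⟨X, by rw [hMapp, hX, smul_smul, mul_inv_cancel₀ hc0, one_smul]⟩)
    ε hε hcub
  -- uniform description
  obtain ⟨N, hN, hMN⟩ : ∃ N : Mat n → Mat n,
      ((∀ Y, N Y = A * Y * A⁻¹) ∨ (∀ Y, N Y = A * Yᵀ * A⁻¹)) ∧ ∀ T, trace T = 0 → M T = ε • N T := by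
    rcases hMA with h4 | h4
    · exact ⟨fun Y => A * Y * A⁻¹, Or.inl fun _ => rfl, h4⟩
    · exact ⟨fun Y => A * Yᵀ * A⁻¹, Or.inr fun _ => rfl, h4⟩
  have hLL : ∀ T S, L T * L S - L S * L T = ε • N (T * S - S * T) := by
    intro T S
    rw [hlie, ← hMapp, hMN _ (trace_comm_zero T S)]
  have hpm : ∀ (a b : ℂ), (a = 1 ∨ a = -1) → (b = 1 ∨ b = -1) → (a * b = 1 ∨ a * b = -1) := by
    intro a b ha hb
    rcases ha with rfl | rfl <;> rcases hb with rfl | rfl <;> norm_num
  have hLScase : ∀ (a : ℂ) (Y Z : Mat n), (a = 1 ∨ a = -1) → localSpectrum (a • Y) x0 = localSpectrum Z x0 →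
      (localSpectrum Y x0 = localSpectrum Z x0 ∨ localSpectrum (-Y) x0 = localSpectrum Z x0) := by
    intro a Y Z ha h5
    rcases ha with rfl | rfl
    · left; rwa [one_smul] at h5
    · right; rwa [neg_one_smul] at h5
  -- all T
  have hall : ∀ T, ∃ e s : ℂ, (e = 1 ∨ e = -1) ∧ φ T = e • L T + s • (1 : Mat n) := by
    intro T
    obtain ⟨T', hT'⟩ := hsurj (tl (φ T)) (trace_tl hn0 (φ T))
    have hφT : φ T = (1 : ℂ) • L T' + (trace (φ T) / n) • (1 : Mat n) := by
      rw [one_smul, hT']; unfold tl; abel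
    obtain ⟨s, hs⟩ := stepG hn T T' x0 hx0 G hG hG0 A hA N hN (by
      intro S hS
      obtain ⟨f, t, hf, hft⟩ := hLφ' S hS
      have h5 := h T S
      rw [hcomm _ _ _ _ 1 f _ t hφT hft, hLL, smul_smul] at h5
      exact hLScase _ _ _ (hpm _ _ (hpm _ _ (Or.inl rfl) hf) hε) h5)
    rcases hs with hs | hs
    · refine ⟨1, trace (φ T) / n, Or.inl rfl, ?_⟩
      have : L T' = L T := by rw [hs, map_add, map_smul, hL1, smul_zero, add_zero]
      rw [← this]; exact hφT
    · refine ⟨-1, trace (φ T) / n, Or.inr rfl, ?_⟩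
      have : L T' = -L T := by rw [hs, map_add, map_smul, hL1, smul_zero, add_zero, map_neg]
      rw [neg_one_smul, ← this]
      rw [one_smul] at hφT; exact hφT
  choose e s he hes using hall
  obtain ⟨A', k', hA', hk', hA'x, hNA⟩ := stepF hn x0 hx0 A hA N hN (by
    intro T S
    have h5 := h T S
    rw [hcomm _ _ _ _ (e T) (e S) _ _ (hes T) (hes S), hLL, smul_smul] at h5
    exact hLScase _ _ _ (hpm _ _ (hpm _ _ (he T) (he S)) hε) h5)
  set k : ℂ := c⁻¹ * ε * k' with hk
  have hinv : A' * A'⁻¹ = 1 := Matrix.mul_nonsing_inv A' ((Matrix.isUnit_iff_isUnit_det A').mp hA')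
  have hLA : ∀ T, ∃ t : ℂ, L T = k • (A' * T * A'⁻¹) + t • (1 : Mat n) := by
    intro T
    have h5 : L T = L (tl T) := by
      have e5 : T = tl T + (trace T / n) • (1 : Mat n) := by unfold tl; abel
      conv_lhs => rw [e5]
      rw [map_add, map_smul, hL1, smul_zero, add_zero]
    have h6 : L (tl T) = k • (A' * tl T * A'⁻¹) := by
      have h7 := hMN (tl T) (trace_tl hn0 T)
      rw [hNA _ (trace_tl hn0 T), hMapp] at h7
      have h8 : L (tl T) = c⁻¹ • (c • L (tl T)) := by rw [smul_smul, inv_mul_cancel₀ hc0, one_smul]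
      rw [h8, h7, smul_smul, smul_smul, hk]
    refine ⟨-(k * (trace T / n)), ?_⟩
    rw [h5, h6]
    have h7 : A' * tl T * A'⁻¹ = A' * T * A'⁻¹ - (trace T / n) • (1 : Mat n) := by
      unfold tl
      rw [mul_sub, sub_mul, mul_smul_comm, smul_mul_assoc, mul_one, hinv]
    rw [h7, smul_sub, smul_smul, neg_smul, sub_eq_add_neg]
  have hk2 : (k ^ 2 = 1 ∨ k ^ 2 = -1) := by
    have h5 : (k ^ 2 - 1) * (k ^ 2 + 1) = 0 := by
      have h6 : ε ^ 4 = 1 := by rcases hε with rfl | rfl <;> norm_num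
      have h7 : k' ^ 4 = 1 := by rcases hk' with rfl | rfl <;> norm_num
      have h8 : (c⁻¹) ^ 4 = 1 := by
        have : c ^ 4 = 1 := by rw [← hg2]; ring
        rw [inv_pow, this, inv_one]
      have h9 : k ^ 4 = 1 := by
        rw [hk, mul_pow, mul_pow, h6, h7, h8]; ring
      linear_combination h9
    rcases mul_eq_zero.mp h5 with h6 | h6
    · left; linear_combination h6
    · right; linear_combination h6
  have hφA : ∀ T, ∃ t : ℂ, φ T = (e T * k) • (A' * T * A'⁻¹) + t • (1 : Mat n) := by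
    intro T
    obtain ⟨t, ht⟩ := hLA T
    refine ⟨e T * t + s T, ?_⟩
    conv_lhs => rw [hes T, ht]
    rw [smul_add, smul_smul, smul_smul, add_smul, add_assoc]
  have hinv' : A'⁻¹ * A' = 1 := Matrix.nonsing_inv_mul A' ((Matrix.isUnit_iff_isUnit_det A').mp hA')
  have hconj : ∀ T S : Mat n, (A' * T * A'⁻¹) * (A' * S * A'⁻¹) = A' * (T * S) * A'⁻¹ := by
    intro T S
    have : (A' * T * A'⁻¹) * (A' * S * A'⁻¹) = A' * T * (A'⁻¹ * A') * S * A'⁻¹ := by
      simp only [Matrix.mul_assoc]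
    rw [this, hinv', Matrix.mul_one]
    simp only [Matrix.mul_assoc]
  have hH : ∀ T S : Mat n,
      localSpectrum ((k ^ 2 * e T * e S) • (T * S - S * T)) x0 = localSpectrum (T * S - S * T) x0 := by
    intro T S
    obtain ⟨t, ht⟩ := hφA T
    obtain ⟨u, hu⟩ := hφA S
    have h5 := h T S
    rw [hcomm _ _ _ _ _ _ _ _ ht hu, hconj, hconj, ← sub_mul, ← mul_sub] at h5
    rw [← h5, ← F_LS_conj_fix A' _ hA' x0 hA'x]
    congr 1
    rw [mul_smul_comm, smul_mul_assoc]
    congr 1
    ring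
  obtain ⟨hk1, hconst⟩ := stepH hn x0 hx0 e (k ^ 2) hk2 he hH
  have hkpm : k = 1 ∨ k = -1 := (by rcases mul_eq_zero.mp (show (k - 1) * (k + 1) = 0 by linear_combination hk1) with h6 | h6; exacts [Or.inl (by linear_combination h6), Or.inr (by linear_combination h6)])
  choose η hη using hφA
  refine ⟨A', η, fun T => e T * k, hA', hA'x, fun T => hpm _ _ (he T) hkpm, ?_, hη⟩
  intro T S hT hS
  show e T * k = e S * k
  rw [hconst T S hT hS]

theorem main_one (x0 : Fin 1 → ℂ) (φ : Mat 1 → Mat 1) : IsStandard x0 φ := by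
  refine ⟨1, fun T => (φ T - T) 0 0, fun _ => 1, isUnit_one, Matrix.one_mulVec x0,
    fun _ => Or.inl rfl, fun _ _ _ _ => rfl, fun T => ?_⟩
  ext i j
  fin_cases i
  fin_cases j
  simp


/-- For every size `n`, every nonzero vector `x0` and every map `φ` on the `n` by `n` complex
matrices: the local spectra of `[φ T, φ S]` and `[T, S]` at `x0` agree for all `T, S` if and
only if `φ` has standard form. -/
theorem standard_iff {n : ℕ} (x0 : Fin n → ℂ) (hx0 : x0 ≠ 0) (φ : Mat n → Mat n) :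
    (∀ T S : Mat n,
      localSpectrum (φ T * φ S - φ S * φ T) x0 = localSpectrum (T * S - S * T) x0) ↔
      IsStandard x0 φ := by
  constructor
  · intro h
    by_cases hn : 2 ≤ n
    · exact main_two hn x0 hx0 φ h
    · have h1 : n = 1 := by
        rcases Nat.eq_zero_or_pos n with h0 | h0
        · subst h0
          exact absurd (Subsingleton.elim x0 0) hx0
        · omega
      subst h1
      exact main_one x0 φ
  · intro h T S
    exact converse x0 hx0 φ h T S


end Pool.Agent.Helper877.LocSpec
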